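import Pool.Agent.Work.MP_0c03d4_ag.Defs

/-!
The first homology of the Milnor fibre, the monodromy operator and the Alexander polynomial.
-/

namespace Pool.Agent.Work.MP_0c03d4_ag

open MvPolynomial CategoryTheory

/-- The group `H_1(F, ℚ)` of the Milnor fibre `F` of `f`. -/
noncomputable def MilnorH1 (f : MvPolynomial (Fin 3) ℂ) : ModuleCat.{0} ℚ :=
  H1.obj (TopCat.of (MilnorFibre f))

/-- The operator `h_*` on `H_1(F, ℚ)`. -/
noncomputable def hStar {f : MvPolynomial (Fin 3) ℂ} {d : ℕ} (hf : f.IsHomogeneous d) :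
    MilnorH1 f →ₗ[ℚ] MilnorH1 f :=
  (H1.map (TopCat.ofHom (monodromy hf))).hom

/-- The Alexander polynomial: the characteristic polynomial of `h_*`. -/
noncomputable def alexander {f : MvPolynomial (Fin 3) ℂ} {d : ℕ} (hf : f.IsHomogeneous d)
    [Module.Finite ℚ (MilnorH1 f)] : Polynomial ℚ :=
  (hStar hf).charpoly

/-- The Milnor fibres are homeomorphic, compatibly with the monodromies. -/
def ConjFibre {f g : MvPolynomial (Fin 3) ℂ} {d : ℕ} (hf : f.IsHomogeneous d)
    (hg : g.IsHomogeneous d) : Prop :=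
  ∃ φ : MilnorFibre f ≃ₜ MilnorFibre g, ∀ p, φ (monodromy hf p) = monodromy hg (φ p)

/-- The monodromy operators on `H_1` are conjugate. -/
def ConjH1 {f g : MvPolynomial (Fin 3) ℂ} {d : ℕ} (hf : f.IsHomogeneous d)
    (hg : g.IsHomogeneous d) : Prop :=
  ∃ e : MilnorH1 f ≃ₗ[ℚ] MilnorH1 g, ∀ x, e (hStar hf x) = hStar hg (e x)

end Pool.Agent.Work.MP_0c03d4_ag
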