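import Mathlib

/-!
The weak combinatorial type `W` (four conics, four lines), Milnor fibres and their monodromy.
-/

namespace Pool.Agent.Work.MP_0c03d4_ag

open MvPolynomial CategoryTheory
open scoped LinearAlgebra.Projectivization

/-- The gradient of `g` at `v`. -/
noncomputable def grad (g : MvPolynomial (Fin 3) ℂ) (v : Fin 3 → ℂ) : Fin 3 → ℂ :=
  fun j => eval v (pderiv j g)

/-- The point `p` of the projective plane lies on the curve `g = 0`. -/
def On (g : MvPolynomial (Fin 3) ℂ) (p : ℙ ℂ (Fin 3 → ℂ)) : Prop := eval p.rep g = 0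

/-- The incidence table of the nine quadruple points: `inc k i = true` if the `k`-th point lies on
the conic `C_i`, and `inc k i = false` if it lies on the line `L_i`. -/
def inc : Fin 9 → Fin 4 → Bool :=
  ![![true, true, false, false],
    ![true, true, true, true],
    ![true, true, true, true],
    ![true, true, true, true],
    ![false, false, true, true],
    ![true, false, false, true],
    ![true, false, true, false],
    ![false, true, false, true],
    ![false, true, true, false]]

/-- The eight forms `K (i, false) = L_i` and `K (i, true) = C_i` define a curve of weak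
combinatorial type `W`. -/
def IsTypeW (K : Fin 4 × Bool → MvPolynomial (Fin 3) ℂ) : Prop :=
  (∀ i, (K (i, false)).IsHomogeneous 1 ∧ (K (i, true)).IsHomogeneous 2) ∧
  (∀ c, ∀ p : ℙ ℂ (Fin 3 → ℂ), On (K c) p → grad (K c) p.rep ≠ 0) ∧
  ∃ (T : Fin 4 → ℙ ℂ (Fin 3 → ℂ)) (Q : Fin 9 → ℙ ℂ (Fin 3 → ℂ)),
    Function.Injective Q ∧
    (∀ i c, On (K c) (T i) ↔ c.1 = i) ∧
    (∀ i, ¬ LinearIndependent ℂ ![grad (K (i, false)) (T i).rep, grad (K (i, true)) (T i).rep]) ∧
    (∀ i p, On (K (i, false)) p → On (K (i, true)) p → p = T i) ∧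
    (∀ k c, On (K c) (Q k) ↔ c.2 = inc k c.1) ∧
    (∀ k c c', c ≠ c' → On (K c) (Q k) → On (K c') (Q k) →
      LinearIndependent ℂ ![grad (K c) (Q k).rep, grad (K c') (Q k).rep]) ∧
    (∀ p c c', c ≠ c' → On (K c) p → On (K c') p → (∃ i, p = T i) ∨ ∃ k, p = Q k)

/-- The Milnor fibre `f = 1`. -/
abbrev MilnorFibre (f : MvPolynomial (Fin 3) ℂ) : Type := {v : Fin 3 → ℂ // eval v f = 1}

theorem eval_smul_of_isHomogeneous {f : MvPolynomial (Fin 3) ℂ} {d : ℕ} (hf : f.IsHomogeneous d)
    (c : ℂ) (v : Fin 3 → ℂ) : eval (c • v) f = c ^ d * eval v f := by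
  conv_lhs => rw [f.as_sum]
  conv_rhs => rw [f.as_sum]
  rw [map_sum, map_sum, Finset.mul_sum]
  refine Finset.sum_congr rfl fun m hm => ?_
  have hd : ∑ i, m i = d := by
    rw [← hf (mem_support_iff.1 hm), Finsupp.weight_apply, Finsupp.sum_fintype] <;> simp
  rw [eval_monomial, eval_monomial, Finsupp.prod_fintype _ _ fun _ => pow_zero _,
    Finsupp.prod_fintype _ _ fun _ => pow_zero _]
  simp only [Pi.smul_apply, smul_eq_mul, mul_pow, Finset.prod_mul_distrib,
    Finset.prod_pow_eq_pow_sum, hd]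
  ring

theorem monodromy_mem {f : MvPolynomial (Fin 3) ℂ} {d : ℕ} (hf : f.IsHomogeneous d)
    (v : MilnorFibre f) : eval (Complex.exp (2 * Real.pi * Complex.I / d) • v.1) f = 1 := by
  rw [eval_smul_of_isHomogeneous hf, v.2, mul_one, ← Complex.exp_nat_mul]
  rcases Nat.eq_zero_or_pos d with rfl | hd
  · simp
  · have : (d : ℂ) ≠ 0 := by exact_mod_cast hd.ne'
    rw [mul_div_cancel₀ _ this, Complex.exp_two_pi_mul_I]

/-- The monodromy `p ↦ exp(2πi/d) p` of the Milnor fibre of a form of degree `d`. -/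
noncomputable def monodromy {f : MvPolynomial (Fin 3) ℂ} {d : ℕ} (hf : f.IsHomogeneous d) :
    C(MilnorFibre f, MilnorFibre f) :=
  ⟨fun v => ⟨Complex.exp (2 * Real.pi * Complex.I / d) • v.1, monodromy_mem hf v⟩,
    Continuous.subtype_mk (by fun_prop) _⟩

/-- First singular homology with rational coefficients, as a functor. -/
noncomputable def H1 : TopCat.{0} ⥤ ModuleCat.{0} ℚ :=
  (AlgebraicTopology.singularHomologyFunctor (ModuleCat.{0} ℚ) 1).obj (ModuleCat.of ℚ ℚ)

end Pool.Agent.Work.MP_0c03d4_ag
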