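import Pool.Agent.Work.MP_0c03d4_ag.Defs

/-!
The one-parameter family of realisations of `W`.
-/

namespace Pool.Agent.Work.MP_0c03d4_ag

open MvPolynomial Projectivization
open scoped LinearAlgebra.Projectivization

/-- The four lines. -/
noncomputable def LL : Fin 4 → MvPolynomial (Fin 3) ℂ := ![X 0, X 1, X 2, -(X 0 + X 1 + X 2)]

/-- The four conics. -/
noncomputable def CC (s J : ℂ) : Fin 4 → MvPolynomial (Fin 3) ℂ :=
  ![C (-4) * (LL 2 * LL 3) + C ((s + 1 + J) ^ 2) * (LL 1 * LL 3) +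
      C ((s + 1 - J) ^ 2) * (LL 1 * LL 2),
    C 4 * (LL 2 * LL 3) + C (-(s - 1 + J) ^ 2) * (LL 0 * LL 3) +
      C (-(s - 1 - J) ^ 2) * (LL 0 * LL 2),
    C (-(s + 1 + J) ^ 2) * (LL 1 * LL 3) + C ((s - 1 + J) ^ 2) * (LL 0 * LL 3) +
      C (-2 * J * s ^ 2) * (LL 0 * LL 1),
    C (-(s + 1 - J) ^ 2) * (LL 1 * LL 2) + C ((s - 1 - J) ^ 2) * (LL 0 * LL 2) +
      C (2 * J * s ^ 2) * (LL 0 * LL 1)]

/-- The eight components. -/
noncomputable def KK (s J : ℂ) (c : Fin 4 × Bool) : MvPolynomial (Fin 3) ℂ :=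
  match c.2 with
  | true => CC s J c.1
  | false => LL c.1

/-- Good parameters. -/
structure Good (s J : ℂ) : Prop where
  hJ : J ^ 2 = -1
  h0 : s ≠ 0
  hA : s + 1 + J ≠ 0
  hB : s + 1 - J ≠ 0
  hC : s - 1 + J ≠ 0
  hD : s - 1 - J ≠ 0

theorem LL_hom (i : Fin 4) : (LL i).IsHomogeneous 1 := by
  have hX : ∀ j : Fin 3, (X j : MvPolynomial (Fin 3) ℂ).IsHomogeneous 1 :=
    fun j => isHomogeneous_X ℂ j
  fin_cases i
  · exact hX 0
  · exact hX 1
  · exact hX 2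
  · exact (((hX 0).add (hX 1)).add (hX 2)).neg

theorem CC_hom (s J : ℂ) (i : Fin 4) : (CC s J i).IsHomogeneous 2 := by
  have h : ∀ (a : ℂ) (j k : Fin 4), (C a * (LL j * LL k)).IsHomogeneous 2 :=
    fun a j k => ((LL_hom j).mul (LL_hom k)).C_mul a
  fin_cases i <;> exact ((h _ _ _).add (h _ _ _)).add (h _ _ _)

/-- Values of the components. -/
def val (s J x y z : ℂ) : Fin 4 → Bool → ℂ :=
  ![fun b => match b with
      | true => -4 * (z * -(x + y + z)) + (s + 1 + J) ^ 2 * (y * -(x + y + z)) +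
          (s + 1 - J) ^ 2 * (y * z)
      | false => x,
    fun b => match b with
      | true => 4 * (z * -(x + y + z)) - (s - 1 + J) ^ 2 * (x * -(x + y + z)) -
          (s - 1 - J) ^ 2 * (x * z)
      | false => y,
    fun b => match b with
      | true => -(s + 1 + J) ^ 2 * (y * -(x + y + z)) + (s - 1 + J) ^ 2 * (x * -(x + y + z)) -
          2 * J * s ^ 2 * (x * y)
      | false => z,
    fun b => match b with
      | true => -(s + 1 - J) ^ 2 * (y * z) + (s - 1 - J) ^ 2 * (x * z) + 2 * J * s ^ 2 * (x * y)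
      | false => -(x + y + z)]

/-- Gradients of the components. -/
def gr (s J x y z : ℂ) : Fin 4 → Bool → Fin 3 → ℂ :=
  ![fun b => match b with
      | true => ![4 * z - (s + 1 + J) ^ 2 * y,
          4 * z - (s + 1 + J) ^ 2 * (x + 2 * y + z) + (s + 1 - J) ^ 2 * z,
          4 * (x + y + 2 * z) - (s + 1 + J) ^ 2 * y + (s + 1 - J) ^ 2 * y]
      | false => ![1, 0, 0],
    fun b => match b with
      | true => ![-4 * z + (s - 1 + J) ^ 2 * (2 * x + y + z) - (s - 1 - J) ^ 2 * z,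
          -4 * z + (s - 1 + J) ^ 2 * x,
          -4 * (x + y + 2 * z) + (s - 1 + J) ^ 2 * x - (s - 1 - J) ^ 2 * x]
      | false => ![0, 1, 0],
    fun b => match b with
      | true => ![(s + 1 + J) ^ 2 * y - (s - 1 + J) ^ 2 * (2 * x + y + z) - 2 * J * s ^ 2 * y,
          (s + 1 + J) ^ 2 * (x + 2 * y + z) - (s - 1 + J) ^ 2 * x - 2 * J * s ^ 2 * x,
          (s + 1 + J) ^ 2 * y - (s - 1 + J) ^ 2 * x]
      | false => ![0, 0, 1],
    fun b => match b with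
      | true => ![(s - 1 - J) ^ 2 * z + 2 * J * s ^ 2 * y,
          -(s + 1 - J) ^ 2 * z + 2 * J * s ^ 2 * x,
          -(s + 1 - J) ^ 2 * y + (s - 1 - J) ^ 2 * x]
      | false => ![-1, -1, -1]]

theorem fa3 {motive : Fin 3 → Prop} (h0 : motive 0) (h1 : motive 1) (h2 : motive 2) (i : Fin 3) :
    motive i := by
  fin_cases i
  exacts [h0, h1, h2]

theorem fa4 {motive : Fin 4 → Prop} (h0 : motive 0) (h1 : motive 1) (h2 : motive 2)
    (h3 : motive 3) (i : Fin 4) : motive i := by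
  fin_cases i
  exacts [h0, h1, h2, h3]

theorem fa9 {motive : Fin 9 → Prop} (h0 : motive 0) (h1 : motive 1) (h2 : motive 2)
    (h3 : motive 3) (h4 : motive 4) (h5 : motive 5) (h6 : motive 6) (h7 : motive 7)
    (h8 : motive 8) (i : Fin 9) : motive i := by
  fin_cases i
  exacts [h0, h1, h2, h3, h4, h5, h6, h7, h8]

theorem lt4 {motive : Fin 4 → Fin 4 → Prop} (h01 : motive 0 1) (h02 : motive 0 2)
    (h03 : motive 0 3) (h12 : motive 1 2) (h13 : motive 1 3) (h23 : motive 2 3) (i j : Fin 4)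
    (hij : i < j) : motive i j := by
  induction i using fa4 <;> induction j using fa4 <;>
    first | assumption | exact absurd hij (by decide)

theorem valE (s J x y z : ℂ) :
    val s J x y z 0 true = -4 * (z * -(x + y + z)) + (s + 1 + J) ^ 2 * (y * -(x + y + z)) + (s + 1 - J) ^ 2 * (y * z) ∧
    val s J x y z 1 true = 4 * (z * -(x + y + z)) - (s - 1 + J) ^ 2 * (x * -(x + y + z)) - (s - 1 - J) ^ 2 * (x * z) ∧
    val s J x y z 2 true = -(s + 1 + J) ^ 2 * (y * -(x + y + z)) + (s - 1 + J) ^ 2 * (x * -(x + y + z)) - 2 * J * s ^ 2 * (x * y) ∧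
    val s J x y z 3 true = -(s + 1 - J) ^ 2 * (y * z) + (s - 1 - J) ^ 2 * (x * z) + 2 * J * s ^ 2 * (x * y) ∧
    val s J x y z 0 false = x ∧
    val s J x y z 1 false = y ∧
    val s J x y z 2 false = z ∧
    val s J x y z 3 false = -(x + y + z) :=
  ⟨rfl, rfl, rfl, rfl, rfl, rfl, rfl, rfl⟩

theorem grE (s J x y z : ℂ) :
    gr s J x y z 0 true 0 = 4 * z - (s + 1 + J) ^ 2 * y ∧
    gr s J x y z 0 true 1 = 4 * z - (s + 1 + J) ^ 2 * (x + 2 * y + z) + (s + 1 - J) ^ 2 * z ∧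
    gr s J x y z 0 true 2 = 4 * (x + y + 2 * z) - (s + 1 + J) ^ 2 * y + (s + 1 - J) ^ 2 * y ∧
    gr s J x y z 1 true 0 = -4 * z + (s - 1 + J) ^ 2 * (2 * x + y + z) - (s - 1 - J) ^ 2 * z ∧
    gr s J x y z 1 true 1 = -4 * z + (s - 1 + J) ^ 2 * x ∧
    gr s J x y z 1 true 2 = -4 * (x + y + 2 * z) + (s - 1 + J) ^ 2 * x - (s - 1 - J) ^ 2 * x ∧
    gr s J x y z 2 true 0 = (s + 1 + J) ^ 2 * y - (s - 1 + J) ^ 2 * (2 * x + y + z) - 2 * J * s ^ 2 * y ∧
    gr s J x y z 2 true 1 = (s + 1 + J) ^ 2 * (x + 2 * y + z) - (s - 1 + J) ^ 2 * x - 2 * J * s ^ 2 * x ∧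
    gr s J x y z 2 true 2 = (s + 1 + J) ^ 2 * y - (s - 1 + J) ^ 2 * x ∧
    gr s J x y z 3 true 0 = (s - 1 - J) ^ 2 * z + 2 * J * s ^ 2 * y ∧
    gr s J x y z 3 true 1 = -(s + 1 - J) ^ 2 * z + 2 * J * s ^ 2 * x ∧
    gr s J x y z 3 true 2 = -(s + 1 - J) ^ 2 * y + (s - 1 - J) ^ 2 * x ∧
    gr s J x y z 0 false 0 = 1 ∧
    gr s J x y z 0 false 1 = 0 ∧
    gr s J x y z 0 false 2 = 0 ∧
    gr s J x y z 1 false 0 = 0 ∧
    gr s J x y z 1 false 1 = 1 ∧
    gr s J x y z 1 false 2 = 0 ∧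
    gr s J x y z 2 false 0 = 0 ∧
    gr s J x y z 2 false 1 = 0 ∧
    gr s J x y z 2 false 2 = 1 ∧
    gr s J x y z 3 false 0 = -1 ∧
    gr s J x y z 3 false 1 = -1 ∧
    gr s J x y z 3 false 2 = -1 :=
  ⟨rfl, rfl, rfl, rfl, rfl, rfl, rfl, rfl, rfl, rfl, rfl, rfl, rfl, rfl, rfl, rfl, rfl, rfl, rfl, rfl, rfl, rfl, rfl, rfl⟩

theorem incE  :
    inc 0 0 = true ∧
    inc 0 1 = true ∧
    inc 0 2 = false ∧
    inc 0 3 = false ∧
    inc 1 0 = true ∧
    inc 1 1 = true ∧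
    inc 1 2 = true ∧
    inc 1 3 = true ∧
    inc 2 0 = true ∧
    inc 2 1 = true ∧
    inc 2 2 = true ∧
    inc 2 3 = true ∧
    inc 3 0 = true ∧
    inc 3 1 = true ∧
    inc 3 2 = true ∧
    inc 3 3 = true ∧
    inc 4 0 = false ∧
    inc 4 1 = false ∧
    inc 4 2 = true ∧
    inc 4 3 = true ∧
    inc 5 0 = true ∧
    inc 5 1 = false ∧
    inc 5 2 = false ∧
    inc 5 3 = true ∧
    inc 6 0 = true ∧
    inc 6 1 = false ∧
    inc 6 2 = true ∧
    inc 6 3 = false ∧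
    inc 7 0 = false ∧
    inc 7 1 = true ∧
    inc 7 2 = false ∧
    inc 7 3 = true ∧
    inc 8 0 = false ∧
    inc 8 1 = true ∧
    inc 8 2 = true ∧
    inc 8 3 = false :=
  ⟨rfl, rfl, rfl, rfl, rfl, rfl, rfl, rfl, rfl, rfl, rfl, rfl, rfl, rfl, rfl, rfl, rfl, rfl, rfl, rfl, rfl, rfl, rfl, rfl, rfl, rfl, rfl, rfl, rfl, rfl, rfl, rfl, rfl, rfl, rfl, rfl⟩

theorem KKE (s J : ℂ) :
    KK s J (0, true) = C (-4) * (LL 2 * LL 3) + C ((s + 1 + J) ^ 2) * (LL 1 * LL 3) + C ((s + 1 - J) ^ 2) * (LL 1 * LL 2) ∧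
    KK s J (1, true) = C 4 * (LL 2 * LL 3) + C (-(s - 1 + J) ^ 2) * (LL 0 * LL 3) + C (-(s - 1 - J) ^ 2) * (LL 0 * LL 2) ∧
    KK s J (2, true) = C (-(s + 1 + J) ^ 2) * (LL 1 * LL 3) + C ((s - 1 + J) ^ 2) * (LL 0 * LL 3) + C (-2 * J * s ^ 2) * (LL 0 * LL 1) ∧
    KK s J (3, true) = C (-(s + 1 - J) ^ 2) * (LL 1 * LL 2) + C ((s - 1 - J) ^ 2) * (LL 0 * LL 2) + C (2 * J * s ^ 2) * (LL 0 * LL 1) ∧
    KK s J (0, false) = LL 0 ∧
    KK s J (1, false) = LL 1 ∧
    KK s J (2, false) = LL 2 ∧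
    KK s J (3, false) = LL 3 :=
  ⟨rfl, rfl, rfl, rfl, rfl, rfl, rfl, rfl⟩

theorem eval_LL (v : Fin 3 → ℂ) : eval v (LL 0) = v 0 ∧ eval v (LL 1) = v 1 ∧
    eval v (LL 2) = v 2 ∧ eval v (LL 3) = -(v 0 + v 1 + v 2) := by
  simp [LL]

theorem grad_LL (v : Fin 3 → ℂ) :
    eval v (pderiv 0 (LL 0)) = 1 ∧
    eval v (pderiv 1 (LL 0)) = 0 ∧
    eval v (pderiv 2 (LL 0)) = 0 ∧
    eval v (pderiv 0 (LL 1)) = 0 ∧
    eval v (pderiv 1 (LL 1)) = 1 ∧
    eval v (pderiv 2 (LL 1)) = 0 ∧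
    eval v (pderiv 0 (LL 2)) = 0 ∧
    eval v (pderiv 1 (LL 2)) = 0 ∧
    eval v (pderiv 2 (LL 2)) = 1 ∧
    eval v (pderiv 0 (LL 3)) = -1 ∧
    eval v (pderiv 1 (LL 3)) = -1 ∧
    eval v (pderiv 2 (LL 3)) = -1 := by
  simp [LL, pderiv_X]

theorem grad_three (v : Fin 3 → ℂ) (j : Fin 3) (a b c : ℂ) (p q p' q' p'' q'' : MvPolynomial (Fin 3) ℂ) :
    eval v (pderiv j (C a * (p * q) + C b * (p' * q') + C c * (p'' * q''))) =
      a * (eval v (pderiv j p) * eval v q + eval v p * eval v (pderiv j q)) +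
      b * (eval v (pderiv j p') * eval v q' + eval v p' * eval v (pderiv j q')) +
      c * (eval v (pderiv j p'') * eval v q'' + eval v p'' * eval v (pderiv j q'')) := by
  simp only [map_add, pderiv_mul, map_mul, eval_C, pderiv_C, zero_mul, zero_add]

theorem eval_KK (s J : ℂ) (v : Fin 3 → ℂ) (i : Fin 4) (b : Bool) :
    eval v (KK s J (i, b)) = val s J (v 0) (v 1) (v 2) i b := by
  induction i using fa4 <;> cases b <;>
    simp only [KKE, valE, map_add, map_mul, eval_C, eval_LL] <;> ring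

theorem grad_KK (s J : ℂ) (v : Fin 3 → ℂ) (i : Fin 4) (b : Bool) :
    grad (KK s J (i, b)) v = gr s J (v 0) (v 1) (v 2) i b := by
  funext j
  unfold grad
  induction i using fa4 <;> cases b <;> induction j using fa3 <;>
    simp only [KKE, grE, grad_three, eval_LL, grad_LL] <;> ring

theorem KK_hom (s J : ℂ) (c : Fin 4 × Bool) : ∃ d, (KK s J c).IsHomogeneous d := by
  obtain ⟨i, b⟩ := c
  cases b
  · exact ⟨1, LL_hom i⟩
  · exact ⟨2, CC_hom s J i⟩

theorem on_mk {g : MvPolynomial (Fin 3) ℂ} {d : ℕ} (hg : g.IsHomogeneous d) {v : Fin 3 → ℂ}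
    (hv : v ≠ 0) : On g (mk ℂ v hv) ↔ eval v g = 0 := by
  obtain ⟨a, ha⟩ := exists_smul_eq_mk_rep ℂ v hv
  unfold On
  rw [← ha, Units.smul_def, eval_smul_of_isHomogeneous hg]
  simp

theorem grad_smul {g : MvPolynomial (Fin 3) ℂ} {d : ℕ} (hg : g.IsHomogeneous d) (c : ℂ)
    (v : Fin 3 → ℂ) : grad g (c • v) = c ^ (d - 1) • grad g v := by
  funext j
  exact eval_smul_of_isHomogeneous hg.pderiv c v

theorem li_iff (a b : Fin 3 → ℂ) : LinearIndependent ℂ ![a, b] ↔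
    ¬ (a 1 * b 2 - a 2 * b 1 = 0 ∧ a 2 * b 0 - a 0 * b 2 = 0 ∧ a 0 * b 1 - a 1 * b 0 = 0) := by
  rw [← crossProduct_ne_zero_iff_linearIndependent, cross_apply, not_iff_not]
  constructor
  · intro h
    exact ⟨congrFun h 0, congrFun h 1, congrFun h 2⟩
  · rintro ⟨h0, h1, h2⟩
    funext i
    fin_cases i <;> assumption

theorem li_mk {g g' : MvPolynomial (Fin 3) ℂ} {d d' : ℕ} (hg : g.IsHomogeneous d)
    (hg' : g'.IsHomogeneous d') {v : Fin 3 → ℂ} (hv : v ≠ 0) :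
    LinearIndependent ℂ ![grad g (mk ℂ v hv).rep, grad g' (mk ℂ v hv).rep] ↔
      LinearIndependent ℂ ![grad g v, grad g' v] := by
  obtain ⟨a, ha⟩ := exists_smul_eq_mk_rep ℂ v hv
  rw [← ha, Units.smul_def, grad_smul hg, grad_smul hg', li_iff, li_iff, not_iff_not]
  have h1 : (a : ℂ) ^ (d - 1) * (a : ℂ) ^ (d' - 1) ≠ 0 := by simp
  simp only [Pi.smul_apply, smul_eq_mul]
  constructor
  · rintro ⟨h0, h2, h3⟩
    exact ⟨mul_left_cancel₀ h1 (by linear_combination h0), mul_left_cancel₀ h1 (by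
      linear_combination h2), mul_left_cancel₀ h1 (by linear_combination h3)⟩
  · rintro ⟨h0, h2, h3⟩
    exact ⟨by linear_combination ((a : ℂ) ^ (d - 1) * (a : ℂ) ^ (d' - 1)) * h0,
      by linear_combination ((a : ℂ) ^ (d - 1) * (a : ℂ) ^ (d' - 1)) * h2,
      by linear_combination ((a : ℂ) ^ (d - 1) * (a : ℂ) ^ (d' - 1)) * h3⟩

/-- The tangency points. -/
def TT (s J : ℂ) : Fin 4 → Fin 3 → ℂ :=
  ![![0, 2 * J, -(s + 1 + J)], ![2, 0, J * (s - 1 + J)], ![J * (s + 1 + J), -(s - 1 + J), 0],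
    ![J * (s + 1 - J), s - 1 - J, -((1 + J) * s)]]

/-- The quadruple points. -/
def QQ (s J : ℂ) : Fin 9 → Fin 3 → ℂ :=
  ![![1, -1, 0],
    ![(s + 1 + J) * (s + 1 - J), -((s - 1 + J) * (s - 1 - J)), J * ((s + 1 + J) * (s - 1 + J))],
    ![(1 + J) * (s + 1 - J), (1 + J) * (s - 1 + J), J * s * (s - 1 + J)],
    ![(1 - J) * (s + 1 + J), (1 - J) * (s - 1 - J), J * s * (s + 1 + J)],
    ![0, 0, 1], ![1, 0, 0], ![1, 0, -1], ![0, 1, 0], ![0, 1, -1]]

theorem TTE (s J : ℂ) :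
    TT s J 0 0 = 0 ∧
    TT s J 0 1 = 2 * J ∧
    TT s J 0 2 = -(s + 1 + J) ∧
    TT s J 1 0 = 2 ∧
    TT s J 1 1 = 0 ∧
    TT s J 1 2 = J * (s - 1 + J) ∧
    TT s J 2 0 = J * (s + 1 + J) ∧
    TT s J 2 1 = -(s - 1 + J) ∧
    TT s J 2 2 = 0 ∧
    TT s J 3 0 = J * (s + 1 - J) ∧
    TT s J 3 1 = s - 1 - J ∧
    TT s J 3 2 = -((1 + J) * s) :=
  ⟨rfl, rfl, rfl, rfl, rfl, rfl, rfl, rfl, rfl, rfl, rfl, rfl⟩

theorem QQE (s J : ℂ) :
    QQ s J 0 0 = 1 ∧
    QQ s J 0 1 = -1 ∧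
    QQ s J 0 2 = 0 ∧
    QQ s J 1 0 = (s + 1 + J) * (s + 1 - J) ∧
    QQ s J 1 1 = -((s - 1 + J) * (s - 1 - J)) ∧
    QQ s J 1 2 = J * ((s + 1 + J) * (s - 1 + J)) ∧
    QQ s J 2 0 = (1 + J) * (s + 1 - J) ∧
    QQ s J 2 1 = (1 + J) * (s - 1 + J) ∧
    QQ s J 2 2 = J * s * (s - 1 + J) ∧
    QQ s J 3 0 = (1 - J) * (s + 1 + J) ∧
    QQ s J 3 1 = (1 - J) * (s - 1 - J) ∧
    QQ s J 3 2 = J * s * (s + 1 + J) ∧
    QQ s J 4 0 = 0 ∧
    QQ s J 4 1 = 0 ∧
    QQ s J 4 2 = 1 ∧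
    QQ s J 5 0 = 1 ∧
    QQ s J 5 1 = 0 ∧
    QQ s J 5 2 = 0 ∧
    QQ s J 6 0 = 1 ∧
    QQ s J 6 1 = 0 ∧
    QQ s J 6 2 = -1 ∧
    QQ s J 7 0 = 0 ∧
    QQ s J 7 1 = 1 ∧
    QQ s J 7 2 = 0 ∧
    QQ s J 8 0 = 0 ∧
    QQ s J 8 1 = 1 ∧
    QQ s J 8 2 = -1 :=
  ⟨rfl, rfl, rfl, rfl, rfl, rfl, rfl, rfl, rfl, rfl, rfl, rfl, rfl, rfl, rfl, rfl, rfl, rfl, rfl, rfl, rfl, rfl, rfl, rfl, rfl, rfl, rfl⟩

variable {s J : ℂ}

theorem nzc (h : Good s J) (u v : ℂ) (huv : u ^ 2 + v ^ 2 ≠ 0) (a b c d e : ℕ) :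
    (u + v * J) * s ^ a * (s + 1 + J) ^ b * (s + 1 - J) ^ c * (s - 1 + J) ^ d * (s - 1 - J) ^ e
      ≠ 0 :=
  mul_ne_zero (mul_ne_zero (mul_ne_zero (mul_ne_zero (mul_ne_zero
    (fun e => huv (by linear_combination (u - v * J) * e + v ^ 2 * h.hJ)) (pow_ne_zero _ h.h0))
    (pow_ne_zero _ h.hA)) (pow_ne_zero _ h.hB)) (pow_ne_zero _ h.hC)) (pow_ne_zero _ h.hD)

theorem par_cancel {l m a b c d : ℂ} (hl : l ≠ 0) (hm : m ≠ 0)
    (e : l * a * (m * b) - l * c * (m * d) = 0) : a * b - c * d = 0 :=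
  mul_left_cancel₀ (mul_ne_zero hl hm) (by linear_combination e)

theorem TT_ne (h : Good s J) (i : Fin 4) : TT s J i ≠ 0 := by
  intro e
  induction i using fa4
  · exact h.hA (neg_eq_zero.1 (congrFun e 2))
  · exact two_ne_zero (congrFun e 0)
  · exact h.hC (neg_eq_zero.1 (congrFun e 1))
  · exact h.hD (congrFun e 1)

theorem QQ_ne (h : Good s J) (k : Fin 9) : QQ s J k ≠ 0 := by
  have hJ0 : J ≠ 0 := by
    rintro rfl
    have := h.hJ
    norm_num at this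
  intro e
  induction k using fa9
  · exact one_ne_zero (congrFun e 0)
  · exact mul_ne_zero h.hA h.hB (congrFun e 0)
  · exact mul_ne_zero (mul_ne_zero hJ0 h.h0) h.hC (congrFun e 2)
  · exact mul_ne_zero (mul_ne_zero hJ0 h.h0) h.hA (congrFun e 2)
  · exact one_ne_zero (congrFun e 2)
  · exact one_ne_zero (congrFun e 0)
  · exact one_ne_zero (congrFun e 0)
  · exact one_ne_zero (congrFun e 1)
  · exact one_ne_zero (congrFun e 1)

theorem val_TT (h : Good s J) (i j : Fin 4) (b : Bool) :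
    val s J (TT s J i 0) (TT s J i 1) (TT s J i 2) j b = 0 ↔ j = i := by
  have hJ := h.hJ
  induction i using fa4 <;> induction j using fa4 <;> cases b <;>
    simp only [valE, TTE, Fin.reduceEq, iff_true, iff_false]
  · linear_combination ((4) + (-4) * J ^ 2 + (8) * s + (4) * s ^ 2) * hJ
  · exact fun e => nzc h (0) (2) (by norm_num) 0 0 0 0 0 (by linear_combination e)
  · exact fun e => nzc h (-4) (0) (by norm_num) 0 1 1 0 0 (by linear_combination e)
  · exact fun e => nzc h (-1) (0) (by norm_num) 0 1 0 0 0 (by linear_combination e)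
  · exact fun e => nzc h (0) (-2) (by norm_num) 0 2 1 0 0 (by linear_combination e)
  · exact fun e => nzc h (1) (0) (by norm_num) 0 0 1 0 0 (by linear_combination e)
  · exact fun e => nzc h (0) (2) (by norm_num) 0 1 2 0 0 (by linear_combination e)
  · exact fun e => nzc h (2) (0) (by norm_num) 0 0 0 0 0 (by linear_combination e)
  · exact fun e => nzc h (-4) (0) (by norm_num) 0 0 0 1 1 (by linear_combination e + ((-4) + (8) * J + (-4) * J ^ 2 + (8) * s + (-8) * s * J + (-4) * s ^ 2) * hJ)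
  · linear_combination ((4) + (-4) * J ^ 2 + (-8) * s + (4) * s ^ 2) * hJ
  · exact fun e => nzc h (0) (1) (by norm_num) 0 0 0 1 0 (by linear_combination e)
  · exact fun e => nzc h (0) (-2) (by norm_num) 0 0 0 2 1 (by linear_combination e + ((4) + (-8) * J + (4) * J ^ 2 + (-8) * s + (8) * s * J + (4) * s ^ 2) * hJ)
  · exact fun e => nzc h (0) (-1) (by norm_num) 0 0 0 0 1 (by linear_combination e + ((2)) * hJ)
  · exact fun e => nzc h (0) (2) (by norm_num) 0 0 0 1 2 (by linear_combination e)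
  · exact fun e => nzc h (0) (1) (by norm_num) 0 1 0 0 0 (by linear_combination e)
  · exact fun e => nzc h (-1) (1) (by norm_num) 1 2 0 1 0 (by linear_combination e + ((1) + J + (-1) * J ^ 2 + (-1) * J ^ 3 + s + (-2) * s * J + (-3) * s * J ^ 2 + (-1) * s ^ 2 + (-3) * s ^ 2 * J + (-1) * s ^ 3) * hJ)
  · exact fun e => nzc h (-1) (0) (by norm_num) 0 0 0 1 0 (by linear_combination e)
  · exact fun e => nzc h (-1) (-1) (by norm_num) 1 1 0 2 0 (by linear_combination e + ((-1) * J + J ^ 2 + J ^ 3 + (-1) * J ^ 4 + (-1) * s + (2) * s * J + (3) * s * J ^ 2 + (-4) * s * J ^ 3 + s ^ 2 + (3) * s ^ 2 * J + (-6) * s ^ 2 * J ^ 2 + s ^ 3 + (-4) * s ^ 3 * J + (-1) * s ^ 4) * hJ)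
  · linear_combination ((1) + (-1) * J ^ 4 + (-4) * s * J ^ 3 + (-2) * s ^ 2 + (-4) * s ^ 2 * J ^ 2 + s ^ 4) * hJ
  · exact fun e => nzc h (1) (-1) (by norm_num) 1 0 0 0 0 (by linear_combination e + ((1)) * hJ)
  · exact fun e => nzc h (2) (0) (by norm_num) 2 1 0 1 0 (by linear_combination e + ((-2) * s ^ 2 + (2) * s ^ 2 * J ^ 2 + (4) * s ^ 3 * J + (2) * s ^ 4) * hJ)
  · exact fun e => nzc h (0) (1) (by norm_num) 0 0 1 0 0 (by linear_combination e)
  · exact fun e => nzc h (-1) (-1) (by norm_num) 1 0 2 0 1 (by linear_combination e + ((1) + (3) * J + (3) * J ^ 2 + J ^ 3 + (-3) * s + (-2) * s * J + s * J ^ 2 + (-1) * s ^ 2 + (-1) * s ^ 2 * J + (-1) * s ^ 3) * hJ)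
  · exact fun e => nzc h (1) (0) (by norm_num) 0 0 0 0 1 (by linear_combination e)
  · exact fun e => nzc h (-1) (1) (by norm_num) 1 0 1 0 2 (by linear_combination e + (J + (-3) * J ^ 2 + (3) * J ^ 3 + (-1) * J ^ 4 + (3) * s + (2) * s * J + (3) * s * J ^ 2 + s ^ 2 + (-3) * s ^ 2 * J + (-2) * s ^ 2 * J ^ 2 + s ^ 3 + (4) * s ^ 3 * J + (-1) * s ^ 4) * hJ)
  · exact fun e => nzc h (-1) (-1) (by norm_num) 1 0 0 0 0 (by linear_combination e)
  · exact fun e => nzc h (2) (0) (by norm_num) 2 0 1 0 1 (by linear_combination e + ((-1) + (-4) * J + (-4) * J ^ 3 + J ^ 4 + (-1) * s + (-1) * s * J + (-3) * s * J ^ 2 + s * J ^ 3 + (-1) * s ^ 2 + (2) * s ^ 2 * J + s ^ 2 * J ^ 2 + s ^ 3 + (-5) * s ^ 3 * J + (2) * s ^ 4) * hJ)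
  · linear_combination ((1)) * hJ
  · linear_combination ((-1) * s + (-1) * s * J + s * J ^ 2 + s * J ^ 3 + (-1) * s ^ 2 + (-2) * s ^ 2 * J + (-1) * s ^ 2 * J ^ 2 + s ^ 3 + (-1) * s ^ 3 * J + s ^ 4) * hJ

theorem val_QQ (h : Good s J) (k : Fin 9) (j : Fin 4) (b : Bool) :
    val s J (QQ s J k 0) (QQ s J k 1) (QQ s J k 2) j b = 0 ↔ b = inc k j := by
  have hJ := h.hJ
  induction k using fa9 <;> induction j using fa4 <;> cases b <;>
    simp only [valE, QQE, incE, Bool.true_eq_false, Bool.false_eq_true, iff_true, iff_false]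
  · exact fun e => nzc h (1) (0) (by norm_num) 0 0 0 0 0 (by linear_combination e)
  · ring
  · exact fun e => nzc h (-1) (0) (by norm_num) 0 0 0 0 0 (by linear_combination e)
  · ring
  · exact fun e => nzc h (0) (2) (by norm_num) 2 0 0 0 0 (by linear_combination e)
  · ring
  · exact fun e => nzc h (0) (-2) (by norm_num) 2 0 0 0 0 (by linear_combination e)
  · exact fun e => nzc h (1) (0) (by norm_num) 0 1 1 0 0 (by linear_combination e)
  · linear_combination ((4) * s + (-8) * s * J + (8) * s * J ^ 3 + (-4) * s * J ^ 4 + (-8) * s ^ 2 * J + (16) * s ^ 2 * J ^ 2 + (-8) * s ^ 2 * J ^ 3 + (-8) * s ^ 3 + (8) * s ^ 3 * J + (8) * s ^ 4 * J + (4) * s ^ 5) * hJ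
  · exact fun e => nzc h (-1) (0) (by norm_num) 0 0 0 1 1 (by linear_combination e)
  · linear_combination ((4) * s + (8) * s * J + (-8) * s * J ^ 3 + (-4) * s * J ^ 4 + (-8) * s ^ 2 * J + (-16) * s ^ 2 * J ^ 2 + (-8) * s ^ 2 * J ^ 3 + (-8) * s ^ 3 + (-8) * s ^ 3 * J + (8) * s ^ 4 * J + (4) * s ^ 5) * hJ
  · exact fun e => nzc h (0) (1) (by norm_num) 0 1 0 1 0 (by linear_combination e)
  · linear_combination ((2) * J + (-4) * J ^ 3 + (2) * J ^ 5 + (-8) * s + (8) * s * J ^ 4 + (12) * s ^ 2 * J + (12) * s ^ 2 * J ^ 3 + (16) * s ^ 3 + (-14) * s ^ 4 * J + (-8) * s ^ 5) * hJ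
  · exact fun e => nzc h (0) (-1) (by norm_num) 0 0 1 0 1 (by linear_combination e + ((4) * s) * hJ)
  · linear_combination ((-2) * J + (4) * J ^ 3 + (-2) * J ^ 5 + (4) * s ^ 2 * J + (4) * s ^ 2 * J ^ 3 + (-2) * s ^ 4 * J) * hJ
  · exact fun e => nzc h (1) (1) (by norm_num) 0 0 1 0 0 (by linear_combination e)
  · linear_combination ((2) * s + (6) * s * J + (-2) * s * J ^ 2 + (-6) * s * J ^ 3 + (2) * s ^ 2 + (-8) * s ^ 2 * J + (-6) * s ^ 2 * J ^ 2 + (-4) * s ^ 2 * J ^ 3 + (-2) * s ^ 3 + (-2) * s ^ 3 * J + (-8) * s ^ 3 * J ^ 2 + (-2) * s ^ 4 + (-4) * s ^ 4 * J) * hJ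
  · exact fun e => nzc h (1) (1) (by norm_num) 0 0 0 1 0 (by linear_combination e)
  · linear_combination ((2) * s + (-2) * s * J + (-2) * s * J ^ 2 + (2) * s * J ^ 3 + (-2) * s ^ 2 + (8) * s ^ 2 * J + (-2) * s ^ 2 * J ^ 2 + (-4) * s ^ 2 * J ^ 3 + (-2) * s ^ 3 + (-10) * s ^ 3 * J + (2) * s ^ 4 + (4) * s ^ 4 * J) * hJ
  · exact fun e => nzc h (0) (1) (by norm_num) 1 0 0 1 0 (by linear_combination e)
  · linear_combination ((-4) * s + (-2) * s * J + (2) * s * J ^ 2 + (2) * s * J ^ 3 + (2) * s * J ^ 4 + (8) * s ^ 2 * J ^ 2 + (8) * s ^ 2 * J ^ 3 + (4) * s ^ 3 + (10) * s ^ 3 * J + (6) * s ^ 3 * J ^ 2) * hJ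
  · exact fun e => nzc h (0) (-1) (by norm_num) 1 0 1 0 0 (by linear_combination e + ((2) * s) * hJ)
  · linear_combination ((-2) * s * J + (2) * s * J ^ 2 + (2) * s * J ^ 3 + (-2) * s * J ^ 4 + (2) * s ^ 3 * J + (2) * s ^ 3 * J ^ 2) * hJ
  · exact fun e => nzc h (1) (-1) (by norm_num) 0 1 0 0 0 (by linear_combination e)
  · linear_combination ((2) * s + (2) * s * J + (-2) * s * J ^ 2 + (-2) * s * J ^ 3 + (2) * s ^ 2 + (8) * s ^ 2 * J + (2) * s ^ 2 * J ^ 2 + (-4) * s ^ 2 * J ^ 3 + (-2) * s ^ 3 + (10) * s ^ 3 * J + (-2) * s ^ 4 + (4) * s ^ 4 * J) * hJ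
  · exact fun e => nzc h (1) (-1) (by norm_num) 0 0 0 0 1 (by linear_combination e)
  · linear_combination ((2) * s + (-6) * s * J + (-2) * s * J ^ 2 + (6) * s * J ^ 3 + (-2) * s ^ 2 + (-8) * s ^ 2 * J + (6) * s ^ 2 * J ^ 2 + (-4) * s ^ 2 * J ^ 3 + (-2) * s ^ 3 + (2) * s ^ 3 * J + (-8) * s ^ 3 * J ^ 2 + (2) * s ^ 4 + (-4) * s ^ 4 * J) * hJ
  · exact fun e => nzc h (0) (1) (by norm_num) 1 1 0 0 0 (by linear_combination e)
  · linear_combination ((-4) * s + (2) * s * J + (2) * s * J ^ 2 + (-2) * s * J ^ 3 + (2) * s * J ^ 4 + (-8) * s ^ 2 * J ^ 2 + (8) * s ^ 2 * J ^ 3 + (4) * s ^ 3 + (-10) * s ^ 3 * J + (6) * s ^ 3 * J ^ 2) * hJ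
  · exact fun e => nzc h (0) (-1) (by norm_num) 1 0 0 0 1 (by linear_combination e + ((2) * s) * hJ)
  · linear_combination ((2) * s * J + (2) * s * J ^ 2 + (-2) * s * J ^ 3 + (-2) * s * J ^ 4 + (-2) * s ^ 3 * J + (2) * s ^ 3 * J ^ 2) * hJ
  · exact fun e => nzc h (4) (0) (by norm_num) 0 0 0 0 0 (by linear_combination e)
  · exact fun e => nzc h (-4) (0) (by norm_num) 0 0 0 0 0 (by linear_combination e)
  · exact fun e => nzc h (1) (0) (by norm_num) 0 0 0 0 0 (by linear_combination e)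
  · ring
  · exact fun e => nzc h (-1) (0) (by norm_num) 0 0 0 0 0 (by linear_combination e)
  · ring
  · exact fun e => nzc h (1) (0) (by norm_num) 0 0 0 0 0 (by linear_combination e)
  · ring
  · exact fun e => nzc h (1) (0) (by norm_num) 0 0 0 2 0 (by linear_combination e)
  · exact fun e => nzc h (-1) (0) (by norm_num) 0 0 0 2 0 (by linear_combination e)
  · exact fun e => nzc h (-1) (0) (by norm_num) 0 0 0 0 0 (by linear_combination e)
  · ring
  · exact fun e => nzc h (1) (0) (by norm_num) 0 0 0 0 0 (by linear_combination e)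
  · ring
  · exact fun e => nzc h (1) (0) (by norm_num) 0 0 0 0 2 (by linear_combination e)
  · exact fun e => nzc h (-1) (0) (by norm_num) 0 0 0 0 0 (by linear_combination e)
  · ring
  · ring
  · exact fun e => nzc h (-1) (0) (by norm_num) 0 0 0 0 2 (by linear_combination e)
  · exact fun e => nzc h (-1) (0) (by norm_num) 0 2 0 0 0 (by linear_combination e)
  · exact fun e => nzc h (1) (0) (by norm_num) 0 0 0 0 0 (by linear_combination e)
  · ring
  · exact fun e => nzc h (1) (0) (by norm_num) 0 2 0 0 0 (by linear_combination e)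
  · exact fun e => nzc h (-1) (0) (by norm_num) 0 0 0 0 0 (by linear_combination e)
  · ring
  · exact fun e => nzc h (-1) (0) (by norm_num) 0 0 2 0 0 (by linear_combination e)
  · exact fun e => nzc h (1) (0) (by norm_num) 0 0 0 0 0 (by linear_combination e)
  · ring
  · exact fun e => nzc h (-1) (0) (by norm_num) 0 0 0 0 0 (by linear_combination e)
  · ring
  · ring
  · exact fun e => nzc h (1) (0) (by norm_num) 0 0 2 0 0 (by linear_combination e)

theorem tri {a b c u v w : ℂ} (ha : a ≠ 0) (hb : b ≠ 0) (hc : c ≠ 0) (h1 : b * w + c * v = 0)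
    (h2 : a * w + c * u = 0) (h3 : a * v + b * u = 0) : u = 0 ∧ v = 0 ∧ w = 0 :=
  ⟨mul_left_cancel₀ (mul_ne_zero hb hc)
      (by linear_combination (-a / 2) * h1 + (b / 2) * h2 + (c / 2) * h3),
    mul_left_cancel₀ (mul_ne_zero ha hc)
      (by linear_combination (a / 2) * h1 - (b / 2) * h2 + (c / 2) * h3),
    mul_left_cancel₀ (mul_ne_zero ha hb)
      (by linear_combination (a / 2) * h1 + (b / 2) * h2 - (c / 2) * h3)⟩

theorem smooth_gr (h : Good s J) {x y z : ℂ} (i : Fin 4) (b : Bool)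
    (e : gr s J x y z i b = 0) : x = 0 ∧ y = 0 ∧ z = 0 := by
  obtain ⟨hJ, h0, hA, hB, hC, hD⟩ := h
  have e0 := congrFun e 0
  have e1 := congrFun e 1
  have e2 := congrFun e 2
  have hJ0 : J ≠ 0 := by
    rintro rfl
    norm_num at hJ
  have hs : J * s ^ 2 ≠ 0 := mul_ne_zero hJ0 (pow_ne_zero 2 h0)
  cases b
  · induction i using fa4
    · exact absurd e0 one_ne_zero
    · exact absurd e1 one_ne_zero
    · exact absurd e2 one_ne_zero
    · exact absurd (neg_eq_zero.1 e0) one_ne_zero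
  induction i using fa4 <;> simp only [grE, Pi.zero_apply] at e0 e1 e2
  · have := tri (a := -4) (u := y) (v := z) (w := -(x + y + z)) (by norm_num) (pow_ne_zero 2 hA)
      (pow_ne_zero 2 hB) (by linear_combination e1 - e0) (by linear_combination e2 - e0)
      (by linear_combination -e0)
    exact ⟨by linear_combination -this.1 - this.2.1 - this.2.2, this.1, this.2.1⟩
  · have := tri (a := 4) (u := x) (v := z) (w := -(x + y + z)) (by norm_num)
      (neg_ne_zero.2 (pow_ne_zero 2 hC)) (neg_ne_zero.2 (pow_ne_zero 2 hD))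
      (by linear_combination e0 - e1) (by linear_combination e2 - e1) (by linear_combination -e1)
    exact ⟨this.1, by linear_combination -this.1 - this.2.1 - this.2.2, this.2.1⟩
  · have := tri (u := x) (v := y) (w := -(x + y + z)) (neg_ne_zero.2 (pow_ne_zero 2 hA))
      (pow_ne_zero 2 hC) (mul_ne_zero (a := -2) (by norm_num) hs)
      (by linear_combination e0 - e2) (by linear_combination e1 - e2) (by linear_combination -e2)
    exact ⟨this.1, this.2.1, by linear_combination -this.1 - this.2.1 - this.2.2⟩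
  · exact tri (neg_ne_zero.2 (pow_ne_zero 2 hB)) (pow_ne_zero 2 hD) (mul_ne_zero two_ne_zero hs)
      (by linear_combination e0) (by linear_combination e1) (by linear_combination e2)

theorem tangent_TT (h : Good s J) (i : Fin 4) : ¬ LinearIndependent ℂ
    ![gr s J (TT s J i 0) (TT s J i 1) (TT s J i 2) i false,
      gr s J (TT s J i 0) (TT s J i 1) (TT s J i 2) i true] := by
  have hJ := h.hJ
  rw [li_iff, not_not]
  induction i using fa4 <;> simp only [grE, TTE]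
  · exact ⟨by ring,
      by linear_combination ((8) + (8) * s) * hJ,
      by linear_combination ((-4) + (-4) * J + (-4) * s) * hJ⟩
  · exact ⟨by linear_combination ((-8)) * hJ,
      by ring,
      by linear_combination ((-4) + (4) * J + (8) * s + (-4) * s * J + (-4) * s ^ 2) * hJ⟩
  · exact ⟨by linear_combination ((-2) + (-2) * J + (-2) * s + (2) * s ^ 2 + (2) * s ^ 2 * J + (2) * s ^ 3) * hJ,
      by linear_combination ((2) * J + (-2) * J ^ 2 + (4) * s + (-6) * s * J + (-4) * s ^ 2) * hJ,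
      by ring⟩
  · exact ⟨by linear_combination ((-1) + J ^ 2 + (-2) * s * J + (3) * s ^ 2 + (-2) * s ^ 2 * J + (2) * s ^ 3) * hJ,
      by linear_combination ((1) + (-1) * J ^ 2 + (2) * s + (4) * s * J + (-3) * s ^ 2) * hJ,
      by linear_combination ((-2) * s + (-2) * s * J + (2) * s ^ 2 * J + (-2) * s ^ 3) * hJ⟩

/-- Two vectors are proportional. -/
def Par (a b : Fin 3 → ℂ) : Prop :=
  a 1 * b 2 - a 2 * b 1 = 0 ∧ a 2 * b 0 - a 0 * b 2 = 0 ∧ a 0 * b 1 - a 1 * b 0 = 0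

theorem nz (h : Good s J) (u v : ℤ) (huv : u ^ 2 + v ^ 2 ≠ 0) (a b c d e : ℕ) :
    (u + v * J) * s ^ a * (s + 1 + J) ^ b * (s + 1 - J) ^ c * (s - 1 + J) ^ d * (s - 1 - J) ^ e
      ≠ 0 := by
  obtain ⟨hJ, h0, hA, hB, hC, hD⟩ := h
  have : (u + v * J : ℂ) ≠ 0 := fun e => huv (by
    have : ((u ^ 2 + v ^ 2 : ℤ) : ℂ) = 0 := by
      push_cast
      linear_combination (u - v * J) * e + v ^ 2 * hJ
    exact_mod_cast this)
  simp [*]

set_option linter.unusedSimpArgs false in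
theorem transversal_0 (h : Good s J) (i j : Fin 4) (hij : i < j) : ¬ Par
    (gr s J (QQ s J 0 0) (QQ s J 0 1) (QQ s J 0 2) i (inc 0 i))
    (gr s J (QQ s J 0 0) (QQ s J 0 1) (QQ s J 0 2) j (inc 0 j)) := by
  have hJ := h.hJ
  refine lt4 (motive := fun i j => ¬ Par
    (gr s J (QQ s J 0 0) (QQ s J 0 1) (QQ s J 0 2) i (inc 0 i))
    (gr s J (QQ s J 0 0) (QQ s J 0 1) (QQ s J 0 2) j (inc 0 j))) ?_ ?_ ?_ ?_ ?_ ?_ i j hij <;>
    rintro ⟨h0, h1, h2⟩
  · refine nz h (0) (8) (by decide) 2 0 0 0 0 ?_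
    simp only [incE, grE, QQE] at h0
    push_cast
    linear_combination h0 + ((8) * J ^ 1) * hJ
  · refine nz h (1) (0) (by decide) 0 2 0 0 0 ?_
    simp only [incE, grE, QQE] at h0
    push_cast
    linear_combination h0 + (0) * hJ
  · refine nz h (-1) (0) (by decide) 0 0 2 0 0 ?_
    simp only [incE, grE, QQE] at h0
    push_cast
    linear_combination h0 + (0) * hJ
  · refine nz h (1) (0) (by decide) 0 0 0 2 0 ?_
    simp only [incE, grE, QQE] at h0
    push_cast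
    linear_combination h0 + (0) * hJ
  · refine nz h (-1) (0) (by decide) 0 0 0 0 2 ?_
    simp only [incE, grE, QQE] at h0
    push_cast
    linear_combination h0 + (0) * hJ
  · refine nz h (1) (0) (by decide) 0 0 0 0 0 ?_
    simp only [incE, grE, QQE] at h0
    push_cast
    linear_combination h0 + (0) * hJ

theorem grQ1 (hJ : J ^ 2 = -1) :
    gr s J (QQ s J 1 0) (QQ s J 1 1) (QQ s J 1 2) 0 true 0 =
      (s + 1 + J) * (s + 1 - J) * (((1)) * (s - 1 + J) ^ 2) ∧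
    gr s J (QQ s J 1 0) (QQ s J 1 1) (QQ s J 1 2) 0 true 1 =
      (s + 1 + J) * (s + 1 - J) * (((-3) + J + s) * (s + 1 + J)) ∧
    gr s J (QQ s J 1 0) (QQ s J 1 1) (QQ s J 1 2) 0 true 2 =
      (s + 1 + J) * (s + 1 - J) * (((-4) * J + (4) * s * J)) ∧
    gr s J (QQ s J 1 0) (QQ s J 1 1) (QQ s J 1 2) 1 true 0 =
      (s - 1 + J) * (s - 1 - J) * (((3) + J + s) * (s - 1 + J)) ∧
    gr s J (QQ s J 1 0) (QQ s J 1 1) (QQ s J 1 2) 1 true 1 =
      (s - 1 + J) * (s - 1 - J) * (((1)) * (s + 1 + J) ^ 2) ∧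
    gr s J (QQ s J 1 0) (QQ s J 1 1) (QQ s J 1 2) 1 true 2 =
      (s - 1 + J) * (s - 1 - J) * (((4) * J + (4) * s * J)) ∧
    gr s J (QQ s J 1 0) (QQ s J 1 1) (QQ s J 1 2) 2 true 0 =
      (s + 1 + J) * (s - 1 + J) * (((1) + J + (-2) * s + s * J) * (s - 1 + J)) ∧
    gr s J (QQ s J 1 0) (QQ s J 1 1) (QQ s J 1 2) 2 true 1 =
      (s + 1 + J) * (s - 1 + J) * (((-1) + J + (-2) * s + (-1) * s * J) * (s + 1 + J)) ∧
    gr s J (QQ s J 1 0) (QQ s J 1 1) (QQ s J 1 2) 2 true 2 =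
      (s + 1 + J) * (s - 1 + J) * (((-2)) * s ^ 2) ∧
    gr s J (QQ s J 1 0) (QQ s J 1 1) (QQ s J 1 2) 3 true 0 =
      (s + 1 - J) * (s - 1 - J) * (((-1) * J) * (s - 1 + J) ^ 2) ∧
    gr s J (QQ s J 1 0) (QQ s J 1 1) (QQ s J 1 2) 3 true 1 =
      (s + 1 - J) * (s - 1 - J) * ((J) * (s + 1 + J) ^ 2) ∧
    gr s J (QQ s J 1 0) (QQ s J 1 1) (QQ s J 1 2) 3 true 2 =
      (s + 1 - J) * (s - 1 - J) * (((2)) * s ^ 2) := by
  simp only [grE, QQE]
  refine ⟨?_, ?_, ?_, ?_, ?_, ?_, ?_, ?_, ?_, ?_, ?_, ?_⟩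
  · ring
  · linear_combination ((4) + (-4) * J ^ 2 + (4) * s + (-8) * s * J + (-4) * s * J ^ 2 + (-4) * s ^ 2 + (-8) * s ^ 2 * J + (-4) * s ^ 3) * hJ
  · linear_combination ((16) * s) * hJ
  · linear_combination ((4) + (-4) * J ^ 2 + (-4) * s + (-8) * s * J + (4) * s * J ^ 2 + (-4) * s ^ 2 + (8) * s ^ 2 * J + (4) * s ^ 3) * hJ
  · ring
  · linear_combination ((-16) * s) * hJ
  · linear_combination ((-3) + J + (3) * J ^ 2 + (-1) * J ^ 3 + (-1) * s + (10) * s * J + (-5) * s * J ^ 2 + (11) * s ^ 2 + (-11) * s ^ 2 * J + (-7) * s ^ 3) * hJ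
  · linear_combination ((-3) + (-1) * J + (3) * J ^ 2 + J ^ 3 + s + (10) * s * J + (5) * s * J ^ 2 + (11) * s ^ 2 + (11) * s ^ 2 * J + (7) * s ^ 3) * hJ
  · linear_combination ((-2) + (2) * J ^ 2 + (4) * s * J + (2) * s ^ 2) * hJ
  · linear_combination ((-2) * J + (2) * J ^ 3 + (4) * s * J + (-2) * s ^ 2 * J) * hJ
  · linear_combination ((2) * J + (-2) * J ^ 3 + (4) * s * J + (2) * s ^ 2 * J) * hJ
  · linear_combination ((2) + (-2) * J ^ 2 + (4) * s * J + (-2) * s ^ 2) * hJ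

set_option linter.unusedSimpArgs false in
theorem transversal_1 (h : Good s J) (i j : Fin 4) (hij : i < j) : ¬ Par
    (gr s J (QQ s J 1 0) (QQ s J 1 1) (QQ s J 1 2) i (inc 1 i))
    (gr s J (QQ s J 1 0) (QQ s J 1 1) (QQ s J 1 2) j (inc 1 j)) := by
  have hJ := h.hJ
  refine lt4 (motive := fun i j => ¬ Par
    (gr s J (QQ s J 1 0) (QQ s J 1 1) (QQ s J 1 2) i (inc 1 i))
    (gr s J (QQ s J 1 0) (QQ s J 1 1) (QQ s J 1 2) j (inc 1 j))) ?_ ?_ ?_ ?_ ?_ ?_ i j hij <;>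
    rintro ⟨h0, h1, h2⟩
  · simp only [incE, grQ1 hJ] at h0
    have e := par_cancel (mul_ne_zero h.hA h.hB) (mul_ne_zero h.hC h.hD) h0
    exact nzc h (0) (-8) (by norm_num) 0 1 1 0 0 (by linear_combination e)
  · simp only [incE, grQ1 hJ] at h0
    have e := par_cancel (mul_ne_zero h.hA h.hB) (mul_ne_zero h.hA h.hC) h0
    exact nzc h (-2) (0) (by norm_num) 0 1 1 0 2 (by linear_combination e + ((-2) + (2) * J ^ 2 + (4) * s * J + (-2) * s ^ 2 + (-4) * s ^ 2 * J + (-4) * s ^ 3) * hJ)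
  · simp only [incE, grQ1 hJ] at h2
    have e := par_cancel (mul_ne_zero h.hA h.hB) (mul_ne_zero h.hB h.hD) h2
    exact nzc h (0) (2) (by norm_num) 0 1 0 3 0 (by linear_combination e)
  · simp only [incE, grQ1 hJ] at h1
    have e := par_cancel (mul_ne_zero h.hC h.hD) (mul_ne_zero h.hA h.hC) h1
    exact nzc h (2) (0) (by norm_num) 0 0 2 1 1 (by linear_combination e + ((2) + (-2) * J ^ 2 + (-4) * s * J + (2) * s ^ 2 + (-4) * s ^ 2 * J + (-4) * s ^ 3) * hJ)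
  · simp only [incE, grQ1 hJ] at h2
    have e := par_cancel (mul_ne_zero h.hC h.hD) (mul_ne_zero h.hB h.hD) h2
    exact nzc h (0) (2) (by norm_num) 0 3 0 1 0 (by linear_combination e)
  · simp only [incE, grQ1 hJ] at h0
    have e := par_cancel (mul_ne_zero h.hA h.hC) (mul_ne_zero h.hB h.hD) h0
    exact nzc h (-4) (0) (by norm_num) 2 1 1 0 0 (by linear_combination e + ((-2) * s ^ 2 + (-2) * s ^ 2 * J + (-2) * s ^ 3) * hJ)

theorem grQ2 (hJ : J ^ 2 = -1) :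
    gr s J (QQ s J 2 0) (QQ s J 2 1) (QQ s J 2 2) 0 true 0 =
      (s + 1 - J) * (((-1) + (-1) * J) * (s - 1 + J) ^ 2) ∧
    gr s J (QQ s J 2 0) (QQ s J 2 1) (QQ s J 2 2) 0 true 1 =
      (s + 1 - J) * (((2) * J + s + (-3) * s * J) * (s + 1 + J)) ∧
    gr s J (QQ s J 2 0) (QQ s J 2 1) (QQ s J 2 2) 0 true 2 =
      (s + 1 - J) * (((-4) + (4) * J + (4) * s + (4) * s * J)) ∧
    gr s J (QQ s J 2 0) (QQ s J 2 1) (QQ s J 2 2) 1 true 0 =
      (s - 1 + J) * (((2) + (-1) * s + (3) * s * J) * (s - 1 + J)) ∧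
    gr s J (QQ s J 2 0) (QQ s J 2 1) (QQ s J 2 2) 1 true 1 =
      (s - 1 + J) * (((1) + J) * (s - 1 - J) ^ 2) ∧
    gr s J (QQ s J 2 0) (QQ s J 2 1) (QQ s J 2 2) 1 true 2 =
      (s - 1 + J) * (((-4) + (4) * J + (-4) * s + (-4) * s * J)) ∧
    gr s J (QQ s J 2 0) (QQ s J 2 1) (QQ s J 2 2) 2 true 0 =
      s * (s - 1 + J) * (((1) + (-3) * J + (-1) * s * J) * (s - 1 + J)) ∧
    gr s J (QQ s J 2 0) (QQ s J 2 1) (QQ s J 2 2) 2 true 1 =
      s * (s - 1 + J) * (((3) + J + s * J) * (s + 1 + J)) ∧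
    gr s J (QQ s J 2 0) (QQ s J 2 1) (QQ s J 2 2) 2 true 2 =
      s * (s - 1 + J) * (((4) * J)) ∧
    gr s J (QQ s J 2 0) (QQ s J 2 1) (QQ s J 2 2) 3 true 0 =
      s * (s + 1 - J) * ((J) * (s - 1 + J) ^ 2) ∧
    gr s J (QQ s J 2 0) (QQ s J 2 1) (QQ s J 2 2) 3 true 1 =
      s * (s + 1 - J) * (((-1) * J) * (s - 1 - J) ^ 2) ∧
    gr s J (QQ s J 2 0) (QQ s J 2 1) (QQ s J 2 2) 3 true 2 =
      s * (s + 1 - J) * (((-4) * J)) := by
  simp only [grE, QQE]
  refine ⟨?_, ?_, ?_, ?_, ?_, ?_, ?_, ?_, ?_, ?_, ?_, ?_⟩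
  · linear_combination ((2) + (-2) * J ^ 2 + (-4) * s * J + (-2) * s ^ 2) * hJ
  · linear_combination ((1) + (-1) * J ^ 2 + (-2) * s + (-12) * s * J + (-7) * s ^ 2 + (-4) * s ^ 2 * J + (-4) * s ^ 3) * hJ
  · linear_combination ((4) + (-4) * J + (8) * s + (-4) * s * J + (-4) * s ^ 2) * hJ
  · linear_combination ((-1) + (2) * J + (-1) * J ^ 2 + (6) * s + (-6) * s * J + (-9) * s ^ 2 + (4) * s ^ 2 * J + (4) * s ^ 3) * hJ
  · linear_combination ((2) + (-2) * J ^ 2 + (-4) * s + (2) * s ^ 2) * hJ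
  · linear_combination ((-4) + (4) * J + (-8) * s + (-4) * s * J + (4) * s ^ 2) * hJ
  · linear_combination ((-2) + (2) * J ^ 2 + (-3) * s + (8) * s * J + (-1) * s * J ^ 2 + (8) * s ^ 2 + (-4) * s ^ 2 * J + (-3) * s ^ 3) * hJ
  · linear_combination ((-2) + (2) * J ^ 2 + (5) * s + (6) * s * J + s * J ^ 2 + (6) * s ^ 2 + (4) * s ^ 2 * J + (-1) * s ^ 3) * hJ
  · linear_combination ((-2) + (2) * J ^ 2 + (4) * s * J + (2) * s ^ 2) * hJ
  · linear_combination ((-2) * s * J + (2) * s * J ^ 2 + (2) * s ^ 2 * J) * hJ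
  · linear_combination ((2) * s * J + (-2) * s * J ^ 2 + (2) * s ^ 2 * J) * hJ
  · linear_combination ((2) + (-2) * J ^ 2 + (4) * s * J + (-2) * s ^ 2) * hJ

set_option linter.unusedSimpArgs false in
theorem transversal_2 (h : Good s J) (i j : Fin 4) (hij : i < j) : ¬ Par
    (gr s J (QQ s J 2 0) (QQ s J 2 1) (QQ s J 2 2) i (inc 2 i))
    (gr s J (QQ s J 2 0) (QQ s J 2 1) (QQ s J 2 2) j (inc 2 j)) := by
  have hJ := h.hJ
  refine lt4 (motive := fun i j => ¬ Par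
    (gr s J (QQ s J 2 0) (QQ s J 2 1) (QQ s J 2 2) i (inc 2 i))
    (gr s J (QQ s J 2 0) (QQ s J 2 1) (QQ s J 2 2) j (inc 2 j))) ?_ ?_ ?_ ?_ ?_ ?_ i j hij <;>
    rintro ⟨h0, h1, h2⟩
  · simp only [incE, grQ2 hJ] at h0
    have e := par_cancel h.hB h.hC h0
    exact nzc h (-16) (0) (by norm_num) 2 0 1 0 0 (by linear_combination e + ((-4) + (4) * J ^ 2 + (16) * s + (28) * s * J + (4) * s * J ^ 2 + (-20) * s ^ 2 + (-20) * s ^ 2 * J + (-8) * s ^ 3) * hJ)
  · simp only [incE, grQ2 hJ] at h1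
    have e := par_cancel h.hB (mul_ne_zero h.h0 h.hC) h1
    exact nzc h (4) (-4) (by norm_num) 0 2 0 1 0 (by linear_combination e + ((-8) + (16) * J + (-8) * J ^ 2 + (4) * s + (-4) * s * J + (4) * s ^ 2 * J + (4) * s ^ 3) * hJ)
  · simp only [incE, grQ2 hJ] at h0
    have e := par_cancel h.hB (mul_ne_zero h.h0 h.hB) h0
    exact nzc h (-4) (4) (by norm_num) 0 0 1 2 0 (by linear_combination e + ((-4) + (20) * J + (-8) * J ^ 2 + (4) * s + (-20) * s * J + (-4) * s * J ^ 2 + (4) * s ^ 2 + (8) * s ^ 2 * J + (-4) * s ^ 3) * hJ)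
  · simp only [incE, grQ2 hJ] at h1
    have e := par_cancel h.hC (mul_ne_zero h.h0 h.hC) h1
    exact nzc h (-4) (4) (by norm_num) 0 0 2 1 0 (by linear_combination e + ((-4) * J + (4) * J ^ 2 + (4) * s + (-4) * s ^ 2 * J + (-4) * s ^ 3) * hJ)
  · simp only [incE, grQ2 hJ] at h0
    have e := par_cancel h.hC (mul_ne_zero h.h0 h.hB) h0
    exact nzc h (4) (-4) (by norm_num) 0 0 1 0 2 (by linear_combination e + ((4) + (8) * J + (4) * J ^ 2 + (-4) * s + (4) * s * J ^ 2 + (-4) * s ^ 2 + (-8) * s ^ 2 * J + (4) * s ^ 3) * hJ)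
  · simp only [incE, grQ2 hJ] at h0
    have e := par_cancel (mul_ne_zero h.h0 h.hC) (mul_ne_zero h.h0 h.hB) h0
    exact nzc h (16) (0) (by norm_num) 0 0 1 0 0 (by linear_combination e + ((16) + (-4) * J + (-4) * J ^ 2 + (16) * s + (12) * s * J) * hJ)

theorem grQ3 (hJ : J ^ 2 = -1) :
    gr s J (QQ s J 3 0) (QQ s J 3 1) (QQ s J 3 2) 0 true 0 =
      (s + 1 + J) * (((-1) + J) * (s + 1 - J) ^ 2) ∧
    gr s J (QQ s J 3 0) (QQ s J 3 1) (QQ s J 3 2) 0 true 1 =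
      (s + 1 + J) * (((2) + s + (3) * s * J) * (s + 1 + J)) ∧
    gr s J (QQ s J 3 0) (QQ s J 3 1) (QQ s J 3 2) 0 true 2 =
      (s + 1 + J) * (((4) + (4) * J + (-4) * s + (4) * s * J)) ∧
    gr s J (QQ s J 3 0) (QQ s J 3 1) (QQ s J 3 2) 1 true 0 =
      (s - 1 - J) * (((-2) * J + (-1) * s + (-3) * s * J) * (s - 1 + J)) ∧
    gr s J (QQ s J 3 0) (QQ s J 3 1) (QQ s J 3 2) 1 true 1 =
      (s - 1 - J) * (((1) + (-1) * J) * (s + 1 + J) ^ 2) ∧
    gr s J (QQ s J 3 0) (QQ s J 3 1) (QQ s J 3 2) 1 true 2 =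
      (s - 1 - J) * (((4) + (4) * J + (4) * s + (-4) * s * J)) ∧
    gr s J (QQ s J 3 0) (QQ s J 3 1) (QQ s J 3 2) 2 true 0 =
      s * (s + 1 + J) * (((-3) + J + (-1) * s * J) * (s - 1 + J)) ∧
    gr s J (QQ s J 3 0) (QQ s J 3 1) (QQ s J 3 2) 2 true 1 =
      s * (s + 1 + J) * (((-1) + (-3) * J + s * J) * (s + 1 + J)) ∧
    gr s J (QQ s J 3 0) (QQ s J 3 1) (QQ s J 3 2) 2 true 2 =
      s * (s + 1 + J) * (((-4) * J)) ∧
    gr s J (QQ s J 3 0) (QQ s J 3 1) (QQ s J 3 2) 3 true 0 =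
      s * (s - 1 - J) * ((J) * (s + 1 - J) ^ 2) ∧
    gr s J (QQ s J 3 0) (QQ s J 3 1) (QQ s J 3 2) 3 true 1 =
      s * (s - 1 - J) * (((-1) * J) * (s + 1 + J) ^ 2) ∧
    gr s J (QQ s J 3 0) (QQ s J 3 1) (QQ s J 3 2) 3 true 2 =
      s * (s - 1 - J) * (((4) * J)) := by
  simp only [grE, QQE]
  refine ⟨?_, ?_, ?_, ?_, ?_, ?_, ?_, ?_, ?_, ?_, ?_, ?_⟩
  · linear_combination ((2) + (-2) * J ^ 2 + (4) * s + (2) * s ^ 2) * hJ
  · linear_combination ((-1) + (-2) * J + (-1) * J ^ 2 + (-6) * s + (-6) * s * J + (-9) * s ^ 2 + (-4) * s ^ 2 * J + (-4) * s ^ 3) * hJ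
  · linear_combination ((-4) + (-4) * J + (8) * s + (-4) * s * J + (4) * s ^ 2) * hJ
  · linear_combination ((1) + (-1) * J ^ 2 + (2) * s + (-12) * s * J + (-7) * s ^ 2 + (4) * s ^ 2 * J + (4) * s ^ 3) * hJ
  · linear_combination ((2) + (-2) * J ^ 2 + (-4) * s * J + (-2) * s ^ 2) * hJ
  · linear_combination ((4) + (4) * J + (-8) * s + (-4) * s * J + (-4) * s ^ 2) * hJ
  · linear_combination ((-2) + (2) * J ^ 2 + (-5) * s + (6) * s * J + (-1) * s * J ^ 2 + (6) * s ^ 2 + (-4) * s ^ 2 * J + s ^ 3) * hJ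
  · linear_combination ((-2) + (2) * J ^ 2 + (3) * s + (8) * s * J + s * J ^ 2 + (8) * s ^ 2 + (4) * s ^ 2 * J + (3) * s ^ 3) * hJ
  · linear_combination ((-2) + (2) * J ^ 2 + (4) * s * J + (2) * s ^ 2) * hJ
  · linear_combination ((2) * s * J + (2) * s * J ^ 2 + (-2) * s ^ 2 * J) * hJ
  · linear_combination ((-2) * s * J + (-2) * s * J ^ 2 + (-2) * s ^ 2 * J) * hJ
  · linear_combination ((2) + (-2) * J ^ 2 + (4) * s * J + (-2) * s ^ 2) * hJ

set_option linter.unusedSimpArgs false in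
theorem transversal_3 (h : Good s J) (i j : Fin 4) (hij : i < j) : ¬ Par
    (gr s J (QQ s J 3 0) (QQ s J 3 1) (QQ s J 3 2) i (inc 3 i))
    (gr s J (QQ s J 3 0) (QQ s J 3 1) (QQ s J 3 2) j (inc 3 j)) := by
  have hJ := h.hJ
  refine lt4 (motive := fun i j => ¬ Par
    (gr s J (QQ s J 3 0) (QQ s J 3 1) (QQ s J 3 2) i (inc 3 i))
    (gr s J (QQ s J 3 0) (QQ s J 3 1) (QQ s J 3 2) j (inc 3 j))) ?_ ?_ ?_ ?_ ?_ ?_ i j hij <;>
    rintro ⟨h0, h1, h2⟩
  · simp only [incE, grQ3 hJ] at h1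
    have e := par_cancel h.hA h.hD h1
    exact nzc h (16) (0) (by norm_num) 2 0 0 0 1 (by linear_combination e + ((-4) + (4) * J ^ 2 + (-16) * s + (28) * s * J + (-4) * s * J ^ 2 + (-20) * s ^ 2 + (20) * s ^ 2 * J + (8) * s ^ 3) * hJ)
  · simp only [incE, grQ3 hJ] at h0
    have e := par_cancel h.hA (mul_ne_zero h.h0 h.hA) h0
    exact nzc h (4) (4) (by norm_num) 0 1 0 0 2 (by linear_combination e + ((4) * J + (4) * J ^ 2 + (-4) * s + (4) * s ^ 2 * J + (4) * s ^ 3) * hJ)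
  · simp only [incE, grQ3 hJ] at h1
    have e := par_cancel h.hA (mul_ne_zero h.h0 h.hD) h1
    exact nzc h (-4) (-4) (by norm_num) 0 0 2 0 1 (by linear_combination e + ((4) + (-8) * J + (4) * J ^ 2 + (4) * s + (-4) * s * J ^ 2 + (-4) * s ^ 2 + (8) * s ^ 2 * J + (-4) * s ^ 3) * hJ)
  · simp only [incE, grQ3 hJ] at h0
    have e := par_cancel h.hD (mul_ne_zero h.h0 h.hA) h0
    exact nzc h (-4) (-4) (by norm_num) 0 1 0 2 0 (by linear_combination e + ((-8) + (-16) * J + (-8) * J ^ 2 + (-4) * s + (-4) * s * J + (-4) * s ^ 2 * J + (-4) * s ^ 3) * hJ)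
  · simp only [incE, grQ3 hJ] at h0
    have e := par_cancel h.hD (mul_ne_zero h.h0 h.hD) h0
    exact nzc h (4) (4) (by norm_num) 0 3 0 0 0 (by linear_combination e + ((4) + (8) * J + (4) * J ^ 2 + (12) * s + (16) * s * J + (4) * s * J ^ 2 + (12) * s ^ 2 + (8) * s ^ 2 * J + (4) * s ^ 3) * hJ)
  · simp only [incE, grQ3 hJ] at h0
    have e := par_cancel (mul_ne_zero h.h0 h.hA) (mul_ne_zero h.h0 h.hD) h0
    exact nzc h (16) (0) (by norm_num) 0 1 0 0 0 (by linear_combination e + ((16) + (20) * J + (4) * J ^ 2 + (16) * s + (4) * s * J) * hJ)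

set_option linter.unusedSimpArgs false in
theorem transversal_4 (h : Good s J) (i j : Fin 4) (hij : i < j) : ¬ Par
    (gr s J (QQ s J 4 0) (QQ s J 4 1) (QQ s J 4 2) i (inc 4 i))
    (gr s J (QQ s J 4 0) (QQ s J 4 1) (QQ s J 4 2) j (inc 4 j)) := by
  have hJ := h.hJ
  refine lt4 (motive := fun i j => ¬ Par
    (gr s J (QQ s J 4 0) (QQ s J 4 1) (QQ s J 4 2) i (inc 4 i))
    (gr s J (QQ s J 4 0) (QQ s J 4 1) (QQ s J 4 2) j (inc 4 j))) ?_ ?_ ?_ ?_ ?_ ?_ i j hij <;>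
    rintro ⟨h0, h1, h2⟩
  · refine nz h (1) (0) (by decide) 0 0 0 0 0 ?_
    simp only [incE, grE, QQE] at h2
    push_cast
    linear_combination h2 + (0) * hJ
  · refine nz h (1) (0) (by decide) 0 2 0 0 0 ?_
    simp only [incE, grE, QQE] at h2
    push_cast
    linear_combination h2 + (0) * hJ
  · refine nz h (-1) (0) (by decide) 0 0 2 0 0 ?_
    simp only [incE, grE, QQE] at h2
    push_cast
    linear_combination h2 + (0) * hJ
  · refine nz h (1) (0) (by decide) 0 0 0 2 0 ?_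
    simp only [incE, grE, QQE] at h2
    push_cast
    linear_combination h2 + (0) * hJ
  · refine nz h (-1) (0) (by decide) 0 0 0 0 2 ?_
    simp only [incE, grE, QQE] at h2
    push_cast
    linear_combination h2 + (0) * hJ
  · refine nz h (0) (8) (by decide) 2 0 0 0 0 ?_
    simp only [incE, grE, QQE] at h2
    push_cast
    linear_combination h2 + ((8) * J ^ 1) * hJ

set_option linter.unusedSimpArgs false in
theorem transversal_5 (h : Good s J) (i j : Fin 4) (hij : i < j) : ¬ Par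
    (gr s J (QQ s J 5 0) (QQ s J 5 1) (QQ s J 5 2) i (inc 5 i))
    (gr s J (QQ s J 5 0) (QQ s J 5 1) (QQ s J 5 2) j (inc 5 j)) := by
  have hJ := h.hJ
  refine lt4 (motive := fun i j => ¬ Par
    (gr s J (QQ s J 5 0) (QQ s J 5 1) (QQ s J 5 2) i (inc 5 i))
    (gr s J (QQ s J 5 0) (QQ s J 5 1) (QQ s J 5 2) j (inc 5 j))) ?_ ?_ ?_ ?_ ?_ ?_ i j hij <;>
    rintro ⟨h0, h1, h2⟩
  · refine nz h (-4) (0) (by decide) 0 0 0 0 0 ?_
    simp only [incE, grE, QQE] at h0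
    push_cast
    linear_combination h0 + (0) * hJ
  · refine nz h (-1) (0) (by decide) 0 2 0 0 0 ?_
    simp only [incE, grE, QQE] at h0
    push_cast
    linear_combination h0 + (0) * hJ
  · refine nz h (-1) (0) (by decide) 0 0 2 2 0 ?_
    simp only [incE, grE, QQE] at h0
    push_cast
    linear_combination h0 + ((8) * J ^ 1) * hJ
  · refine nz h (1) (0) (by decide) 0 0 0 0 0 ?_
    simp only [incE, grE, QQE] at h0
    push_cast
    linear_combination h0 + (0) * hJ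
  · refine nz h (1) (0) (by decide) 0 0 0 0 2 ?_
    simp only [incE, grE, QQE] at h0
    push_cast
    linear_combination h0 + (0) * hJ
  · refine nz h (0) (-2) (by decide) 2 0 0 0 0 ?_
    simp only [incE, grE, QQE] at h0
    push_cast
    linear_combination h0 + (0) * hJ

set_option linter.unusedSimpArgs false in
theorem transversal_6 (h : Good s J) (i j : Fin 4) (hij : i < j) : ¬ Par
    (gr s J (QQ s J 6 0) (QQ s J 6 1) (QQ s J 6 2) i (inc 6 i))
    (gr s J (QQ s J 6 0) (QQ s J 6 1) (QQ s J 6 2) j (inc 6 j)) := by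
  have hJ := h.hJ
  refine lt4 (motive := fun i j => ¬ Par
    (gr s J (QQ s J 6 0) (QQ s J 6 1) (QQ s J 6 2) i (inc 6 i))
    (gr s J (QQ s J 6 0) (QQ s J 6 1) (QQ s J 6 2) j (inc 6 j))) ?_ ?_ ?_ ?_ ?_ ?_ i j hij <;>
    rintro ⟨h0, h1, h2⟩
  · refine nz h (4) (0) (by decide) 0 0 0 0 0 ?_
    simp only [incE, grE, QQE] at h0
    push_cast
    linear_combination h0 + (0) * hJ
  · refine nz h (1) (0) (by decide) 0 2 0 0 2 ?_
    simp only [incE, grE, QQE] at h0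
    push_cast
    linear_combination h0 + ((8) * J ^ 1) * hJ
  · refine nz h (1) (0) (by decide) 0 0 2 0 0 ?_
    simp only [incE, grE, QQE] at h0
    push_cast
    linear_combination h0 + (0) * hJ
  · refine nz h (-1) (0) (by decide) 0 0 0 2 0 ?_
    simp only [incE, grE, QQE] at h0
    push_cast
    linear_combination h0 + (0) * hJ
  · refine nz h (-1) (0) (by decide) 0 0 0 0 0 ?_
    simp only [incE, grE, QQE] at h0
    push_cast
    linear_combination h0 + (0) * hJ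
  · refine nz h (0) (2) (by decide) 2 0 0 0 0 ?_
    simp only [incE, grE, QQE] at h0
    push_cast
    linear_combination h0 + (0) * hJ

set_option linter.unusedSimpArgs false in
theorem transversal_7 (h : Good s J) (i j : Fin 4) (hij : i < j) : ¬ Par
    (gr s J (QQ s J 7 0) (QQ s J 7 1) (QQ s J 7 2) i (inc 7 i))
    (gr s J (QQ s J 7 0) (QQ s J 7 1) (QQ s J 7 2) j (inc 7 j)) := by
  have hJ := h.hJ
  refine lt4 (motive := fun i j => ¬ Par
    (gr s J (QQ s J 7 0) (QQ s J 7 1) (QQ s J 7 2) i (inc 7 i))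
    (gr s J (QQ s J 7 0) (QQ s J 7 1) (QQ s J 7 2) j (inc 7 j))) ?_ ?_ ?_ ?_ ?_ ?_ i j hij <;>
    rintro ⟨h0, h1, h2⟩
  · refine nz h (4) (0) (by decide) 0 0 0 0 0 ?_
    simp only [incE, grE, QQE] at h1
    push_cast
    linear_combination h1 + (0) * hJ
  · refine nz h (-1) (0) (by decide) 0 0 0 0 0 ?_
    simp only [incE, grE, QQE] at h1
    push_cast
    linear_combination h1 + (0) * hJ
  · refine nz h (1) (0) (by decide) 0 0 2 0 0 ?_
    simp only [incE, grE, QQE] at h1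
    push_cast
    linear_combination h1 + (0) * hJ
  · refine nz h (-1) (0) (by decide) 0 0 0 2 0 ?_
    simp only [incE, grE, QQE] at h1
    push_cast
    linear_combination h1 + (0) * hJ
  · refine nz h (1) (0) (by decide) 0 2 0 0 2 ?_
    simp only [incE, grE, QQE] at h1
    push_cast
    linear_combination h1 + ((8) * J ^ 1) * hJ
  · refine nz h (0) (2) (by decide) 2 0 0 0 0 ?_
    simp only [incE, grE, QQE] at h1
    push_cast
    linear_combination h1 + (0) * hJ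

set_option linter.unusedSimpArgs false in
theorem transversal_8 (h : Good s J) (i j : Fin 4) (hij : i < j) : ¬ Par
    (gr s J (QQ s J 8 0) (QQ s J 8 1) (QQ s J 8 2) i (inc 8 i))
    (gr s J (QQ s J 8 0) (QQ s J 8 1) (QQ s J 8 2) j (inc 8 j)) := by
  have hJ := h.hJ
  refine lt4 (motive := fun i j => ¬ Par
    (gr s J (QQ s J 8 0) (QQ s J 8 1) (QQ s J 8 2) i (inc 8 i))
    (gr s J (QQ s J 8 0) (QQ s J 8 1) (QQ s J 8 2) j (inc 8 j))) ?_ ?_ ?_ ?_ ?_ ?_ i j hij <;>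
    rintro ⟨h0, h1, h2⟩
  · refine nz h (-4) (0) (by decide) 0 0 0 0 0 ?_
    simp only [incE, grE, QQE] at h1
    push_cast
    linear_combination h1 + (0) * hJ
  · refine nz h (-1) (0) (by decide) 0 2 0 0 0 ?_
    simp only [incE, grE, QQE] at h1
    push_cast
    linear_combination h1 + (0) * hJ
  · refine nz h (1) (0) (by decide) 0 0 0 0 0 ?_
    simp only [incE, grE, QQE] at h1
    push_cast
    linear_combination h1 + (0) * hJ
  · refine nz h (-1) (0) (by decide) 0 0 2 2 0 ?_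
    simp only [incE, grE, QQE] at h1
    push_cast
    linear_combination h1 + ((8) * J ^ 1) * hJ
  · refine nz h (1) (0) (by decide) 0 0 0 0 2 ?_
    simp only [incE, grE, QQE] at h1
    push_cast
    linear_combination h1 + (0) * hJ
  · refine nz h (0) (-2) (by decide) 2 0 0 0 0 ?_
    simp only [incE, grE, QQE] at h1
    push_cast
    linear_combination h1 + (0) * hJ

theorem transversal (h : Good s J) (k : Fin 9) (i j : Fin 4) (hij : i < j) : LinearIndependent ℂ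
    ![gr s J (QQ s J k 0) (QQ s J k 1) (QQ s J k 2) i (inc k i),
      gr s J (QQ s J k 0) (QQ s J k 1) (QQ s J k 2) j (inc k j)] := by
  rw [li_iff]
  fin_cases k
  exacts [transversal_0 h i j hij, transversal_1 h i j hij, transversal_2 h i j hij,
    transversal_3 h i j hij, transversal_4 h i j hij, transversal_5 h i j hij,
    transversal_6 h i j hij, transversal_7 h i j hij, transversal_8 h i j hij]

theorem mk_eq_iff_par {a b : Fin 3 → ℂ} (ha : a ≠ 0) (hb : b ≠ 0) :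
    mk ℂ a ha = mk ℂ b hb ↔ Par a b := by
  have h := li_iff a b
  rw [← not_iff_not, not_not] at h
  unfold Par
  rw [← h, mk_eq_mk_iff', LinearIndependent.pair_symm_iff, LinearIndependent.pair_iff' hb]
  simp

theorem QQ_inj (h : Good s J) (k l : Fin 9) (hkl : k < l) : ¬ Par (QQ s J k) (QQ s J l) := by
  have hJ := h.hJ
  induction k using fa9 <;> induction l using fa9 <;>
    first | exact absurd hkl (by decide) | simp only [Par, QQE]
  · exact fun e => nzc h (4) (0) (by norm_num) 1 0 0 0 0 (by linear_combination e.2.2)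
  · exact fun e => nzc h (2) (2) (by norm_num) 1 0 0 0 0 (by linear_combination e.2.2)
  · exact fun e => nzc h (2) (-2) (by norm_num) 1 0 0 0 0 (by linear_combination e.2.2)
  · exact fun e => nzc h (-1) (0) (by norm_num) 0 0 0 0 0 (by linear_combination e.1)
  · exact fun e => nzc h (1) (0) (by norm_num) 0 0 0 0 0 (by linear_combination e.2.2)
  · exact fun e => nzc h (1) (0) (by norm_num) 0 0 0 0 0 (by linear_combination e.1)
  · exact fun e => nzc h (1) (0) (by norm_num) 0 0 0 0 0 (by linear_combination e.2.2)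
  · exact fun e => nzc h (1) (0) (by norm_num) 0 0 0 0 0 (by linear_combination e.1)
  · exact fun e => nzc h (2) (2) (by norm_num) 1 0 1 1 0 (by linear_combination e.2.2)
  · exact fun e => nzc h (2) (-2) (by norm_num) 1 1 0 0 1 (by linear_combination e.2.2)
  · exact fun e => nzc h (-1) (0) (by norm_num) 0 0 0 1 1 (by linear_combination e.1)
  · exact fun e => nzc h (0) (1) (by norm_num) 0 1 0 1 0 (by linear_combination e.2.1)
  · exact fun e => nzc h (1) (0) (by norm_num) 0 0 0 1 1 (by linear_combination e.1)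
  · exact fun e => nzc h (0) (-1) (by norm_num) 0 1 0 1 0 (by linear_combination e.1)
  · exact fun e => nzc h (1) (0) (by norm_num) 0 1 1 0 0 (by linear_combination e.2.1)
  · exact fun e => nzc h (0) (-8) (by norm_num) 1 0 0 0 0 (by linear_combination e.2.2 + ((-4) * s * J) * hJ)
  · exact fun e => nzc h (1) (1) (by norm_num) 0 0 0 1 0 (by linear_combination e.1)
  · exact fun e => nzc h (-1) (-1) (by norm_num) 0 0 0 1 0 (by linear_combination e.2.2)
  · exact fun e => nzc h (-1) (-1) (by norm_num) 0 0 0 1 0 (by linear_combination e.1)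
  · exact fun e => nzc h (1) (1) (by norm_num) 0 0 1 0 0 (by linear_combination e.2.2)
  · exact fun e => nzc h (1) (1) (by norm_num) 0 0 1 0 0 (by linear_combination e.2.1)
  · exact fun e => nzc h (1) (-1) (by norm_num) 0 0 0 0 1 (by linear_combination e.1)
  · exact fun e => nzc h (-1) (1) (by norm_num) 0 0 0 0 1 (by linear_combination e.2.2)
  · exact fun e => nzc h (-1) (1) (by norm_num) 0 0 0 0 1 (by linear_combination e.1)
  · exact fun e => nzc h (1) (-1) (by norm_num) 0 1 0 0 0 (by linear_combination e.2.2)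
  · exact fun e => nzc h (1) (-1) (by norm_num) 0 1 0 0 0 (by linear_combination e.2.1)
  · exact fun e => nzc h (1) (0) (by norm_num) 0 0 0 0 0 (by linear_combination e.2.1)
  · exact fun e => nzc h (1) (0) (by norm_num) 0 0 0 0 0 (by linear_combination e.2.1)
  · exact fun e => nzc h (-1) (0) (by norm_num) 0 0 0 0 0 (by linear_combination e.1)
  · exact fun e => nzc h (-1) (0) (by norm_num) 0 0 0 0 0 (by linear_combination e.1)
  · exact fun e => nzc h (1) (0) (by norm_num) 0 0 0 0 0 (by linear_combination e.2.1)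
  · exact fun e => nzc h (1) (0) (by norm_num) 0 0 0 0 0 (by linear_combination e.2.2)
  · exact fun e => nzc h (1) (0) (by norm_num) 0 0 0 0 0 (by linear_combination e.2.1)
  · exact fun e => nzc h (1) (0) (by norm_num) 0 0 0 0 0 (by linear_combination e.1)
  · exact fun e => nzc h (1) (0) (by norm_num) 0 0 0 0 0 (by linear_combination e.1)
  · exact fun e => nzc h (-1) (0) (by norm_num) 0 0 0 0 0 (by linear_combination e.1)

theorem TT_unique (h : Good s J) (i : Fin 4) (v : Fin 3 → ℂ)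
    (h1 : val s J (v 0) (v 1) (v 2) i false = 0) (h2 : val s J (v 0) (v 1) (v 2) i true = 0) :
    Par v (TT s J i) := by
  have hJ := h.hJ
  induction i using fa4 <;> simp only [valE] at h1 h2 <;> simp only [Par, TTE]
  · have t : (s + 1 - J) * v 2 - (s + 1 + J) * (v 1 + v 2) = 0 := pow_eq_zero_iff two_ne_zero |>.1 (by linear_combination ((-1)) * h2 + ((4) * v 2 + (-1) * v 1 + (-2) * J * v 1 + (-1) * J ^ 2 * v 1 + (-2) * s * v 1 + (-2) * s * J * v 1 + (-1) * s ^ 2 * v 1) * h1 + ((4) * v 2 ^ 2 + (4) * v 1 * v 2) * hJ)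
    exact ⟨by linear_combination ((1)) * t,
      by linear_combination ((1) + J + s) * h1,
      by linear_combination ((2) * J) * h1⟩
  · have t : (s - 1 - J) * v 2 - (s - 1 + J) * (v 0 + v 2) = 0 := pow_eq_zero_iff two_ne_zero |>.1 (by linear_combination ((1)) * h2 + ((4) * v 2 + (-1) * v 0 + (2) * J * v 0 + (-1) * J ^ 2 * v 0 + (2) * s * v 0 + (-2) * s * J * v 0 + (-1) * s ^ 2 * v 0) * h1 + ((4) * v 2 ^ 2 + (4) * v 0 * v 2) * hJ)
    exact ⟨by linear_combination ((-1) * J + J ^ 2 + s * J) * h1,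
      by linear_combination (J) * t + ((2) * v 2) * hJ,
      by linear_combination ((-2)) * h1⟩
  · have t : (s - 1 + J) * v 0 + J * (s + 1 + J) * v 1 = 0 := pow_eq_zero_iff two_ne_zero |>.1 (by linear_combination ((-1)) * h2 + (v 1 + (-1) * v 0 + (2) * J * v 1 + (2) * J * v 0 + J ^ 2 * v 1 + (-1) * J ^ 2 * v 0 + (2) * s * v 1 + (2) * s * v 0 + (2) * s * J * v 1 + (-2) * s * J * v 0 + s ^ 2 * v 1 + (-1) * s ^ 2 * v 0) * h1 + (v 1 ^ 2 + (2) * J * v 1 ^ 2 + (2) * J * v 0 * v 1 + J ^ 2 * v 1 ^ 2 + (2) * s * v 1 ^ 2 + (4) * s * v 0 * v 1 + (2) * s * J * v 1 ^ 2 + s ^ 2 * v 1 ^ 2) * hJ)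
    exact ⟨by linear_combination ((-1) + J + s) * h1,
      by linear_combination (J + J ^ 2 + s * J) * h1,
      by linear_combination ((-1)) * t⟩
  · have t : (s - 1 - J) * v 0 - J * (s + 1 - J) * v 1 = 0 := pow_eq_zero_iff two_ne_zero |>.1 (by linear_combination ((-1)) * h2 + (v 1 + (-1) * v 0 + (-2) * J * v 1 + (-2) * J * v 0 + J ^ 2 * v 1 + (-1) * J ^ 2 * v 0 + (2) * s * v 1 + (2) * s * v 0 + (-2) * s * J * v 1 + (2) * s * J * v 0 + s ^ 2 * v 1 + (-1) * s ^ 2 * v 0) * h1 + (v 1 ^ 2 + (-2) * J * v 1 ^ 2 + (-2) * J * v 0 * v 1 + J ^ 2 * v 1 ^ 2 + (2) * s * v 1 ^ 2 + (4) * s * v 0 * v 1 + (-2) * s * J * v 1 ^ 2 + s ^ 2 * v 1 ^ 2) * hJ)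
    exact ⟨by linear_combination ((1)) * t + ((-1) + (-1) * J + s) * h1 + ((-1) * v 1) * hJ,
      by linear_combination ((1)) * t + ((-1) * J + J ^ 2 + (-1) * s * J) * h1 + (v 0) * hJ,
      by linear_combination ((1)) * t⟩

/-- The four cubics. -/
def MM (s J x y z : ℂ) (i : Fin 4) : ℂ := val s J x y z i false * val s J x y z i true

theorem MM_two (hJ : J ^ 2 = -1) (x y z : ℂ) : -4 * MM s J x y z 2 =
    (s - 1 + J) ^ 2 * MM s J x y z 0 + (s + 1 + J) ^ 2 * MM s J x y z 1 := by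
  simp only [MM, valE]
  linear_combination ((8) * J * x * y * z) * hJ

theorem MM_three (hJ : J ^ 2 = -1) (x y z : ℂ) : -4 * MM s J x y z 3 =
    (s - 1 - J) ^ 2 * MM s J x y z 0 + (s + 1 - J) ^ 2 * MM s J x y z 1 := by
  simp only [MM, valE]
  linear_combination ((8) * J * x * y * z + (8) * J * x * y ^ 2 + (8) * J * x ^ 2 * y) * hJ

theorem base_of_two (h : Good s J) {x y z : ℂ} {i j : Fin 4} (hij : i ≠ j)
    (hi : MM s J x y z i = 0) (hj : MM s J x y z j = 0) :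
    MM s J x y z 0 = 0 ∧ MM s J x y z 1 = 0 := by
  have e2 := MM_two (s := s) h.hJ x y z
  have e3 := MM_three (s := s) h.hJ x y z
  have hs := nzc h 0 8 (by norm_num) 2 0 0 0 0
  obtain ⟨hJ, h0, hA, hB, hC, hD⟩ := h
  have key : MM s J x y z 2 = 0 → MM s J x y z 3 = 0 →
      MM s J x y z 0 = 0 ∧ MM s J x y z 1 = 0 := by
    intro a b
    rw [a] at e2
    rw [b] at e3
    generalize MM s J x y z 0 = m at e2 e3 ⊢
    generalize MM s J x y z 1 = n at e2 e3 ⊢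
    exact ⟨mul_left_cancel₀ hs (by
        linear_combination -(s + 1 - J) ^ 2 * e2 + (s + 1 + J) ^ 2 * e3 + ((8) * J * m) * hJ),
      mul_left_cancel₀ hs (by
        linear_combination (s - 1 - J) ^ 2 * e2 - (s - 1 + J) ^ 2 * e3 + ((8) * J * n) * hJ)⟩
  have k02 : MM s J x y z 0 = 0 → MM s J x y z 2 = 0 →
      MM s J x y z 0 = 0 ∧ MM s J x y z 1 = 0 := fun a b =>
    ⟨a, mul_left_cancel₀ (pow_ne_zero 2 hA) (by
      linear_combination -e2 - (s - 1 + J) ^ 2 * a - 4 * b)⟩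
  have k03 : MM s J x y z 0 = 0 → MM s J x y z 3 = 0 →
      MM s J x y z 0 = 0 ∧ MM s J x y z 1 = 0 := fun a b =>
    ⟨a, mul_left_cancel₀ (pow_ne_zero 2 hB) (by
      linear_combination -e3 - (s - 1 - J) ^ 2 * a - 4 * b)⟩
  have k12 : MM s J x y z 1 = 0 → MM s J x y z 2 = 0 →
      MM s J x y z 0 = 0 ∧ MM s J x y z 1 = 0 := fun a b =>
    ⟨mul_left_cancel₀ (pow_ne_zero 2 hC) (by
      linear_combination -e2 - (s + 1 + J) ^ 2 * a - 4 * b), a⟩
  have k13 : MM s J x y z 1 = 0 → MM s J x y z 3 = 0 →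
      MM s J x y z 0 = 0 ∧ MM s J x y z 1 = 0 := fun a b =>
    ⟨mul_left_cancel₀ (pow_ne_zero 2 hD) (by
      linear_combination -e3 - (s + 1 - J) ^ 2 * a - 4 * b), a⟩
  induction i using fa4 <;> induction j using fa4
  exacts [absurd rfl hij, ⟨hi, hj⟩, k02 hi hj, k03 hi hj, ⟨hj, hi⟩, absurd rfl hij, k12 hi hj,
    k13 hi hj, k02 hj hi, k12 hj hi, absurd rfl hij, key hi hj, k03 hj hi, k13 hj hi, key hj hi,
    absurd rfl hij]

theorem lift_par {q0 q1 q2 q3 x y z w a b : ℂ} (hq : q0 + q1 + q2 + q3 = 0)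
    (hs : w = -(x + y + z)) (hq2 : q2 ≠ 0) (hq3 : q3 ≠ 0) (hz : z ≠ 0) (e : z * q3 = w * q2)
    (cq : -4 * (q2 * q3) + a * (q1 * q3) + b * (q1 * q2) = 0)
    (c0 : -4 * (z * w) + a * (y * w) + b * (y * z) = 0) :
    y * q2 - z * q1 = 0 ∧ z * q0 - x * q2 = 0 ∧ x * q1 - y * q0 = 0 := by
  obtain ⟨t, rfl⟩ : ∃ t, z = t * q2 := ⟨z / q2, by field_simp⟩
  have ht : t ≠ 0 := left_ne_zero_of_mul hz
  have hw : w = t * q3 := mul_right_cancel₀ hq2 (by linear_combination -e)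
  have hK : a * q3 + b * q2 ≠ 0 := by
    intro h
    apply mul_ne_zero hq2 hq3
    linear_combination (-1 / 4) * cq + (1 / 4) * q1 * h
  have hy : y = t * q1 := by
    apply mul_left_cancel₀ (mul_ne_zero ht hK)
    rw [hw] at c0
    linear_combination c0 - t ^ 2 * cq
  have hx : x = t * q0 := by linear_combination hs - hw - hy - t * hq
  rw [hx, hy]
  refine ⟨by ring, by ring, by ring⟩

theorem base_points (h : Good s J) (v : Fin 3 → ℂ)
    (h1 : MM s J (v 0) (v 1) (v 2) 0 = 0) (h2 : MM s J (v 0) (v 1) (v 2) 1 = 0) :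
    ∃ k, Par v (QQ s J k) := by
  obtain ⟨hJ, h0, hA, hB, hC, hD⟩ := h
  simp only [MM, val, Matrix.cons_val_zero, Matrix.cons_val_one] at h1 h2
  obtain ⟨w, hw⟩ : ∃ w, w = -(v 0 + v 1 + v 2) := ⟨_, rfl⟩
  rw [← hw] at h1 h2
  by_cases hx : v 0 = 0
  · have : v 1 = 0 ∨ v 2 = 0 ∨ w = 0 := by grind
    rcases this with e | e | e
    · exact ⟨4, by simp [Par, QQ, hx, e]⟩
    · exact ⟨7, by simp [Par, QQ, hx, e]⟩
    · exact ⟨8, by simp [Par, QQ, hx]; grind⟩
  by_cases hy : v 1 = 0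
  · have : v 2 = 0 ∨ w = 0 := by grind
    rcases this with e | e
    · exact ⟨5, by simp [Par, QQ, hy, e]⟩
    · exact ⟨6, by simp [Par, QQ, hy]; grind⟩
  have c0 := (mul_eq_zero.1 h1).resolve_left hx
  have c1 := (mul_eq_zero.1 h2).resolve_left hy
  by_cases hz : v 2 = 0
  · have hw0 : w = 0 := by
      apply mul_left_cancel₀ (mul_ne_zero (pow_ne_zero 2 hA) hy)
      rw [hz] at c0
      linear_combination c0
    exact ⟨0, by simp [Par, QQ, hz]; linear_combination hw0 - hw + hz⟩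
  have hcub : ((s + 1 - J) * (s - 1 - J) * v 2 + (s + 1 + J) * (s - 1 + J) * w) *
      ((s + 1 - J) * v 2 + (s - 1 + J) * w) * ((s - 1 - J) * v 2 + (s + 1 + J) * w) = 0 := by
    have t : ∀ a b c d : ℂ, -4 * (v 2 * w) + a * (v 1 * w) + b * (v 1 * v 2) = 0 →
        4 * (v 2 * w) - c * (v 0 * w) - d * (v 0 * v 2) = 0 →
        (v 2 + w) * (a * w + b * v 2) * (c * w + d * v 2) +
          4 * v 2 * w * ((a * w + b * v 2) + (c * w + d * v 2)) = 0 := fun a b c d c0 c1 => by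
      linear_combination (a * w + b * v 2) * (c * w + d * v 2) * hw - (c * w + d * v 2) * c0 +
        (a * w + b * v 2) * c1
    linear_combination t _ _ _ _ c0 c1 + ((-12) * v 2 * w ^ 2 + (-12) * v 2 ^ 2 * w + (-4) * J ^ 2 * v 2 * w ^ 2 + (-4) * J ^ 2 * v 2 ^ 2 * w + (-8) * s * J * v 2 * w ^ 2 + (8) * s * J * v 2 ^ 2 * w + (-4) * s ^ 2 * v 2 * w ^ 2 + (-4) * s ^ 2 * v 2 ^ 2 * w) * hJ
  have hJ0 : J ≠ 0 := by rintro rfl; norm_num at hJ
  rcases mul_eq_zero.1 hcub with e | e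
  · rcases mul_eq_zero.1 e with e | e
    · refine ⟨1, lift_par (q3 := -(J * ((s + 1 - J) * (s - 1 - J)))) ?_ hw ?_ ?_ hz ?_ ?_ c0⟩
      all_goals try simp only [QQ, Matrix.cons_val_zero, Matrix.cons_val_one, Matrix.cons_val]
      · linear_combination ((4) * s) * hJ
      · exact mul_ne_zero hJ0 (mul_ne_zero hA hC)
      · exact neg_ne_zero.2 (mul_ne_zero hJ0 (mul_ne_zero hB hD))
      · linear_combination -J * e
      · ring
    · refine ⟨2, lift_par (q3 := -(J * s * (s + 1 - J))) ?_ hw ?_ ?_ hz ?_ ?_ c0⟩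
      all_goals try simp only [QQ, Matrix.cons_val_zero, Matrix.cons_val_one, Matrix.cons_val]
      · linear_combination ((2) * s) * hJ
      · exact mul_ne_zero (mul_ne_zero hJ0 h0) hC
      · exact neg_ne_zero.2 (mul_ne_zero (mul_ne_zero hJ0 h0) hB)
      · linear_combination -J * s * e
      · linear_combination ((2) * s * J + (-2) * s * J ^ 2 + (-2) * s * J ^ 3 + (2) * s * J ^ 4 + (2) * s ^ 2 * J + (-4) * s ^ 2 * J ^ 2 + (2) * s ^ 2 * J ^ 3 + (-2) * s ^ 3 * J + (-2) * s ^ 3 * J ^ 2 + (-2) * s ^ 4 * J) * hJ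
  · refine ⟨3, lift_par (q3 := -(J * s * (s - 1 - J))) ?_ hw ?_ ?_ hz ?_ ?_ c0⟩
    all_goals try simp only [QQ, Matrix.cons_val_zero, Matrix.cons_val_one, Matrix.cons_val]
    · linear_combination ((2) * s) * hJ
    · exact mul_ne_zero (mul_ne_zero hJ0 h0) hA
    · exact neg_ne_zero.2 (mul_ne_zero (mul_ne_zero hJ0 h0) hD)
    · linear_combination -J * s * e
    · linear_combination ((-2) * s * J + (-2) * s * J ^ 2 + (2) * s * J ^ 3 + (2) * s * J ^ 4 + (-2) * s ^ 2 * J + (-4) * s ^ 2 * J ^ 2 + (-2) * s ^ 2 * J ^ 3 + (2) * s ^ 3 * J + (-2) * s ^ 3 * J ^ 2 + (2) * s ^ 4 * J) * hJ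

theorem on_KK (c : Fin 4 × Bool) {v : Fin 3 → ℂ} (hv : v ≠ 0) :
    On (KK s J c) (mk ℂ v hv) ↔ val s J (v 0) (v 1) (v 2) c.1 c.2 = 0 := by
  obtain ⟨d, hd⟩ := KK_hom s J c
  rw [on_mk hd, ← eval_KK]

theorem isTypeW (h : Good s J) : IsTypeW (KK s J) := by
  refine ⟨fun i => ⟨LL_hom i, CC_hom s J i⟩, ?_, fun i => mk ℂ _ (TT_ne h i),
    fun k => mk ℂ _ (QQ_ne h k), ?_, ?_, ?_, ?_, ?_, ?_, ?_⟩
  · rintro ⟨i, b⟩ p - e
    rw [grad_KK] at e
    obtain ⟨a0, a1, a2⟩ := smooth_gr h i b e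
    apply p.rep_nonzero
    funext j
    fin_cases j <;> assumption
  · intro k l hkl
    by_contra hne
    rcases lt_or_gt_of_ne hne with e | e
    · exact QQ_inj h k l e ((mk_eq_iff_par _ _).1 hkl)
    · exact QQ_inj h l k e ((mk_eq_iff_par _ _).1 hkl.symm)
  · intro i c
    rw [on_KK, val_TT h]
  · intro i
    rw [li_mk (g := KK s J (i, false)) (g' := KK s J (i, true)) (LL_hom i) (CC_hom s J i)]
    have := tangent_TT h i
    rwa [← grad_KK, ← grad_KK] at this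
  · intro i p h1 h2
    rw [← mk_rep p] at h1 h2 ⊢
    rw [on_KK] at h1 h2
    exact (mk_eq_iff_par _ _).2 (TT_unique h i _ h1 h2)
  · intro k c
    rw [on_KK, val_QQ h]
  · rintro k ⟨i, b⟩ ⟨j, b'⟩ hne h1 h2
    rw [on_KK, val_QQ h] at h1 h2
    simp only at h1 h2
    subst h1 h2
    obtain ⟨d, hd⟩ := KK_hom s J (i, inc k i)
    obtain ⟨d', hd'⟩ := KK_hom s J (j, inc k j)
    rw [li_mk hd hd', grad_KK, grad_KK]
    have hij : i ≠ j := fun e => hne (by rw [e])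
    rcases lt_or_gt_of_ne hij with e | e
    · exact transversal h k i j e
    · exact LinearIndependent.pair_symm_iff.1 (transversal h k j i e)
  · rintro p ⟨i, b⟩ ⟨j, b'⟩ hne h1 h2
    rw [← mk_rep p] at h1 h2 ⊢
    rw [on_KK] at h1 h2
    simp only at h1 h2
    by_cases hij : i = j
    · subst hij
      left
      refine ⟨i, (mk_eq_iff_par _ _).2 ?_⟩
      cases b <;> cases b'
      · exact absurd rfl hne
      · exact TT_unique h i _ h1 h2
      · exact TT_unique h i _ h2 h1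
      · exact absurd rfl hne
    · right
      have m1 : MM s J (p.rep 0) (p.rep 1) (p.rep 2) i = 0 := by
        cases b <;> simp [MM, h1]
      have m2 : MM s J (p.rep 0) (p.rep 1) (p.rep 2) j = 0 := by
        cases b' <;> simp [MM, h2]
      obtain ⟨a0, a1⟩ := base_of_two h hij m1 m2
      obtain ⟨k, hk⟩ := base_points h _ a0 a1
      exact ⟨k, (mk_eq_iff_par _ _).2 hk⟩

theorem good_one : Good 1 Complex.I := by
  refine ⟨Complex.I_sq, one_ne_zero, ?_, ?_, ?_, ?_⟩ <;> intro h <;>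
    have := congrArg Complex.im h <;> simp at this

end Pool.Agent.Work.MP_0c03d4_ag
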