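import Mathlib
import Pool.Agent.Work.MP_0c03d4_ag.Family

-- merged part: Pool.Agent.Work.MP_0c03d4_ag.Flow
section
/-!
Topological triviality of a family of Milnor fibres along the Kuo vector field.
-/

namespace Pool.Agent.Work.MP_0c03d4_ag

open MvPolynomial Set Metric

/-- Affine three-space. -/
abbrev VV := Fin 3 → ℂ

/-- Polynomials in a parameter and three variables. -/
abbrev PP := MvPolynomial (Option (Fin 3)) ℂ

/-- Evaluation at the parameter `s` and the point `x`. -/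
noncomputable def ev (s : ℂ) (x : VV) : PP →+* ℂ := eval fun o => o.elim s x

@[simp] theorem ev_none (s : ℂ) (x : VV) : ev s x (X none) = s := by simp [ev]

@[simp] theorem ev_some (s : ℂ) (x : VV) (j : Fin 3) : ev s x (X (some j)) = x j := by simp [ev]

@[simp] theorem ev_C (s : ℂ) (x : VV) (a : ℂ) : ev s x (C a) = a := by simp [ev]

theorem ev_def (s : ℂ) (x : VV) (p : PP) : ev s x p = eval (fun o => o.elim s x) p := rfl

attribute [irreducible] ev

/-- The gradient in the space variables. -/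
noncomputable def gg (p : PP) (s : ℂ) (x : VV) : VV := fun j => ev s x (pderiv (some j) p)

theorem contDiff_ev (p : PP) : ContDiff ℝ 1 fun z : ℂ × VV => ev z.1 z.2 p := by
  induction p using MvPolynomial.induction_on with
  | C a => simp only [ev_C]; exact contDiff_const
  | add p q hp hq => simp only [map_add]; exact hp.add hq
  | mul_X p i hp =>
    simp only [map_mul]
    refine hp.mul ?_
    cases i with
    | none => simp only [ev_none]; exact contDiff_fst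
    | some j => simp only [ev_some]; fun_prop

theorem continuous_ev (p : PP) : Continuous fun z : ℂ × VV => ev z.1 z.2 p :=
  (contDiff_ev p).continuous

theorem continuous_gg (p : PP) : Continuous fun z : ℂ × VV => gg p z.1 z.2 :=
  continuous_pi fun _ => continuous_ev _

theorem hasDeriv_ev (p : PP) {σ : ℝ → ℂ} {c : ℝ → VV} {σ' : ℂ} {c' : VV} {S : Set ℝ} {t : ℝ}
    (hσ : HasDerivWithinAt σ σ' S t) (hc : HasDerivWithinAt c c' S t) :
    HasDerivWithinAt (fun τ => ev (σ τ) (c τ) p)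
      (ev (σ t) (c t) (pderiv none p) * σ' + ∑ j, gg p (σ t) (c t) j * c' j) S t := by
  induction p using MvPolynomial.induction_on with
  | C a => simpa [gg] using hasDerivWithinAt_const t S a
  | add p q hp hq =>
    simp only [map_add, gg] at *
    refine (hp.add hq).congr_deriv ?_
    simp only [add_mul, Finset.sum_add_distrib]; ring
  | mul_X p i hp =>
    simp only [map_mul]
    cases i with
    | none =>
      simp only [ev_none]
      refine (hp.mul hσ).congr_deriv ?_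
      simp [gg, Derivation.leibniz, Fin.sum_univ_three]; ring
    | some k =>
      simp only [ev_some]
      refine (hp.mul (hasDerivWithinAt_pi.1 hc k)).congr_deriv ?_
      fin_cases k <;> simp [gg, Derivation.leibniz, Fin.sum_univ_three, pderiv_X] <;> ring

/-- Homogeneity in the space variables. -/
def Hom (p : PP) (d : ℕ) : Prop := ∀ s a x, ev s (a • x) p = a ^ d * ev s x p

theorem hasDerivAt_line (a b : ℂ) (t : ℝ) : HasDerivAt (fun τ : ℝ => a + τ * b) b t := by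
  simpa using ((Complex.ofRealCLM.hasDerivAt (x := t)).mul_const b).const_add a

theorem Hom.ds {p : PP} {d : ℕ} (h : Hom p d) : Hom (pderiv none p) d := by
  intro s a x
  have h1 := hasDeriv_ev p (S := univ) (hasDerivAt_line s 1 0).hasDerivWithinAt
    (hasDerivWithinAt_const (0 : ℝ) univ (a • x))
  have h2 := (hasDeriv_ev p (S := univ) (hasDerivAt_line s 1 0).hasDerivWithinAt
    (hasDerivWithinAt_const (0 : ℝ) univ x)).const_mul (a ^ d)
  simp only [h _ a x] at h1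
  have := (hasDerivWithinAt_univ.1 h1).unique (hasDerivWithinAt_univ.1 h2)
  simpa using this

theorem Hom.euler {p : PP} {d : ℕ} (h : Hom p d) (s : ℂ) (x : VV) :
    ∑ j, gg p s x j * x j = d * ev s x p := by
  have hl := hasDerivAt_line 1 1 0
  have h1 := hasDeriv_ev p (S := univ) (hasDerivWithinAt_const (0 : ℝ) univ s)
    (hl.smul_const x).hasDerivWithinAt
  have h2 := (hl.pow d).mul_const (ev s x p)
  simp only [h s _ x] at h1
  have := (hasDerivWithinAt_univ.1 h1).unique h2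
  simpa using this

theorem Hom.grad {p : PP} {d : ℕ} (h : Hom p d) (s a : ℂ) (x : VV) :
    a • gg p s (a • x) = a ^ d • gg p s x := by
  funext j
  have hc : HasDerivAt (fun τ : ℝ => x + (τ : ℂ) • (Pi.single j 1 : VV)) (Pi.single j 1 : VV) 0 := by
    simpa using ((Complex.ofRealCLM.hasDerivAt (x := 0)).smul_const (Pi.single j 1 : VV)).const_add x
  have h1 := hasDeriv_ev p (S := univ) (hasDerivWithinAt_const (0 : ℝ) univ s)
    (hc.const_smul a).hasDerivWithinAt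
  have h2 := (hasDeriv_ev p (S := univ) (hasDerivWithinAt_const (0 : ℝ) univ s)
    hc.hasDerivWithinAt).const_mul (a ^ d)
  simp only [Pi.smul_apply, h s a] at h1
  have := (hasDerivWithinAt_univ.1 h1).unique (hasDerivWithinAt_univ.1 h2)
  simp [Pi.single_apply] at this
  simp only [Pi.smul_apply, smul_eq_mul]
  linear_combination this

/-- The squared Euclidean norm of the gradient. -/
noncomputable def nn (p : PP) (s : ℂ) (x : VV) : ℝ := ∑ j, Complex.normSq (gg p s x j)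

theorem sq_le_nn (p : PP) (s : ℂ) (x : VV) : ‖gg p s x‖ ^ 2 ≤ nn p s x := by
  have h0 : 0 ≤ nn p s x := Finset.sum_nonneg fun j _ => Complex.normSq_nonneg _
  rw [← Real.le_sqrt (norm_nonneg _) h0, pi_norm_le_iff_of_nonneg (Real.sqrt_nonneg _)]
  intro j
  rw [Real.le_sqrt (norm_nonneg _) h0, ← Complex.normSq_eq_norm_sq]
  exact Finset.single_le_sum (f := fun j => Complex.normSq (gg p s x j))
    (fun j _ => Complex.normSq_nonneg _) (Finset.mem_univ j)

/-- The regularised denominator. -/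
noncomputable def den (ε q : ℝ) : ℝ := q + expNegInvGlue (ε - q)

theorem den_pos {ε q : ℝ} (hε : 0 < ε) (hq : 0 ≤ q) : 0 < den ε q := by
  unfold den
  rcases lt_or_ge q ε with h | h
  · exact add_pos_of_nonneg_of_pos hq (expNegInvGlue.pos_of_pos (by linarith))
  · exact add_pos_of_pos_of_nonneg (by linarith) (expNegInvGlue.nonneg _)

theorem le_den (ε q : ℝ) : q ≤ den ε q := le_add_of_nonneg_right (expNegInvGlue.nonneg _)

theorem den_eq {ε q : ℝ} (h : ε ≤ q) : den ε q = q := by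
  unfold den
  rw [expNegInvGlue.zero_of_nonpos (by linarith), add_zero]

/-- The Kuo vector field with denominator `r`. -/
noncomputable def kuo (p : PP) (r : ℝ) (s : ℂ) (x : VV) : VV :=
  fun j => -(ev s x (pderiv none p)) * (starRingEnd ℂ) (gg p s x j) * ((r⁻¹ : ℝ) : ℂ)

/-- The regularised time-dependent field along the segment from `s₀` to `s₁`. -/
noncomputable def fld (p : PP) (s₀ s₁ : ℂ) (ε : ℝ) (t : ℝ) (x : VV) : VV :=
  (s₁ - s₀) • kuo p (den ε (nn p (s₀ + t * (s₁ - s₀)) x)) (s₀ + t * (s₁ - s₀)) x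

theorem nn_nonneg (p : PP) (s : ℂ) (x : VV) : 0 ≤ nn p s x :=
  Finset.sum_nonneg fun _ _ => Complex.normSq_nonneg _

theorem contDiff_fld (p : PP) (s₀ s₁ : ℂ) {ε : ℝ} (hε : 0 < ε) :
    ContDiff ℝ 1 fun z : ℝ × VV => fld p s₀ s₁ ε z.1 z.2 := by
  have hσ : ContDiff ℝ 1 fun z : ℝ × VV => ((s₀ + z.1 * (s₁ - s₀), z.2) : ℂ × VV) :=
    (contDiff_const.add ((Complex.ofRealCLM.contDiff.comp contDiff_fst).mul contDiff_const)).prodMk
      contDiff_snd
  have hq : ∀ q : PP, ContDiff ℝ 1 fun z : ℝ × VV => ev (s₀ + z.1 * (s₁ - s₀)) z.2 q :=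
    fun q => (contDiff_ev q).comp hσ
  have hn : ContDiff ℝ 1 fun z : ℝ × VV => nn p (s₀ + z.1 * (s₁ - s₀)) z.2 := by
    unfold nn gg
    refine ContDiff.sum fun j _ => ?_
    simp only [Complex.normSq_apply]
    exact ((Complex.reCLM.contDiff.comp (hq _)).mul (Complex.reCLM.contDiff.comp (hq _))).add
      ((Complex.imCLM.contDiff.comp (hq _)).mul (Complex.imCLM.contDiff.comp (hq _)))
  have hd : ContDiff ℝ 1 fun z : ℝ × VV => (den ε (nn p (s₀ + z.1 * (s₁ - s₀)) z.2))⁻¹ := by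
    refine ContDiff.inv ?_ fun z => (den_pos hε (nn_nonneg _ _ _)).ne'
    exact hn.add (expNegInvGlue.contDiff.comp (contDiff_const.sub hn))
  unfold fld kuo
  refine ContDiff.const_smul _ (contDiff_pi.2 fun j => ?_)
  exact ((hq _).neg.mul (Complex.conjCLE.contDiff.comp (hq _))).mul
    (Complex.ofRealCLM.contDiff.comp hd)

theorem lipschitz_fld (p : PP) (s₀ s₁ : ℂ) {ε : ℝ} (hε : 0 < ε) (ρ : ℝ) :
    ∃ K, ∀ t ∈ Icc (0 : ℝ) 1, LipschitzOnWith K (fld p s₀ s₁ ε t) (closedBall 0 ρ) := by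
  obtain ⟨K, hK⟩ := (contDiff_fld p s₀ s₁ hε).contDiffOn.exists_lipschitzOnWith
    (s := Icc (0 : ℝ) 1 ×ˢ closedBall (0 : VV) ρ) (by simp)
    ((convex_Icc 0 1).prod (convex_closedBall 0 ρ)) (isCompact_Icc.prod (isCompact_closedBall 0 ρ))
  refine ⟨K, fun t ht x hx y hy => ?_⟩
  have := hK (x := (t, x)) ⟨ht, hx⟩ (y := (t, y)) ⟨ht, hy⟩
  simpa [Prod.edist_eq] using this

/-- The estimate along the segment. -/
def Est (p : PP) (s₀ s₁ : ℂ) : Prop :=
  ∀ t ∈ Icc (0 : ℝ) 1, ∀ x, ‖s₁ - s₀‖ * ‖ev (s₀ + t * (s₁ - s₀)) x (pderiv none p)‖ ≤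
    1 / 2 * ‖x‖ * ‖gg p (s₀ + t * (s₁ - s₀)) x‖

theorem norm_fld_le {p : PP} {s₀ s₁ : ℂ} (h : Est p s₀ s₁) {ε : ℝ} (hε : 0 < ε) {t : ℝ}
    (ht : t ∈ Icc (0 : ℝ) 1) (x : VV) : ‖fld p s₀ s₁ ε t x‖ ≤ 1 / 2 * ‖x‖ := by
  have h1 := h t ht x
  unfold fld
  set s := s₀ + t * (s₁ - s₀)
  have hd := den_pos hε (nn_nonneg p s x)
  have h2 := (sq_le_nn p s x).trans (le_den ε _)
  rw [pi_norm_le_iff_of_nonneg (by positivity)]
  intro j
  have h3 := norm_le_pi_norm (gg p s x) j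
  simp only [Pi.smul_apply, smul_eq_mul, kuo, norm_mul, norm_neg, Complex.norm_conj,
    Complex.norm_real, Real.norm_eq_abs, abs_inv, abs_of_pos hd]
  rw [← mul_assoc, ← mul_assoc, mul_inv_le_iff₀ hd]
  calc _ ≤ 1 / 2 * ‖x‖ * ‖gg p s x‖ * ‖gg p s x‖ := by gcongr
    _ = 1 / 2 * ‖x‖ * ‖gg p s x‖ ^ 2 := by ring
    _ ≤ _ := by gcongr

theorem nn_lower {p : PP} {d : ℕ} (hp : Hom p d) (hd : 1 ≤ d) {s : ℂ} {x : VV} {ρ : ℝ}
    (hρ : 0 < ρ) (hx : ‖x‖ ≤ ρ) (h : ‖ev s x p - 1‖ ≤ 1 / 2) : 1 / (36 * ρ ^ 2) ≤ nn p s x := by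
  have h1 : 1 / 2 ≤ ‖ev s x p‖ := by
    have := norm_sub_norm_le (1 : ℂ) (1 - ev s x p)
    rw [norm_sub_rev 1] at this
    simp only [norm_one, sub_sub_cancel] at this
    rw [norm_sub_rev] at h
    rw [norm_sub_rev] at this
    linarith
  have h2 : ‖(d : ℂ) * ev s x p‖ ≤ 3 * (‖gg p s x‖ * ρ) := by
    rw [← hp.euler]
    refine (norm_sum_le _ _).trans ?_
    have : ∀ j, ‖gg p s x j * x j‖ ≤ ‖gg p s x‖ * ρ := fun j => by
      rw [norm_mul]
      exact mul_le_mul (norm_le_pi_norm _ j) ((norm_le_pi_norm _ j).trans hx) (norm_nonneg _)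
        (norm_nonneg _)
    rw [Fin.sum_univ_three]
    linarith [this 0, this 1, this 2]
  rw [norm_mul, Complex.norm_natCast] at h2
  have hd' : (1 : ℝ) ≤ d := by exact_mod_cast hd
  have h3 : 1 / 2 ≤ 3 * (‖gg p s x‖ * ρ) := by nlinarith
  refine le_trans ?_ (sq_le_nn p s x)
  rw [div_le_iff₀ (by positivity)]
  nlinarith

/-- Trajectories of the Kuo field inside the family of Milnor fibres. -/
def Traj (p : PP) (s₀ s₁ : ℂ) (c : ℝ → VV) : Prop :=
  ∀ t ∈ Icc (0 : ℝ) 1, HasDerivWithinAt c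
    ((s₁ - s₀) • kuo p (nn p (s₀ + t * (s₁ - s₀)) (c t)) (s₀ + t * (s₁ - s₀)) (c t)) (Icc 0 1) t ∧
    ev (s₀ + t * (s₁ - s₀)) (c t) p = 1

theorem Ici_of_Icc {E : Type*} [NormedAddCommGroup E] [NormedSpace ℝ E] {c : ℝ → E} {c' : E}
    {t : ℝ} (ht : t ∈ Ico (0 : ℝ) 1) (h : HasDerivWithinAt c c' (Icc 0 1) t) :
    HasDerivWithinAt c c' (Ici t) t :=
  h.mono_of_mem_nhdsWithin (Icc_mem_nhdsGE_of_mem ht)

theorem traj_of_sol {p : PP} {d : ℕ} (hp : Hom p d) (hd : 1 ≤ d) {s₀ s₁ : ℂ} (h : Est p s₀ s₁)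
    {R : ℝ} (hR : 0 < R) {c : ℝ → VV} (hc0 : ‖c 0‖ ≤ R) (h0 : ev s₀ (c 0) p = 1)
    (hc : ∀ t ∈ Icc (0 : ℝ) 1, HasDerivWithinAt c
      (fld p s₀ s₁ (1 / (36 * (R * Real.exp (1 / 2)) ^ 2)) t (c t)) (Icc 0 1) t) :
    Traj p s₀ s₁ c := by
  set ρ := R * Real.exp (1 / 2)
  have hρ : 0 < ρ := by positivity
  set ε := 1 / (36 * ρ ^ 2)
  have hε : 0 < ε := by positivity
  have hcont : ContinuousOn c (Icc 0 1) := fun t ht => (hc t ht).continuousWithinAt
  have hb : ∀ t ∈ Icc (0 : ℝ) 1, ‖c t‖ ≤ ρ := by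
    intro t ht
    have := norm_le_gronwallBound_of_norm_deriv_right_le (K := 1 / 2) (ε := 0) hcont
      (fun t ht => Ici_of_Icc ht (hc t (Ico_subset_Icc_self ht))) hc0
      (fun t ht => by simpa using norm_fld_le h hε (Ico_subset_Icc_self ht) (c t)) t ht
    rw [gronwallBound_ε0] at this
    refine this.trans ?_
    have : 1 / 2 * (t - 0) ≤ 1 / 2 := by linarith [ht.2]
    exact mul_le_mul_of_nonneg_left (Real.exp_le_exp.2 this) hR.le
  have hσ : Continuous fun t : ℝ => s₀ + t * (s₁ - s₀) := by fun_prop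
  have hcomp : ∀ q : PP, ContinuousOn (fun t : ℝ => ev (s₀ + t * (s₁ - s₀)) (c t) q) (Icc 0 1) :=
    fun q => (continuous_ev q).comp_continuousOn (hσ.continuousOn.prodMk hcont)
  obtain ⟨M, hM⟩ := isCompact_Icc.exists_bound_of_continuousOn
    ((hcomp (pderiv none p)).mul (continuousOn_const (c := s₁ - s₀)))
  have hder : ∀ t ∈ Icc (0 : ℝ) 1, HasDerivWithinAt
      (fun τ : ℝ => ev (s₀ + τ * (s₁ - s₀)) (c τ) p - 1)
      (ev (s₀ + t * (s₁ - s₀)) (c t) (pderiv none p) * (s₁ - s₀) *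
        ((1 - nn p (s₀ + t * (s₁ - s₀)) (c t) / den ε (nn p (s₀ + t * (s₁ - s₀)) (c t)) : ℝ) : ℂ))
      (Icc 0 1) t := by
    intro t ht
    refine ((hasDeriv_ev p (hasDerivAt_line s₀ (s₁ - s₀) t).hasDerivWithinAt
      (hc t ht)).sub_const 1).congr_deriv ?_
    simp only [fld, kuo, nn, Pi.smul_apply, smul_eq_mul, Fin.sum_univ_three, div_eq_mul_inv]
    push_cast
    simp only [Complex.normSq_eq_conj_mul_self]
    ring
  have hone : ∀ t ∈ Icc (0 : ℝ) 1, ev (s₀ + t * (s₁ - s₀)) (c t) p - 1 = 0 := by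
    refine eq_zero_of_abs_deriv_le_mul_abs_self_of_eq_zero_right (K := 2 * M)
      ((hcomp p).sub continuousOn_const)
      (fun t ht => Ici_of_Icc ht (hder t (Ico_subset_Icc_self ht))) (by simp [h0]) ?_
    intro t ht
    have ht' := Ico_subset_Icc_self ht
    have hM' := hM t ht'
    have hM0 : 0 ≤ M := (norm_nonneg _).trans hM'
    by_cases hh : ‖ev (s₀ + t * (s₁ - s₀)) (c t) p - 1‖ ≤ 1 / 2
    · have h1 := nn_lower hp hd hρ (hb t ht') hh
      rw [den_eq h1, div_self (hε.trans_le h1).ne', sub_self]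
      simp only [Complex.ofReal_zero, mul_zero, norm_zero]
      positivity
    · have hdp := den_pos hε (nn_nonneg p (s₀ + t * (s₁ - s₀)) (c t))
      have a1 : 0 ≤ nn p (s₀ + t * (s₁ - s₀)) (c t) / den ε (nn p (s₀ + t * (s₁ - s₀)) (c t)) :=
        div_nonneg (nn_nonneg _ _ _) hdp.le
      have a2 : nn p (s₀ + t * (s₁ - s₀)) (c t) / den ε (nn p (s₀ + t * (s₁ - s₀)) (c t)) ≤ 1 :=
        (div_le_one hdp).2 (le_den _ _)
      rw [norm_mul, Complex.norm_real, Real.norm_eq_abs, abs_of_nonneg (by linarith)]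
      push Not at hh
      calc _ ≤ M * 1 := mul_le_mul hM' (by linarith) (by linarith) hM0
        _ ≤ _ := by nlinarith
  intro t ht
  have h1 := hone t ht
  have h2 := nn_lower hp hd hρ (hb t ht) (by rw [h1]; simp)
  refine ⟨?_, sub_eq_zero.1 h1⟩
  have := hc t ht
  unfold fld at this
  rwa [den_eq h2] at this

theorem traj_unique {p : PP} {d : ℕ} (hp : Hom p d) (hd : 1 ≤ d) {s₀ s₁ : ℂ} {c c' : ℝ → VV}
    (hc : Traj p s₀ s₁ c) (hc' : Traj p s₀ s₁ c') (h0 : c 0 = c' 0) : c 1 = c' 1 := by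
  have k1 : ContinuousOn c (Icc 0 1) := fun t ht => (hc t ht).1.continuousWithinAt
  have k2 : ContinuousOn c' (Icc 0 1) := fun t ht => (hc' t ht).1.continuousWithinAt
  obtain ⟨M, hM⟩ := isCompact_Icc.exists_bound_of_continuousOn k1
  obtain ⟨M', hM'⟩ := isCompact_Icc.exists_bound_of_continuousOn k2
  set ρ := max (max M M') 1
  have hρ : 0 < ρ := lt_of_lt_of_le one_pos (le_max_right _ _)
  have b1 : ∀ t ∈ Icc (0 : ℝ) 1, ‖c t‖ ≤ ρ := fun t ht =>
    (hM t ht).trans ((le_max_left _ _).trans (le_max_left _ _))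
  have b2 : ∀ t ∈ Icc (0 : ℝ) 1, ‖c' t‖ ≤ ρ := fun t ht =>
    (hM' t ht).trans ((le_max_right _ _).trans (le_max_left _ _))
  have hε : 0 < 1 / (36 * ρ ^ 2) := by positivity
  obtain ⟨K, hK⟩ := lipschitz_fld p s₀ s₁ hε ρ
  have key : ∀ e : ℝ → VV, Traj p s₀ s₁ e → (∀ t ∈ Icc (0 : ℝ) 1, ‖e t‖ ≤ ρ) → ∀ t ∈ Ico (0 : ℝ) 1,
      HasDerivWithinAt e (fld p s₀ s₁ (1 / (36 * ρ ^ 2)) t (e t)) (Ici t) t := by
    intro e he hb t ht
    have ht' := Ico_subset_Icc_self ht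
    have h2 := nn_lower hp hd hρ (hb t ht') (by rw [(he t ht').2]; simp)
    unfold fld
    rw [den_eq h2]
    exact Ici_of_Icc ht (he t ht').1
  exact ODE_solution_unique_of_mem_Icc_right (s := fun _ => closedBall 0 ρ)
    (fun t ht => hK t (Ico_subset_Icc_self ht)) k1 (key c hc b1)
    (fun t ht => by simpa using b1 t (Ico_subset_Icc_self ht)) k2 (key c' hc' b2)
    (fun t ht => by simpa using b2 t (Ico_subset_Icc_self ht)) h0 (by simp)

theorem Traj.reverse {p : PP} {s₀ s₁ : ℂ} {c : ℝ → VV} (hc : Traj p s₀ s₁ c) :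
    Traj p s₁ s₀ fun t => c (1 - t) := by
  intro t ht
  have ht' : 1 - t ∈ Icc (0 : ℝ) 1 := ⟨by linarith [ht.2], by linarith [ht.1]⟩
  have e : s₀ + ((1 - t : ℝ) : ℂ) * (s₁ - s₀) = s₁ + t * (s₀ - s₁) := by push_cast; ring
  obtain ⟨h1, h2⟩ := hc _ ht'
  rw [e] at h1 h2
  refine ⟨?_, h2⟩
  have h3 : HasDerivWithinAt (fun τ : ℝ => 1 - τ) (-1) (Icc 0 1) t :=
    ((hasDerivAt_id t).const_sub 1).hasDerivWithinAt
  have h4 := h1.scomp t h3 (fun τ hτ => ⟨by linarith [hτ.2], by linarith [hτ.1]⟩)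
  refine h4.congr_deriv ?_
  rw [neg_one_smul, ← neg_smul, neg_sub]

theorem Traj.smul {p : PP} {d : ℕ} (hp : Hom p d) (hd : 1 ≤ d) {s₀ s₁ ζ : ℂ} (hζ : ζ ^ d = 1)
    {c : ℝ → VV} (hc : Traj p s₀ s₁ c) : Traj p s₀ s₁ fun t => ζ • c t := by
  have hn : ‖ζ‖ = 1 := by
    have := congrArg norm hζ
    rw [norm_pow, norm_one] at this
    exact (pow_eq_one_iff_of_nonneg (norm_nonneg _) (by omega)).1 this
  have hc1 : ζ * (starRingEnd ℂ) ζ = 1 := by
    rw [Complex.mul_conj, Complex.normSq_eq_norm_sq, hn]; simp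
  have hg : ∀ s x j, gg p s (ζ • x) j = (starRingEnd ℂ) ζ * gg p s x j := by
    intro s x j
    have := congrFun (hp.grad s ζ x) j
    simp only [Pi.smul_apply, smul_eq_mul, hζ, one_mul] at this
    linear_combination (starRingEnd ℂ) ζ * this - gg p s (ζ • x) j * hc1
  intro t ht
  obtain ⟨h1, h2⟩ := hc t ht
  refine ⟨?_, by rw [hp, hζ, h2, one_mul]⟩
  refine (h1.const_smul ζ).congr_deriv ?_
  have e : ∀ s x, nn p s (ζ • x) = nn p s x := by
    intro s x
    simp only [nn, hg, map_mul, Complex.normSq_eq_norm_sq]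
    simp [hn]
  funext j
  simp only [Pi.smul_apply, smul_eq_mul, kuo, e, hg, hp.ds _ ζ, hζ, map_mul, Complex.conj_conj]
  ring

theorem exists_flow {p : PP} {d : ℕ} (hp : Hom p d) (hd : 1 ≤ d) {s₀ s₁ : ℂ} (h : Est p s₀ s₁)
    (R : NNReal) (hR : 0 < R) : ∃ α : VV × ℝ → VV,
      (∀ x, ‖x‖ ≤ R → ev s₀ x p = 1 → α (x, 0) = x ∧ Traj p s₀ s₁ fun t => α (x, t)) ∧
      ContinuousOn (fun x => α (x, 1)) (closedBall 0 R) := by
  have hR' : (0 : ℝ) < R := hR
  set ε := 1 / (36 * ((R : ℝ) * Real.exp (1 / 2)) ^ 2)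
  have hε : 0 < ε := by positivity
  obtain ⟨K, hK⟩ := lipschitz_fld p s₀ s₁ hε (2 * R : NNReal)
  have hPL : IsPicardLindelof (fld p s₀ s₁ ε) (tmin := 0) (tmax := 1) ⟨0, by simp⟩ 0 (2 * R) R R K := by
    refine ⟨hK, fun x _ => ?_, fun t ht x hx => ?_, ?_⟩
    · exact ((contDiff_fld p s₀ s₁ hε).continuous.comp
        (continuous_id.prodMk continuous_const)).continuousOn
    · have := norm_fld_le h hε ht x
      simp only [mem_closedBall, dist_zero_right, NNReal.coe_mul, NNReal.coe_ofNat] at hx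
      linarith
    · simp; linarith
  obtain ⟨α, h1, h2⟩ := hPL.exists_forall_mem_closedBall_eq_hasDerivWithinAt_continuousOn
  refine ⟨α, fun x hx h0 => ?_, ?_⟩
  · obtain ⟨a, b⟩ := h1 x (by simpa using hx)
    simp only at a
    exact ⟨a, traj_of_sol hp hd h hR' (by rwa [a]) (by rwa [a]) b⟩
  · exact h2.comp (continuous_id.prodMk continuous_const).continuousOn
      fun x hx => ⟨hx, by simp⟩

/-- The fibre at the parameter `s`. -/
abbrev Fib (p : PP) (s : ℂ) : Type := {x : VV // ev s x p = 1}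

theorem exists_map {p : PP} {d : ℕ} (hp : Hom p d) (hd : 1 ≤ d) {s₀ s₁ : ℂ} (h : Est p s₀ s₁) :
    ∃ φ : Fib p s₀ → Fib p s₁, Continuous φ ∧
      ∀ x, ∃ c, Traj p s₀ s₁ c ∧ c 0 = x.1 ∧ c 1 = (φ x).1 := by
  have hex : ∀ x : Fib p s₀, ∃ c, Traj p s₀ s₁ c ∧ c 0 = x.1 := by
    intro x
    obtain ⟨α, h1, -⟩ := exists_flow hp hd h (‖x.1‖₊ + 1) (by positivity)
    obtain ⟨a, b⟩ := h1 x.1 (by simp) x.2
    exact ⟨_, b, a⟩
  choose c hc hc0 using hex
  refine ⟨fun x => ⟨c x 1, by simpa using (hc x 1 (by simp)).2⟩, ?_, fun x => ⟨c x, hc x, hc0 x, rfl⟩⟩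
  refine Continuous.subtype_mk (continuous_iff_continuousAt.2 fun x => ?_) _
  obtain ⟨α, h1, h2⟩ := exists_flow hp hd h (‖x.1‖₊ + 1) (by positivity)
  have hn : closedBall (0 : VV) (‖x.1‖₊ + 1 : NNReal) ∈ nhds x.1 :=
    closedBall_mem_nhds_of_mem (by simp)
  have h3 : ContinuousAt (fun y : Fib p s₀ => α (y.1, 1)) x :=
    ContinuousAt.comp (f := fun y : Fib p s₀ => y.1) (h2.continuousAt hn)
      continuous_subtype_val.continuousAt
  refine h3.congr ?_
  filter_upwards [continuous_subtype_val.continuousAt.preimage_mem_nhds hn] with y hy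
  obtain ⟨a, b⟩ := h1 y.1 (by simpa using hy) y.2
  exact traj_unique hp hd b (hc y) (a.trans (hc0 y).symm)

/-- Equivariantly homeomorphic fibres. -/
def Equi {A B : Set VV} (d : ℕ) (φ : A ≃ₜ B) : Prop :=
  ∀ ζ : ℂ, ζ ^ d = 1 → ∀ x y : A, y.1 = ζ • x.1 → (φ y).1 = ζ • (φ x).1

theorem exists_homeo {p : PP} {d : ℕ} (hp : Hom p d) (hd : 1 ≤ d) {s₀ s₁ : ℂ} (h : Est p s₀ s₁)
    (h' : Est p s₁ s₀) : ∃ φ : {x | ev s₀ x p = 1} ≃ₜ {x | ev s₁ x p = 1}, Equi d φ := by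
  obtain ⟨φ, hφ, hφ'⟩ := exists_map hp hd h
  obtain ⟨ψ, hψ, hψ'⟩ := exists_map hp hd h'
  refine ⟨⟨⟨φ, ψ, fun x => ?_, fun y => ?_⟩, hφ, hψ⟩, fun ζ hζ x y hxy => ?_⟩
  · obtain ⟨c, hc, c0, c1⟩ := hφ' x
    obtain ⟨e, he, e0, e1⟩ := hψ' (φ x)
    apply Subtype.ext
    have := traj_unique hp hd he hc.reverse (by simp [e0, c1])
    simpa [e1, c0] using this
  · obtain ⟨c, hc, c0, c1⟩ := hψ' y
    obtain ⟨e, he, e0, e1⟩ := hφ' (ψ y)
    apply Subtype.ext
    have := traj_unique hp hd he hc.reverse (by simp [e0, c1])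
    simpa [e1, c0] using this
  · obtain ⟨c, hc, c0, c1⟩ := hφ' x
    obtain ⟨e, he, e0, e1⟩ := hφ' y
    have := traj_unique hp hd he (hc.smul hp hd hζ) (by rw [e0, c0, hxy])
    change (φ y).1 = ζ • (φ x).1
    rw [← e1, this, c1]

end Pool.Agent.Work.MP_0c03d4_ag
end

-- merged part: Pool.Agent.Work.MP_0c03d4_ag.Estimate
section
/-!
The gradient estimate near ordinary quadruple points and near tacnodes.
-/

namespace Pool.Agent.Work.MP_0c03d4_ag

open MvPolynomial Set Metric Filter Topology Asymptotics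

theorem bound_of_local {E F : Type*} [NormedAddCommGroup E] [NormedSpace ℂ E] [ProperSpace E]
    [NormedAddCommGroup F] [NormedSpace ℂ F] (H : ℂ × E → ℂ) (N : ℂ × E → F) {d : ℕ} (hd : 1 ≤ d)
    (hH : ∀ s (a : ℂ) y, H (s, a • y) = a ^ d * H (s, y))
    (hN : ∀ s (a : ℂ) y, a • N (s, a • y) = a ^ d • N (s, y)) (s₀ : ℂ)
    (h : ∀ y₀, y₀ ≠ 0 → H =O[𝓝 (s₀, y₀)] N) :
    ∃ C, 0 ≤ C ∧ ∀ᶠ s in 𝓝 s₀, ∀ y, ‖H (s, y)‖ ≤ C * ‖y‖ * ‖N (s, y)‖ := by
  have key : ∃ C, 0 ≤ C ∧ ∀ᶠ s in 𝓝 s₀, ∀ y ∈ sphere (0 : E) 1, ‖H (s, y)‖ ≤ C * ‖N (s, y)‖ := by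
    refine (isCompact_sphere (0 : E) 1).induction_on
      (p := fun K => ∃ C, 0 ≤ C ∧ ∀ᶠ s in 𝓝 s₀, ∀ y ∈ K, ‖H (s, y)‖ ≤ C * ‖N (s, y)‖)
      ⟨0, le_rfl, by simp⟩ ?_ ?_ ?_
    · rintro K K' hK ⟨C, hC, h⟩
      exact ⟨C, hC, h.mono fun s hs y hy => hs y (hK hy)⟩
    · rintro K K' ⟨C, hC, h⟩ ⟨C', hC', h'⟩
      refine ⟨C + C', by positivity, ?_⟩
      filter_upwards [h, h'] with s hs hs' y hy
      rcases hy with hy | hy
      · exact (hs y hy).trans (by gcongr; linarith)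
      · exact (hs' y hy).trans (by gcongr; linarith)
    · intro y₀ hy₀
      have hy0 : y₀ ≠ 0 := by rintro rfl; simp at hy₀
      obtain ⟨C, hC, h1⟩ := (h y₀ hy0).exists_nonneg
      obtain ⟨u, hu, v, hv, huv⟩ := mem_nhds_prod_iff.1 h1.bound
      exact ⟨v, mem_nhdsWithin_of_mem_nhds hv, C, hC,
        mem_of_superset hu fun s hs y hy => huv (mk_mem_prod hs hy)⟩
  obtain ⟨C, hC, h1⟩ := key
  refine ⟨C, hC, h1.mono fun s hs y => ?_⟩
  by_cases hy : y = 0
  · have := hH s 0 0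
    rw [zero_smul, zero_pow (by omega), zero_mul] at this
    simp [hy, this]
  have hr : 0 < ‖y‖ := norm_pos_iff.2 hy
  have hr' : (‖y‖ : ℂ) ≠ 0 := by exact_mod_cast hr.ne'
  have e : y = (‖y‖ : ℂ) • ((‖y‖ : ℂ)⁻¹ • y) := by rw [smul_smul, mul_inv_cancel₀ hr', one_smul]
  have h2 := hs ((‖y‖ : ℂ)⁻¹ • y) (by simp [norm_smul, hr.ne'])
  have h3 := congrArg norm (hH s ‖y‖ ((‖y‖ : ℂ)⁻¹ • y))
  have h4 := congrArg norm (hN s ‖y‖ ((‖y‖ : ℂ)⁻¹ • y))
  rw [← e] at h3 h4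
  rw [norm_smul, norm_smul] at h4
  simp only [norm_mul, norm_pow, Complex.norm_real, norm_norm] at h3 h4
  rw [h3, mul_assoc, h4]
  calc _ ≤ ‖y‖ ^ d * (C * ‖N (s, (‖y‖ : ℂ)⁻¹ • y)‖) := by gcongr
    _ = _ := by ring

section Bd

variable {Z F : Type*} [TopologicalSpace Z] [NormedAddCommGroup F] {z₀ : Z} {G : Z → F}

theorem bd_mul {u f : Z → ℂ} (hu : Continuous u) (hf : f =O[𝓝 z₀] G) :
    (fun z => u z * f z) =O[𝓝 z₀] G := by
  have h1 : u =O[𝓝 z₀] fun _ => (1 : ℝ) := (hu.tendsto z₀).isBigO_one ℝ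
  exact ((h1.mul hf.norm_right).congr_right fun _ => one_mul _).of_norm_right

theorem bd_of_mul {u f : Z → ℂ} (hu : Continuous u) (h0 : u z₀ ≠ 0)
    (hf : (fun z => u z * f z) =O[𝓝 z₀] G) : f =O[𝓝 z₀] G := by
  have h1 : (fun z => (u z)⁻¹) =O[𝓝 z₀] fun _ => (1 : ℝ) :=
    ((hu.tendsto z₀).inv₀ h0).isBigO_one ℝ
  have h2 : (fun z => (u z)⁻¹ * (u z * f z)) =O[𝓝 z₀] G := by
    exact ((h1.mul hf.norm_right).congr_right fun _ => one_mul _).of_norm_right
  refine h2.congr' ?_ EventuallyEq.rfl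
  filter_upwards [hu.continuousAt.eventually_ne h0] with z hz
  rw [inv_mul_cancel_left₀ hz]

theorem bd_of_ne {f : Z → ℂ} (hf : Continuous f) (hG : Continuous G) (h0 : G z₀ ≠ 0) :
    f =O[𝓝 z₀] G := by
  have h1 : (fun z => ((‖G z‖ : ℝ) : ℂ)) =O[𝓝 z₀] G := IsBigO.of_bound' (by simp)
  have h2 : Continuous fun z => ((‖G z‖ : ℝ) : ℂ) := by fun_prop
  refine bd_of_mul h2 (by simpa using h0) ((bd_mul hf h1).congr_left fun z => mul_comm _ _)

end Bd

theorem bd_gg (p : PP) (z₀ : ℂ × VV) (j : Fin 3) :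
    (fun z : ℂ × VV => ev z.1 z.2 (pderiv (some j) p)) =O[𝓝 z₀] fun z => gg p z.1 z.2 :=
  IsBigO.of_bound' (Eventually.of_forall fun z => norm_le_pi_norm (gg p z.1 z.2) j)

theorem bd_self {p : PP} {d : ℕ} (hp : Hom p d) (hd : 1 ≤ d) (z₀ : ℂ × VV) :
    (fun z : ℂ × VV => ev z.1 z.2 p) =O[𝓝 z₀] fun z => gg p z.1 z.2 := by
  refine bd_of_mul (u := fun _ => (d : ℂ)) continuous_const (by simp; omega) ?_
  have h : ∀ j, (fun z : ℂ × VV => z.2 j * ev z.1 z.2 (pderiv (some j) p)) =O[𝓝 z₀]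
      fun z => gg p z.1 z.2 := fun j => bd_mul (by fun_prop) (bd_gg p z₀ j)
  refine (((h 0).add (h 1)).add (h 2)).congr_left fun z => ?_
  rw [← hp.euler, Fin.sum_univ_three]
  simp only [gg]; ring

/-- The determinant of three vectors. -/
def det3 (a b c : VV) : ℂ :=
  a 0 * (b 1 * c 2 - b 2 * c 1) + a 1 * (b 2 * c 0 - b 0 * c 2) + a 2 * (b 0 * c 1 - b 1 * c 0)

theorem bd_tacnode {p L Y Z R : PP} {d : ℕ} (hp : Hom p d) (hd : 1 ≤ d)
    (e : p = L * (L * Z - Y ^ 2) * R) (z₀ : ℂ × VV) (hR : ev z₀.1 z₀.2 R ≠ 0)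
    (hdet : det3 (gg L z₀.1 z₀.2) (gg Y z₀.1 z₀.2) (gg Z z₀.1 z₀.2) ≠ 0) :
    (fun z : ℂ × VV => ev z.1 z.2 (pderiv none p)) =O[𝓝 z₀] fun z => gg p z.1 z.2 := by
  have hder : ∀ (z : ℂ × VV) o, ev z.1 z.2 (pderiv o p) =
      ev z.1 z.2 (pderiv o L) * (ev z.1 z.2 R * (2 * ev z.1 z.2 L * ev z.1 z.2 Z - ev z.1 z.2 Y ^ 2)) +
      ev z.1 z.2 (pderiv o Y) * (ev z.1 z.2 R * (-2 * ev z.1 z.2 L * ev z.1 z.2 Y)) +
      ev z.1 z.2 (pderiv o Z) * (ev z.1 z.2 R * ev z.1 z.2 L ^ 2) +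
      ev z.1 z.2 (pderiv o R) * ev z.1 z.2 (L * (L * Z - Y ^ 2)) := by
    intro z o
    rw [e]
    simp only [sq, Derivation.leibniz, smul_eq_mul, map_add, map_mul, map_sub]
    ring
  have hh : (fun z : ℂ × VV => ev z.1 z.2 (L * (L * Z - Y ^ 2))) =O[𝓝 z₀]
      fun z => gg p z.1 z.2 := by
    refine bd_of_mul (continuous_ev R) hR ((bd_self hp hd z₀).congr_left fun z => ?_)
    rw [e, map_mul]; ring
  have hW : ∀ j, (fun z : ℂ × VV => ev z.1 z.2 (pderiv (some j) p) -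
      ev z.1 z.2 (pderiv (some j) R) * ev z.1 z.2 (L * (L * Z - Y ^ 2))) =O[𝓝 z₀]
      fun z => gg p z.1 z.2 := fun j => (bd_gg p z₀ j).sub (bd_mul (continuous_ev _) hh)
  have hc : ∀ (A B : PP) (i j : Fin 3), Continuous fun z : ℂ × VV =>
      gg A z.1 z.2 i * gg B z.1 z.2 j - gg A z.1 z.2 j * gg B z.1 z.2 i := fun A B i j =>
    ((continuous_ev _).mul (continuous_ev _)).sub ((continuous_ev _).mul (continuous_ev _))
  have hD : Continuous fun z : ℂ × VV => det3 (gg L z.1 z.2) (gg Y z.1 z.2) (gg Z z.1 z.2) :=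
    (((continuous_ev _).mul (hc Y Z 1 2)).add ((continuous_ev _).mul (hc Y Z 2 0))).add
      ((continuous_ev _).mul (hc Y Z 0 1))
  have hX : ∀ A B : PP, (fun z : ℂ × VV => _) =O[𝓝 z₀] fun z => gg p z.1 z.2 := fun A B =>
    ((bd_mul (hc A B 1 2) (hW 0)).add (bd_mul (hc A B 2 0) (hW 1))).add (bd_mul (hc A B 0 1) (hW 2))
  have h1 : (fun z : ℂ × VV => ev z.1 z.2 R * (2 * ev z.1 z.2 L * ev z.1 z.2 Z - ev z.1 z.2 Y ^ 2))
      =O[𝓝 z₀] fun z => gg p z.1 z.2 := by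
    refine bd_of_mul hD hdet ((hX Y Z).congr_left fun z => ?_)
    simp only [hder z, det3, gg]; ring
  have h2 : (fun z : ℂ × VV => ev z.1 z.2 R * (-2 * ev z.1 z.2 L * ev z.1 z.2 Y))
      =O[𝓝 z₀] fun z => gg p z.1 z.2 := by
    refine bd_of_mul hD hdet ((hX Z L).congr_left fun z => ?_)
    simp only [hder z, det3, gg]; ring
  have h3 : (fun z : ℂ × VV => ev z.1 z.2 R * ev z.1 z.2 L ^ 2)
      =O[𝓝 z₀] fun z => gg p z.1 z.2 := by
    refine bd_of_mul hD hdet ((hX L Y).congr_left fun z => ?_)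
    simp only [hder z, det3, gg]; ring
  exact ((((bd_mul (continuous_ev _) h1).add (bd_mul (continuous_ev _) h2)).add
    (bd_mul (continuous_ev _) h3)).add (bd_mul (continuous_ev _) hh)).congr_left
      fun z => (hder z none).symm

/-- First derivative of the binary quartic. -/
def qu (a b c e u v : ℂ) : ℂ :=
  v * (a * u + b * v) * (c * u + e * v) + u * v * a * (c * u + e * v) + u * v * (a * u + b * v) * c

/-- Second derivative of the binary quartic. -/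
def qv (a b c e u v : ℂ) : ℂ :=
  u * (a * u + b * v) * (c * u + e * v) + u * v * b * (c * u + e * v) + u * v * (a * u + b * v) * e

/-- Parameter derivative of the binary quartic. -/
def qs (a b c e a' b' c' e' u v : ℂ) : ℂ :=
  u * v * ((a' * u + b' * v) * (c * u + e * v) + (a * u + b * v) * (c' * u + e' * v))

theorem quartic_ne {a b c e u v : ℂ} (ha : a ≠ 0) (hb : b ≠ 0) (hc : c ≠ 0) (he : e ≠ 0)
    (hd : a * e - b * c ≠ 0) (h1 : qu a b c e u v = 0) (h2 : qv a b c e u v = 0) :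
    u = 0 ∧ v = 0 := by
  unfold qu at h1
  unfold qv at h2
  by_cases hu : u = 0
  · subst hu
    have : b * e * v ^ 3 = 0 := by linear_combination h1
    simp_all
  by_cases hv : v = 0
  · subst hv
    have : a * c * u ^ 3 = 0 := by linear_combination h2
    simp_all
  exfalso
  have h3 : u * v * ((a * u + b * v) * (c * u + e * v)) = 0 := by
    linear_combination (1 / 4) * (u * h1 + v * h2)
  have h4 := (mul_eq_zero.1 h3).resolve_left (mul_ne_zero hu hv)
  have h5 : a * u + b * v = 0 ∧ c * u + e * v = 0 := by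
    rcases mul_eq_zero.1 h4 with h | h
    · refine ⟨h, mul_left_cancel₀ (mul_ne_zero (mul_ne_zero hu hv) ha) ?_⟩
      rw [h] at h1
      linear_combination h1
    · refine ⟨mul_left_cancel₀ (mul_ne_zero (mul_ne_zero hu hv) hc) ?_, h⟩
      rw [h] at h1
      linear_combination h1
  apply mul_ne_zero hd hu
  linear_combination e * h5.1 - b * h5.2

theorem bd_quadruple {p P Q A B C E : PP}
    (e : p = P * Q * (A * P + B * Q) * (C * P + E * Q)) (z₀ : ℂ × VV)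
    (hA : ∀ j, pderiv (some j) A = 0) (hB : ∀ j, pderiv (some j) B = 0)
    (hC : ∀ j, pderiv (some j) C = 0) (hE : ∀ j, pderiv (some j) E = 0)
    (kA : ∀ s x, ev s x A = ev s 0 A ∧ ev s x (pderiv none A) = ev s 0 (pderiv none A))
    (kB : ∀ s x, ev s x B = ev s 0 B ∧ ev s x (pderiv none B) = ev s 0 (pderiv none B))
    (kC : ∀ s x, ev s x C = ev s 0 C ∧ ev s x (pderiv none C) = ev s 0 (pderiv none C))
    (kE : ∀ s x, ev s x E = ev s 0 E ∧ ev s x (pderiv none E) = ev s 0 (pderiv none E))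
    (ha : ev z₀.1 0 A ≠ 0) (hb : ev z₀.1 0 B ≠ 0) (hc : ev z₀.1 0 C ≠ 0) (he : ev z₀.1 0 E ≠ 0)
    (hd : ev z₀.1 0 A * ev z₀.1 0 E - ev z₀.1 0 B * ev z₀.1 0 C ≠ 0) {i j : Fin 3}
    (hm : gg P z₀.1 z₀.2 i * gg Q z₀.1 z₀.2 j - gg P z₀.1 z₀.2 j * gg Q z₀.1 z₀.2 i ≠ 0) :
    (fun z : ℂ × VV => ev z.1 z.2 (pderiv none p)) =O[𝓝 z₀] fun z => gg p z.1 z.2 := by
  have c0 : ∀ q : PP, Continuous fun s : ℂ => ev s 0 q := fun q =>
    (continuous_ev q).comp (continuous_id.prodMk continuous_const)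
  let H : ℂ × (ℂ × ℂ) → ℂ := fun w => qs (ev w.1 0 A) (ev w.1 0 B) (ev w.1 0 C) (ev w.1 0 E)
    (ev w.1 0 (pderiv none A)) (ev w.1 0 (pderiv none B)) (ev w.1 0 (pderiv none C))
    (ev w.1 0 (pderiv none E)) w.2.1 w.2.2
  let N : ℂ × (ℂ × ℂ) → ℂ × ℂ := fun w =>
    (qu (ev w.1 0 A) (ev w.1 0 B) (ev w.1 0 C) (ev w.1 0 E) w.2.1 w.2.2,
      qv (ev w.1 0 A) (ev w.1 0 B) (ev w.1 0 C) (ev w.1 0 E) w.2.1 w.2.2)
  have c1 : ∀ q : PP, Continuous fun w : ℂ × (ℂ × ℂ) => ev w.1 0 q := fun q =>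
    (c0 q).comp continuous_fst
  have hHc : Continuous H := by
    have := c1 A; have := c1 B; have := c1 C; have := c1 E
    have := c1 (pderiv none A); have := c1 (pderiv none B); have := c1 (pderiv none C)
    have := c1 (pderiv none E)
    simp only [H, qs]; fun_prop
  have hNc : Continuous N := by
    have := c1 A; have := c1 B; have := c1 C; have := c1 E
    simp only [N, qu, qv]; fun_prop
  obtain ⟨K, hK, hb⟩ := bound_of_local H N (d := 4) (by norm_num)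
    (fun s a y => by simp only [H, qs, Prod.smul_fst, Prod.smul_snd, smul_eq_mul]; ring)
    (fun s a y => by
      simp only [N, qu, qv, Prod.smul_fst, Prod.smul_snd, smul_eq_mul, Prod.smul_mk, Prod.mk.injEq]
      constructor <;> ring) z₀.1
    (fun y hy => bd_of_ne hHc hNc fun h => by
      obtain ⟨a, b⟩ := quartic_ne ha ‹_› hc he hd (congrArg Prod.fst h) (congrArg Prod.snd h)
      exact hy (Prod.ext a b))
  let w : ℂ × VV → ℂ × (ℂ × ℂ) := fun z => (z.1, ev z.1 z.2 P, ev z.1 z.2 Q)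
  have hder : ∀ (z : ℂ × VV) k, ev z.1 z.2 (pderiv (some k) p) =
      gg P z.1 z.2 k * (N (w z)).1 + gg Q z.1 z.2 k * (N (w z)).2 := by
    intro z k
    rw [e]
    simp only [Derivation.leibniz, smul_eq_mul, map_add, map_mul, hA, hB, hC, hE, map_zero, N, w,
      qu, qv, gg, (kA z.1 z.2).1, (kB z.1 z.2).1, (kC z.1 z.2).1, (kE z.1 z.2).1]
    ring
  have hders : ∀ z : ℂ × VV, ev z.1 z.2 (pderiv none p) = H (w z) +
      ev z.1 z.2 (pderiv none P) * (N (w z)).1 + ev z.1 z.2 (pderiv none Q) * (N (w z)).2 := by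
    intro z
    rw [e]
    simp only [Derivation.leibniz, smul_eq_mul, map_add, map_mul, N, w, H, qs,
      qu, qv, (kA z.1 z.2).1, (kB z.1 z.2).1, (kC z.1 z.2).1, (kE z.1 z.2).1,
      (kA z.1 z.2).2, (kB z.1 z.2).2, (kC z.1 z.2).2, (kE z.1 z.2).2]
    ring
  have hmc : Continuous fun z : ℂ × VV =>
      gg P z.1 z.2 i * gg Q z.1 z.2 j - gg P z.1 z.2 j * gg Q z.1 z.2 i :=
    ((continuous_ev _).mul (continuous_ev _)).sub ((continuous_ev _).mul (continuous_ev _))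
  have n1 : (fun z => (N (w z)).1) =O[𝓝 z₀] fun z => gg p z.1 z.2 := by
    refine bd_of_mul hmc hm (((bd_mul (continuous_ev (pderiv (some j) Q)) (bd_gg p z₀ i)).sub
      (bd_mul (continuous_ev (pderiv (some i) Q)) (bd_gg p z₀ j))).congr_left fun z => ?_)
    simp only [hder, gg]; ring
  have n2 : (fun z => (N (w z)).2) =O[𝓝 z₀] fun z => gg p z.1 z.2 := by
    refine bd_of_mul hmc hm (((bd_mul (continuous_ev (pderiv (some i) P)) (bd_gg p z₀ j)).sub
      (bd_mul (continuous_ev (pderiv (some j) P)) (bd_gg p z₀ i))).congr_left fun z => ?_)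
    simp only [hder, gg]; ring
  have n3 : (fun z => N (w z)) =O[𝓝 z₀] fun z => gg p z.1 z.2 := n1.prod_left n2
  have n4 : (fun z => H (w z)) =O[𝓝 z₀] fun z => gg p z.1 z.2 := by
    have a1 : (fun z => H (w z)) =O[𝓝 z₀] fun z => ‖(w z).2‖ * ‖N (w z)‖ := by
      refine IsBigO.of_bound K ?_
      filter_upwards [continuous_fst.continuousAt.eventually hb] with z hz
      simpa [mul_assoc] using hz (w z).2
    have a2 : (fun z => ‖(w z).2‖) =O[𝓝 z₀] fun _ => (1 : ℝ) :=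
      ((((continuous_ev P).prodMk (continuous_ev Q)).norm).tendsto z₀).isBigO_one ℝ
    refine a1.trans ?_
    exact ((a2.mul n3.norm_norm).congr_right fun _ => one_mul _).of_norm_right
  exact ((n4.add (bd_mul (continuous_ev _) n1)).add (bd_mul (continuous_ev _) n2)).congr_left
    fun z => (hders z).symm

theorem est_of_local {p : PP} {d : ℕ} (hp : Hom p d) (hd : 1 ≤ d) (s₀ : ℂ)
    (h : ∀ x₀, x₀ ≠ 0 → (fun z : ℂ × VV => ev z.1 z.2 (pderiv none p)) =O[𝓝 (s₀, x₀)]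
      fun z => gg p z.1 z.2) : ∀ᶠ s₁ in 𝓝 s₀, Est p s₀ s₁ ∧ Est p s₁ s₀ := by
  obtain ⟨C, hC, hb⟩ := bound_of_local _ _ hd (fun s a y => hp.ds s a y)
    (fun s a y => hp.grad s a y) s₀ h
  obtain ⟨δ, hδ, hδ'⟩ := Metric.eventually_nhds_iff_ball.1 hb
  have key : ∀ a b : ℂ, a ∈ ball s₀ δ → b ∈ ball s₀ δ → ‖b - a‖ ≤ 1 / (2 * (C + 1)) → Est p a b := by
    intro a b ha hb hab t ht x
    have hm : a + t * (b - a) ∈ ball s₀ δ := by
      have := (convex_ball s₀ δ).add_smul_sub_mem ha hb ht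
      simpa using this
    have h1 := hδ' _ hm x
    simp only at h1
    calc _ ≤ 1 / (2 * (C + 1)) * ((C + 1) * ‖x‖ * ‖gg p (a + t * (b - a)) x‖) := by
          gcongr
          exact h1.trans (by gcongr; linarith)
      _ = _ := by field_simp
  filter_upwards [ball_mem_nhds s₀ hδ, closedBall_mem_nhds s₀
    (show 0 < 1 / (2 * (C + 1)) by positivity)] with s h1 h2
  rw [mem_closedBall, dist_eq_norm] at h2
  exact ⟨key _ _ (mem_ball_self hδ) h1 h2, key _ _ h1 (mem_ball_self hδ) (by rwa [norm_sub_rev])⟩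

end Pool.Agent.Work.MP_0c03d4_ag
end

-- merged part: Pool.Agent.Work.MP_0c03d4_ag.Local
section
/-!
All members of the family have equivariantly homeomorphic Milnor fibres.
-/

namespace Pool.Agent.Work.MP_0c03d4_ag

open MvPolynomial Set Metric Filter Topology Asymptotics Projectivization

/-- The lines, as polynomials with a parameter. -/
noncomputable def Lp : Fin 4 → PP :=
  ![X (some 0), X (some 1), X (some 2), -(X (some 0) + X (some 1) + X (some 2))]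

/-- The conics, as polynomials with a parameter. -/
noncomputable def Cp (J : ℂ) : Fin 4 → PP :=
  ![C (-4) * (Lp 2 * Lp 3) + (X none + 1 + C J) * (X none + 1 + C J) * (Lp 1 * Lp 3) +
      (X none + 1 - C J) * (X none + 1 - C J) * (Lp 1 * Lp 2),
    C 4 * (Lp 2 * Lp 3) - (X none - 1 + C J) * (X none - 1 + C J) * (Lp 0 * Lp 3) -
      (X none - 1 - C J) * (X none - 1 - C J) * (Lp 0 * Lp 2),
    -((X none + 1 + C J) * (X none + 1 + C J) * (Lp 1 * Lp 3)) +
      (X none - 1 + C J) * (X none - 1 + C J) * (Lp 0 * Lp 3) -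
      C (2 * J) * (X none * X none) * (Lp 0 * Lp 1),
    -((X none + 1 - C J) * (X none + 1 - C J) * (Lp 1 * Lp 2)) +
      (X none - 1 - C J) * (X none - 1 - C J) * (Lp 0 * Lp 2) +
      C (2 * J) * (X none * X none) * (Lp 0 * Lp 1)]

/-- The components, as polynomials with a parameter. -/
noncomputable def Kp (J : ℂ) (c : Fin 4 × Bool) : PP :=
  match c.2 with
  | true => Cp J c.1
  | false => Lp c.1

/-- The equation of the family. -/
noncomputable def Fp (J : ℂ) : PP := ∏ c, Kp J c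

theorem ev_Kp (s J : ℂ) (v : VV) (c : Fin 4 × Bool) :
    ev s v (Kp J c) = val s J (v 0) (v 1) (v 2) c.1 c.2 := by
  obtain ⟨i, b⟩ := c
  fin_cases i <;> cases b <;> simp [Kp, Cp, Lp, val] <;> ring

theorem gg_Kp (s J : ℂ) (v : VV) (c : Fin 4 × Bool) :
    gg (Kp J c) s v = gr s J (v 0) (v 1) (v 2) c.1 c.2 := by
  obtain ⟨i, b⟩ := c
  funext j
  fin_cases i <;> cases b <;> fin_cases j <;>
    simp [Kp, Cp, Lp, gr, gg, Derivation.leibniz, pderiv_X, -map_mul, -map_neg] <;>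
    simp [-mul_eq_mul_right_iff, -mul_eq_mul_left_iff, -mul_eq_zero] <;> ring

theorem ev_Fp (s J : ℂ) (v : VV) : ev s v (Fp J) = ∏ i, MM s J (v 0) (v 1) (v 2) i := by
  simp only [Fp, map_prod, map_mul, ev_Kp, Fintype.prod_prod_type, Fintype.prod_bool, MM, mul_comm]

theorem hom_Fp (J : ℂ) : Hom (Fp J) 12 := by
  intro s a x
  have h : ∀ i, MM s J (a * x 0) (a * x 1) (a * x 2) i = a ^ 3 * MM s J (x 0) (x 1) (x 2) i := by
    intro i
    fin_cases i <;> simp [MM, val] <;> ring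
  simp only [ev_Fp, Fin.prod_univ_four, Pi.smul_apply, smul_eq_mul, h]
  ring

theorem ext_ev {p q : PP} (h : ∀ s x, ev s x p = ev s x q) : p = q := by
  apply MvPolynomial.funext
  intro y
  have := h (y none) fun j => y (some j)
  rw [ev_def, ev_def] at this
  have e : (fun o : Option (Fin 3) => o.elim (y none) fun j => y (some j)) = y := by
    funext o; cases o <;> rfl
  rwa [e] at this

variable {s J : ℂ}

theorem val_congr (h : Good s J) {v w : VV} (hv : v ≠ 0) (hw : w ≠ 0) (e : Par v w)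
    (c : Fin 4 × Bool) :
    val s J (v 0) (v 1) (v 2) c.1 c.2 = 0 ↔ val s J (w 0) (w 1) (w 2) c.1 c.2 = 0 := by
  have _ := h
  rw [← on_KK c hv, ← on_KK c hw, (mk_eq_iff_par hv hw).2 e]

/-- The linear forms `Y_i`. -/
noncomputable def Yp (J : ℂ) : Fin 4 → PP :=
  ![(X none + 1 - C J) * Lp 2 - (X none + 1 + C J) * (Lp 1 + Lp 2),
    C J * ((X none - 1 - C J) * Lp 2 - (X none - 1 + C J) * (Lp 0 + Lp 2)),
    (X none - 1 + C J) * Lp 0 + C J * (X none + 1 + C J) * Lp 1,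
    (X none - 1 - C J) * Lp 0 - C J * (X none + 1 - C J) * Lp 1]

/-- The linear forms `Z_i`. -/
noncomputable def Zp (J : ℂ) : Fin 4 → PP :=
  ![C 4 * Lp 2 - (X none + 1 + C J) * (X none + 1 + C J) * Lp 1,
    (X none - 1 + C J) * (X none - 1 + C J) * Lp 0 - C 4 * Lp 2,
    (X none + 1 + C J) * (X none + 1 + C J) * Lp 1 - (X none - 1 + C J) * (X none - 1 + C J) * Lp 0,
    (X none + 1 - C J) * (X none + 1 - C J) * Lp 1 - (X none - 1 - C J) * (X none - 1 - C J) * Lp 0]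

theorem Cp_eq (hJ : J ^ 2 = -1) (i : Fin 4) : Cp J i = Lp i * Zp J i - Yp J i ^ 2 := by
  apply ext_ev
  intro s x
  fin_cases i <;> simp [Cp, Lp, Zp, Yp] <;> grind

theorem det_ne (h : Good s J) (i : Fin 4) (x : VV) :
    det3 (gg (Lp i) s x) (gg (Yp J i) s x) (gg (Zp J i) s x) ≠ 0 := by
  obtain ⟨hJ, h0, hA, hB, hC, hD⟩ := h
  fin_cases i <;>
    simp [det3, Lp, Yp, Zp, gg, Derivation.leibniz, pderiv_X, -map_mul, -map_neg] <;>
    simp [-mul_eq_zero] <;> grind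

theorem local_T (h : Good s J) {x : VV} (hx : x ≠ 0) (i : Fin 4) (e : Par x (TT s J i)) :
    (fun z : ℂ × VV => ev z.1 z.2 (pderiv none (Fp J))) =O[𝓝 (s, x)] fun z => gg (Fp J) z.1 z.2 := by
  refine bd_tacnode (hom_Fp J) (by norm_num) (L := Lp i) (Y := Yp J i) (Z := Zp J i)
    (R := ∏ j ∈ Finset.univ.erase i, (Kp J (j, true) * Kp J (j, false))) ?_ _ ?_ (det_ne h i x)
  · rw [← Cp_eq h.hJ, Fp, Fintype.prod_prod_type]
    simp only [Fintype.prod_bool]
    rw [← Finset.mul_prod_erase _ _ (Finset.mem_univ i), mul_comm (Lp i)]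
    rfl
  · rw [map_prod, Finset.prod_ne_zero_iff]
    intro j hj
    have hji := Finset.ne_of_mem_erase hj
    rw [map_mul, ev_Kp, ev_Kp]
    refine mul_ne_zero (fun e' => hji ?_) (fun e' => hji ?_)
    · exact (val_TT h i j true).1 ((val_congr h hx (TT_ne h i) e (j, true)).1 e')
    · exact (val_TT h i j false).1 ((val_congr h hx (TT_ne h i) e (j, false)).1 e')

theorem gg_mul (p q : PP) (s : ℂ) (x : VV) :
    gg (p * q) s x = ev s x p • gg q s x + ev s x q • gg p s x := by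
  funext j
  simp [gg, Derivation.leibniz]

theorem gg_M (h : Good s J) {x : VV} (hx : x ≠ 0) (k : Fin 9) (e : Par x (QQ s J k)) (i : Fin 4) :
    ∃ u : ℂ, u ≠ 0 ∧ gg (Kp J (i, false) * Kp J (i, true)) s x =
      u • gr s J (x 0) (x 1) (x 2) i (inc k i) := by
  have h1 := (val_congr h hx (QQ_ne h k) e (i, false)).trans (val_QQ h k i false)
  have h2 := (val_congr h hx (QQ_ne h k) e (i, true)).trans (val_QQ h k i true)
  rw [gg_mul, gg_Kp, gg_Kp, ev_Kp, ev_Kp]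
  simp only at h1 h2 ⊢
  cases hb : inc k i
  · rw [hb] at h1 h2
    exact ⟨_, fun e => by simpa using h2.1 e, by rw [h1.2 rfl]; simp⟩
  · rw [hb] at h1 h2
    exact ⟨_, fun e => by simpa using h1.1 e, by rw [h2.2 rfl]; simp⟩

theorem local_Q (h : Good s J) {x : VV} (hx : x ≠ 0) (k : Fin 9) (e : Par x (QQ s J k)) :
    (fun z : ℂ × VV => ev z.1 z.2 (pderiv none (Fp J))) =O[𝓝 (s, x)] fun z => gg (Fp J) z.1 z.2 := by
  obtain ⟨u, hu, hu'⟩ := gg_M h hx k e 0
  obtain ⟨v, hv, hv'⟩ := gg_M h hx k e 1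
  have hli : LinearIndependent ℂ ![gr s J (x 0) (x 1) (x 2) 0 (inc k 0),
      gr s J (x 0) (x 1) (x 2) 1 (inc k 1)] := by
    obtain ⟨d, hd⟩ := KK_hom s J (0, inc k 0)
    obtain ⟨d', hd'⟩ := KK_hom s J (1, inc k 1)
    have := transversal h k 0 1 (by decide)
    rw [← grad_KK, ← grad_KK] at this ⊢
    rwa [← li_mk hd hd' hx, (mk_eq_iff_par hx (QQ_ne h k)).2 e, li_mk hd hd']
  rw [li_iff] at hli
  have hm : ∃ i j : Fin 3, gg (Kp J (0, false) * Kp J (0, true)) s x i *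
      gg (Kp J (1, false) * Kp J (1, true)) s x j - gg (Kp J (0, false) * Kp J (0, true)) s x j *
      gg (Kp J (1, false) * Kp J (1, true)) s x i ≠ 0 := by
    by_contra hne
    push Not at hne
    apply hli
    rw [hu', hv'] at hne
    simp only [Pi.smul_apply, smul_eq_mul] at hne
    have huv := mul_ne_zero hu hv
    exact ⟨mul_left_cancel₀ huv (by linear_combination hne 1 2),
      mul_left_cancel₀ huv (by linear_combination hne 2 0),
      mul_left_cancel₀ huv (by linear_combination hne 0 1)⟩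
  obtain ⟨i, j, hm⟩ := hm
  have hJ := h.hJ
  refine bd_quadruple (A := C (-1 / 4) * ((X none - 1 + C J) * (X none - 1 + C J)))
    (B := C (-1 / 4) * ((X none + 1 + C J) * (X none + 1 + C J)))
    (C := C (-1 / 4) * ((X none - 1 - C J) * (X none - 1 - C J)))
    (E := C (-1 / 4) * ((X none + 1 - C J) * (X none + 1 - C J))) ?_ (s, x)
    ?_ ?_ ?_ ?_ ?_ ?_ ?_ ?_ ?_ ?_ ?_ ?_ ?_ hm
  · apply ext_ev
    intro s x
    have e2 := MM_two (s := s) hJ (x 0) (x 1) (x 2)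
    have e3 := MM_three (s := s) hJ (x 0) (x 1) (x 2)
    have e2' : MM s J (x 0) (x 1) (x 2) 2 = -1 / 4 * ((s - 1 + J) ^ 2 * MM s J (x 0) (x 1) (x 2) 0 +
        (s + 1 + J) ^ 2 * MM s J (x 0) (x 1) (x 2) 1) := by linear_combination (-1 / 4) * e2
    have e3' : MM s J (x 0) (x 1) (x 2) 3 = -1 / 4 * ((s - 1 - J) ^ 2 * MM s J (x 0) (x 1) (x 2) 0 +
        (s + 1 - J) ^ 2 * MM s J (x 0) (x 1) (x 2) 1) := by linear_combination (-1 / 4) * e3
    rw [ev_Fp, Fin.prod_univ_four, e2', e3']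
    simp only [map_mul, map_add, map_sub, ev_Kp, ev_C, ev_none, map_one, MM]
    ring
  iterate 4 intro j; simp [Derivation.leibniz, pderiv_X]
  iterate 4 intro s x; simp [Derivation.leibniz]
  · simpa using h.hC
  · simpa using h.hA
  · simpa using h.hD
  · simpa using h.hB
  · have h0 := h.h0
    simp only [map_mul, map_add, map_sub, ev_C, ev_none, map_one]
    (clear * - h0 hJ; grind)

theorem local_bound (h : Good s J) (x : VV) (hx : x ≠ 0) :
    (fun z : ℂ × VV => ev z.1 z.2 (pderiv none (Fp J))) =O[𝓝 (s, x)] fun z => gg (Fp J) z.1 z.2 := by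
  by_cases h2 : ∃ c c' : Fin 4 × Bool, c ≠ c' ∧ ev s x (Kp J c) = 0 ∧ ev s x (Kp J c') = 0
  · obtain ⟨⟨i, b⟩, ⟨j, b'⟩, hne, h1, h2⟩ := h2
    rw [ev_Kp] at h1 h2
    simp only at h1 h2
    by_cases hij : i = j
    · subst hij
      refine local_T h hx i ?_
      cases b <;> cases b'
      · exact absurd rfl hne
      · exact TT_unique h i _ h1 h2
      · exact TT_unique h i _ h2 h1
      · exact absurd rfl hne
    · have m1 : MM s J (x 0) (x 1) (x 2) i = 0 := by cases b <;> simp [MM, h1]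
      have m2 : MM s J (x 0) (x 1) (x 2) j = 0 := by cases b' <;> simp [MM, h2]
      obtain ⟨a0, a1⟩ := base_of_two h hij m1 m2
      obtain ⟨k, hk⟩ := base_points h _ a0 a1
      exact local_Q h hx k hk
  · refine bd_of_ne (continuous_ev _) (continuous_gg _) fun h0 => ?_
    have h1 := (hom_Fp J).euler s x
    simp only at h0
    rw [h0] at h1
    have h3 : ev s x (Fp J) = 0 := by simpa using h1.symm
    rw [Fp, map_prod, Finset.prod_eq_zero_iff] at h3
    obtain ⟨c, -, hc⟩ := h3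
    rw [Fp, ← Finset.mul_prod_erase _ _ (Finset.mem_univ c), gg_mul, hc, zero_smul, zero_add,
      smul_eq_zero, map_prod, Finset.prod_eq_zero_iff, gg_Kp] at h0
    rcases h0 with ⟨c', hc', h4⟩ | h0
    · exact h2 ⟨c', c, Finset.ne_of_mem_erase hc', h4, hc⟩
    · obtain ⟨a0, a1, a2⟩ := smooth_gr h _ _ h0
      apply hx
      funext j
      fin_cases j <;> assumption

/-- Two subsets of affine space are equivariantly homeomorphic. -/
def Rel (A B : Set VV) : Prop := ∃ φ : A ≃ₜ B, Equi 12 φ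

theorem Rel.trans {A B D : Set VV} (h : Rel A B) (h' : Rel B D) : Rel A D := by
  obtain ⟨φ, hφ⟩ := h
  obtain ⟨ψ, hψ⟩ := h'
  exact ⟨φ.trans ψ, fun ζ hζ x y e => hψ ζ hζ _ _ (hφ ζ hζ x y e)⟩

theorem rel_family (hJ : J ^ 2 = -1) {s s' : ℂ} (h : Good s J) (h' : Good s' J) :
    Rel {x | ev s x (Fp J) = 1} {x | ev s' x (Fp J) = 1} := by
  have hS : {s | Good s J} = ({0, -1 - J, -1 + J, 1 - J, 1 + J} : Set ℂ)ᶜ := by
    ext s
    simp only [mem_ofPred_eq, mem_compl_iff, mem_insert_iff, mem_singleton_iff, not_or]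
    constructor
    · rintro ⟨-, h0, hA, hB, hC, hD⟩
      refine ⟨h0, ?_, ?_, ?_, ?_⟩ <;> grind
    · rintro ⟨h0, hA, hB, hC, hD⟩
      refine ⟨hJ, h0, ?_, ?_, ?_, ?_⟩ <;> grind
  have hc : IsPreconnected {s | Good s J} := by
    rw [hS]
    exact ((Set.toFinite _).countable.isConnected_compl_of_one_lt_rank (by simp)).isPreconnected
  refine hc.induction₂' (fun a b => Rel {x | ev a x (Fp J) = 1} {x | ev b x (Fp J) = 1})
    (fun a ha => ?_) (fun a b c _ _ _ h1 h2 => h1.trans h2) h h'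
  refine mem_nhdsWithin_of_mem_nhds ?_
  filter_upwards [est_of_local (hom_Fp J) (by norm_num) a (local_bound ha)] with b hb
  exact ⟨exists_homeo (hom_Fp J) (by norm_num) hb.1 hb.2,
    exists_homeo (hom_Fp J) (by norm_num) hb.2 hb.1⟩

end Pool.Agent.Work.MP_0c03d4_ag
end

-- merged part: Pool.Agent.Work.MP_0c03d4_ag.Classify
section
/-!
Every curve of type `W` is projectively equivalent to a member of the family.
-/

namespace Pool.Agent.Work.MP_0c03d4_ag

open MvPolynomial Projectivization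

theorem hom_one {g : MvPolynomial (Fin 3) ℂ} (hg : g.IsHomogeneous 1) :
    ∃ a : VV, ∀ v : VV, eval v g = a 0 * v 0 + a 1 * v 1 + a 2 * v 2 := by
  refine ⟨fun j => eval 0 (pderiv j g), fun v => ?_⟩
  have h0 : ∀ j, eval 0 (pderiv j g) = eval v (pderiv j g) := fun j => by
    simpa using eval_smul_of_isHomogeneous (hg.pderiv (i := j)) 0 v
  have := congrArg (eval v) hg.sum_X_mul_pderiv
  simp only [h0]
  simp [Fin.sum_univ_three] at this
  linear_combination -this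

theorem hom_two {g : MvPolynomial (Fin 3) ℂ} (hg : g.IsHomogeneous 2) :
    ∃ a b c : VV, ∀ v : VV, eval v g = v 0 * (a 0 * v 0 + a 1 * v 1 + a 2 * v 2) +
      v 1 * (b 0 * v 0 + b 1 * v 1 + b 2 * v 2) + v 2 * (c 0 * v 0 + c 1 * v 1 + c 2 * v 2) := by
  obtain ⟨a, ha⟩ := hom_one (hg.pderiv (i := 0))
  obtain ⟨b, hb⟩ := hom_one (hg.pderiv (i := 1))
  obtain ⟨c, hc⟩ := hom_one (hg.pderiv (i := 2))
  refine ⟨(1 / 2 : ℂ) • a, (1 / 2 : ℂ) • b, (1 / 2 : ℂ) • c, fun v => ?_⟩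
  have := congrArg (eval v) hg.sum_X_mul_pderiv
  simp [Fin.sum_univ_three, ha, hb, hc] at this
  simp only [Pi.smul_apply, smul_eq_mul]
  linear_combination (-1 / 2) * this

/-- Quadratic forms in three variables. -/
def IsQuad (c : VV → ℂ) : Prop :=
  ∃ q0 q1 q2 q3 q4 q5 : ℂ, ∀ v : VV, c v = q0 * v 0 ^ 2 + q1 * v 1 ^ 2 + q2 * v 2 ^ 2 +
    q3 * (v 0 * v 1) + q4 * (v 0 * v 2) + q5 * (v 1 * v 2)

theorem disc_zero {α β γ : ℂ} (hα : α ≠ 0)
    (h : ∀ y z y' z' : ℂ, z ≠ 0 → z' ≠ 0 → α * y ^ 2 + β * (y * z) + γ * z ^ 2 = 0 →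
      α * y' ^ 2 + β * (y' * z') + γ * z' ^ 2 = 0 → y * z' - z * y' = 0) :
    β ^ 2 - 4 * α * γ = 0 := by
  obtain ⟨r, hr⟩ := IsAlgClosed.exists_pow_nat_eq (β ^ 2 - 4 * α * γ) (n := 2) (by norm_num)
  have h2 : 2 * α ≠ 0 := mul_ne_zero two_ne_zero hα
  have := h (-β + r) (2 * α) (-β - r) (2 * α) h2 h2 (by linear_combination α * hr)
    (by linear_combination α * hr)
  have hr0 : r = 0 := mul_left_cancel₀ (mul_ne_zero two_ne_zero h2) (by linear_combination this)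
  rw [← hr, hr0]; simp

theorem param {b c d e : ℂ} (h1 : (b - c) ^ 2 + 8 * (b + c) + 16 = 0)
    (h2 : (d - e) ^ 2 - 8 * (d + e) + 16 = 0)
    (h3 : 2 * (b * d + c * e) - (b + c - 4) * (4 + d + e) = 0) :
    ∃ s J : ℂ, J ^ 2 = -1 ∧ b = (s + 1 + J) ^ 2 ∧ c = (s + 1 - J) ^ 2 ∧ d = -(s - 1 + J) ^ 2 ∧
      e = -(s - 1 - J) ^ 2 := by
  have hI := Complex.I_sq
  have h4 : (b - c + d - e - 8 * Complex.I) * (b - c + d - e + 8 * Complex.I) = 0 := by grind
  rcases mul_eq_zero.1 h4 with h | h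
  · refine ⟨-Complex.I * (b - c) / 4 - 1, Complex.I, hI, ?_, ?_, ?_, ?_⟩ <;> grind
  · refine ⟨Complex.I * (b - c) / 4 - 1, -Complex.I, ?_, ?_, ?_, ?_, ?_⟩ <;> grind

theorem par_of_two {v q : VV} (i j : Fin 4) (hij : i < j)
    (h1 : val 0 0 (v 0) (v 1) (v 2) i false = 0) (h2 : val 0 0 (v 0) (v 1) (v 2) j false = 0)
    (h3 : val 0 0 (q 0) (q 1) (q 2) i false = 0) (h4 : val 0 0 (q 0) (q 1) (q 2) j false = 0) :
    Par v q := by
  fin_cases i <;> fin_cases j <;> simp at hij <;> simp [val] at h1 h2 h3 h4 <;>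
    simp [Par, -mul_eq_zero] <;> grind

theorem quad_par {c : VV → ℂ} (hc : IsQuad c) {v q : VV} (hv : v ≠ 0) (hq : q ≠ 0) (h : Par v q) :
    c v = 0 ↔ c q = 0 := by
  obtain ⟨a, ha⟩ := (mk_eq_mk_iff ℂ v q hv hq).1 ((mk_eq_iff_par hv hq).2 h)
  obtain ⟨q0, q1, q2, q3, q4, q5, e⟩ := hc
  have : c v = (a : ℂ) ^ 2 * c q := by
    rw [← ha, e, e]; simp only [Units.smul_def, Pi.smul_apply, smul_eq_mul]; ring
  rw [this]; simp

/-- The normalised classification. -/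
theorem classify_norm (c : Fin 4 → VV → ℂ) (hc : ∀ i, IsQuad (c i)) (q : Fin 9 → VV)
    (hq : ∀ k, q k ≠ 0) (hq12 : ¬ Par (q 1) (q 2))
    (hl : ∀ k i, val 0 0 (q k 0) (q k 1) (q k 2) i false = 0 ↔ false = inc k i)
    (hcq : ∀ k i, c i (q k) = 0 ↔ true = inc k i)
    (hu : ∀ i (v w : VV), v ≠ 0 → w ≠ 0 → val 0 0 (v 0) (v 1) (v 2) i false = 0 → c i v = 0 →
      val 0 0 (w 0) (w 1) (w 2) i false = 0 → c i w = 0 → Par v w) :
    ∃ s J, Good s J ∧ ∀ i, ∃ κ : ℂ, κ ≠ 0 ∧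
      ∀ v : VV, c i v = κ * val s J (v 0) (v 1) (v 2) i true := by
  have ne : ∀ a b d : ℂ, a ≠ 0 ∨ b ≠ 0 ∨ d ≠ 0 → (![a, b, d] : VV) ≠ 0 := by
    intro a b d h e
    have e0 := congrFun e 0
    have e1 := congrFun e 1
    have e2 := congrFun e 2
    simp at e0 e1 e2
    tauto
  have std : ∀ (k : Fin 9) (w : VV) (i j : Fin 4), i < j → w ≠ 0 → inc k i = false →
      inc k j = false → val 0 0 (w 0) (w 1) (w 2) i false = 0 →
      val 0 0 (w 0) (w 1) (w 2) j false = 0 → ∀ m, c m w = 0 ↔ true = inc k m := by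
    intro k w i j hij hw a1 a2 a3 a4 m
    rw [← hcq, quad_par (hc m) hw (hq k)
      (par_of_two i j hij a3 a4 ((hl k i).2 a1.symm) ((hl k j).2 a2.symm))]
  have p0 := std 0 ![1, -1, 0] 2 3 (by decide) (ne _ _ _ (by simp)) rfl rfl (by simp [val]) (by simp [val])
  have p4 := std 4 ![0, 0, 1] 0 1 (by decide) (ne _ _ _ (by simp)) rfl rfl (by simp [val]) (by simp [val])
  have p5 := std 5 ![1, 0, 0] 1 2 (by decide) (ne _ _ _ (by simp)) rfl rfl (by simp [val]) (by simp [val])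
  have p6 := std 6 ![1, 0, -1] 1 3 (by decide) (ne _ _ _ (by simp)) rfl rfl (by simp [val]) (by simp [val])
  have p7 := std 7 ![0, 1, 0] 0 2 (by decide) (ne _ _ _ (by simp)) rfl rfl (by simp [val]) (by simp [val])
  have p8 := std 8 ![0, 1, -1] 0 3 (by decide) (ne _ _ _ (by simp)) rfl rfl (by simp [val]) (by simp [val])
  have f0 : ∃ κ b d : ℂ, κ ≠ 0 ∧ b ≠ 0 ∧ d ≠ 0 ∧ ∀ v : VV, c 0 v = κ * (-4 * (v 2 * -(v 0 + v 1 + v 2)) +
      b * (v 1 * -(v 0 + v 1 + v 2)) + d * (v 1 * v 2)) := by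
    obtain ⟨q0, q1, q2, q3, q4, q5, e⟩ := hc 0
    have a0 := p0 0; have a4 := p4 0; have a5 := p5 0; have a6 := p6 0; have a7 := p7 0
    have a8 := p8 0
    simp [e, inc, -mul_eq_zero] at a0 a4 a5 a6 a7 a8
    refine ⟨q2 / 4, -4 * q1 / q2, 4 * (q5 - q1 - q2) / q2, by simpa using a4, by simp [a4, a7],
      by (clear * - a0 a4 a5 a6 a8; grind), fun v => ?_⟩
    rw [e]; field_simp; (clear * - a0 a5 a6; grind)
  have f1 : ∃ κ b d : ℂ, κ ≠ 0 ∧ b ≠ 0 ∧ d ≠ 0 ∧ ∀ v : VV, c 1 v = κ * (4 * (v 2 * -(v 0 + v 1 + v 2)) +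
      b * (v 0 * -(v 0 + v 1 + v 2)) + d * (v 0 * v 2)) := by
    obtain ⟨q0, q1, q2, q3, q4, q5, e⟩ := hc 1
    have a0 := p0 1; have a4 := p4 1; have a5 := p5 1; have a6 := p6 1; have a7 := p7 1
    have a8 := p8 1
    simp [e, inc, -mul_eq_zero] at a0 a4 a5 a6 a7 a8
    refine ⟨-q2 / 4, 4 * q0 / q2, -4 * (q4 - q0 - q2) / q2, by simpa using a4, by simp [a4, a5],
      by (clear * - a0 a4 a5 a6 a7 a8; grind), fun v => ?_⟩
    rw [e]; field_simp; (clear * - a0 a7 a8; grind)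
  have f2 : ∃ a b d : ℂ, a ≠ 0 ∧ b ≠ 0 ∧ d ≠ 0 ∧ ∀ v : VV, c 2 v = a * (v 1 * -(v 0 + v 1 + v 2)) +
      b * (v 0 * -(v 0 + v 1 + v 2)) + d * (v 0 * v 1) := by
    obtain ⟨q0, q1, q2, q3, q4, q5, e⟩ := hc 2
    have a0 := p0 2; have a4 := p4 2; have a5 := p5 2; have a6 := p6 2; have a7 := p7 2
    have a8 := p8 2
    simp [e, inc, -mul_eq_zero] at a0 a4 a5 a6 a7 a8
    refine ⟨-q1, -q0, q3 - q0 - q1, by simpa using a7, by simpa using a5, by (clear * - a0 a4 a6 a8; grind), fun v => ?_⟩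
    rw [e]; (clear * - a4 a6 a8; grind)
  have f3 : ∃ a b d : ℂ, a ≠ 0 ∧ ∀ v : VV, c 3 v = a * (v 1 * v 2) + b * (v 0 * v 2) +
      d * (v 0 * v 1) := by
    obtain ⟨q0, q1, q2, q3, q4, q5, e⟩ := hc 3
    have a4 := p4 3; have a5 := p5 3; have a7 := p7 3; have a8 := p8 3
    simp [e, inc, -mul_eq_zero] at a4 a5 a7 a8
    refine ⟨q5, q4, q3, by (clear * - a4 a7 a8; grind), fun v => ?_⟩
    rw [e]; (clear * - a4 a5 a7; grind)
  obtain ⟨κ0, b, b', hκ0, hb, hb', e0⟩ := f0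
  obtain ⟨κ1, d, d', hκ1, hd, hd', e1⟩ := f1
  obtain ⟨a2, b2, d2, ha2, hb2, hd2, e2⟩ := f2
  obtain ⟨a3, b3, d3, ha3, e3⟩ := f3
  have t0 : (b - b') ^ 2 + 8 * (b + b') + 16 = 0 := by
    have := disc_zero (α := -b) (β := 4 - b + b') (γ := 4) (neg_ne_zero.2 hb) (by
      intro y z y' z' hz hz' h1 h2
      exact (hu 0 ![0, y, z] ![0, y', z'] (ne _ _ _ (by simp [hz])) (ne _ _ _ (by simp [hz']))
        (by simp [val]) (by rw [e0]; simp [hκ0]; linear_combination h1) (by simp [val])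
        (by rw [e0]; simp [hκ0]; linear_combination h2)).1)
    linear_combination this
  have t1 : (d - d') ^ 2 - 8 * (d + d') + 16 = 0 := by
    have := disc_zero (α := -d) (β := -4 - d + d') (γ := -4) (neg_ne_zero.2 hd) (by
      intro y z y' z' hz hz' h1 h2
      have := (hu 1 ![y, 0, z] ![y', 0, z'] (ne _ _ _ (by simp [hz])) (ne _ _ _ (by simp [hz']))
        (by simp [val]) (by rw [e1]; simp [hκ1]; linear_combination h1) (by simp [val])
        (by rw [e1]; simp [hκ1]; linear_combination h2)).2.1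
      simp at this
      linear_combination -this)
    linear_combination this
  have t2 : (-a2 - b2 + d2) ^ 2 - 4 * a2 * b2 = 0 := by
    have := disc_zero (α := -b2) (β := -a2 - b2 + d2) (γ := -a2) (neg_ne_zero.2 hb2) (by
      intro y z y' z' hz hz' h1 h2
      exact (hu 2 ![y, z, 0] ![y', z', 0] (ne _ _ _ (by simp [hz])) (ne _ _ _ (by simp [hz']))
        (by simp [val]) (by rw [e2]; simp; linear_combination h1) (by simp [val])
        (by rw [e2]; simp; linear_combination h2)).2.2)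
    linear_combination this
  have pt : ∀ k : Fin 9, (∀ i, inc k i = true) → ∃ w, w = -(q k 0 + q k 1 + q k 2) ∧
      q k 0 ≠ 0 ∧ q k 1 ≠ 0 ∧ q k 2 ≠ 0 ∧ w ≠ 0 ∧
      -4 * (q k 2 * w) + b * (q k 1 * w) + b' * (q k 1 * q k 2) = 0 ∧
      (b * b2 - d * a2) * w + (b' * b2 - d' * a2 + 4 * d2) * q k 2 = 0 ∧
      (b * b3 - d * a3 + 4 * d3) * w + (b' * b3 - d' * a3) * q k 2 = 0 := by
    intro k hk
    have n0 : q k 0 ≠ 0 := fun e => by simpa [hk] using (hl k 0).1 e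
    have n1 : q k 1 ≠ 0 := fun e => by simpa [hk] using (hl k 1).1 e
    have n2 : q k 2 ≠ 0 := fun e => by simpa [hk] using (hl k 2).1 e
    have n3 : -(q k 0 + q k 1 + q k 2) ≠ 0 := fun e => by simpa [hk] using (hl k 3).1 e
    have z0 := (hcq k 0).2 (hk 0).symm
    have z1 := (hcq k 1).2 (hk 1).symm
    have z2 := (hcq k 2).2 (hk 2).symm
    have z3 := (hcq k 3).2 (hk 3).symm
    rw [e0] at z0; rw [e1] at z1; rw [e2] at z2; rw [e3] at z3
    have z0' := (mul_eq_zero.1 z0).resolve_left hκ0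
    have z1' := (mul_eq_zero.1 z1).resolve_left hκ1
    obtain ⟨w, hw⟩ : ∃ w, w = -(q k 0 + q k 1 + q k 2) := ⟨_, rfl⟩
    rw [← hw] at z0' z1' z2 n3
    refine ⟨w, hw, n0, n1, n2, n3, z0', ?_, ?_⟩
    · apply mul_left_cancel₀ (mul_ne_zero n0 n1)
      linear_combination b2 * q k 0 * z0' - a2 * q k 1 * z1' + 4 * q k 2 * z2
    · apply mul_left_cancel₀ (mul_ne_zero n0 n1)
      linear_combination b3 * q k 0 * z0' - a3 * q k 1 * z1' + 4 * w * z3
  obtain ⟨w1, hw1, -, -, n12, n13, u1, u2, u3⟩ := pt 1 (by decide)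
  obtain ⟨w2, hw2, -, -, n22, n23, v1, v2, v3⟩ := pt 2 (by decide)
  have hδ : q 1 2 * w2 - w1 * q 2 2 ≠ 0 := by
    intro h
    exact hq12 (lift_par (by linear_combination hw2) hw1 n22 n23 n12 (by linear_combination h) v1 u1)
  have m1 : b * b2 - d * a2 = 0 := mul_left_cancel₀ hδ (by
    linear_combination q 1 2 * v2 - q 2 2 * u2)
  have m2 : b' * b2 - d' * a2 + 4 * d2 = 0 := mul_left_cancel₀ hδ (by
    linear_combination w2 * u2 - w1 * v2)
  have m3 : b * b3 - d * a3 + 4 * d3 = 0 := mul_left_cancel₀ hδ (by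
    linear_combination q 1 2 * v3 - q 2 2 * u3)
  have m4 : b' * b3 - d' * a3 = 0 := mul_left_cancel₀ hδ (by
    linear_combination w2 * u3 - w1 * v3)
  have t3 : 2 * (b * d + b' * d') - (b + b' - 4) * (4 + d + d') = 0 := by
    apply mul_left_cancel₀ (mul_ne_zero ha2 hb2)
    clear * - t0 t1 t2 m1 m2
    grind
  obtain ⟨s, J, hJ, rfl, rfl, rfl, rfl⟩ := param t0 t1 t3
  have hA : s + 1 + J ≠ 0 := fun h => hb (by rw [h]; simp)
  have hB : s + 1 - J ≠ 0 := fun h => hb' (by rw [h]; simp)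
  have hC : s - 1 + J ≠ 0 := fun h => hd (by rw [h]; simp)
  have hD : s - 1 - J ≠ 0 := fun h => hd' (by rw [h]; simp)
  have k2 : d2 * (s + 1 + J) ^ 2 = 2 * J * s ^ 2 * a2 := by
    clear * - hJ m1 m2
    grind
  have k3 : d3 * (s + 1 - J) ^ 2 = -2 * J * s ^ 2 * a3 := by
    clear * - hJ m3 m4
    grind
  have hs : s ≠ 0 := by
    rintro rfl
    exact mul_ne_zero hd2 hb (by rw [k2]; ring)
  refine ⟨s, J, ⟨hJ, hs, hA, hB, hC, hD⟩, fun i => ?_⟩
  fin_cases i
  · exact ⟨κ0, hκ0, e0⟩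
  · refine ⟨κ1, hκ1, fun v => (e1 v).trans ?_⟩
    change _ = κ1 * (4 * (v 2 * -(v 0 + v 1 + v 2)) - (s - 1 + J) ^ 2 * (v 0 * -(v 0 + v 1 + v 2)) -
      (s - 1 - J) ^ 2 * (v 0 * v 2))
    ring
  · refine ⟨-a2 / (s + 1 + J) ^ 2, by simp [ha2, hA], fun v => (e2 v).trans ?_⟩
    change _ = -a2 / (s + 1 + J) ^ 2 * (-(s + 1 + J) ^ 2 * (v 1 * -(v 0 + v 1 + v 2)) +
      (s - 1 + J) ^ 2 * (v 0 * -(v 0 + v 1 + v 2)) - 2 * J * s ^ 2 * (v 0 * v 1))
    field_simp
    linear_combination (-(v 0 * (v 0 + v 1 + v 2))) * m1 + v 0 * v 1 * k2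
  · refine ⟨-a3 / (s + 1 - J) ^ 2, by simp [ha3, hB], fun v => (e3 v).trans ?_⟩
    change _ = -a3 / (s + 1 - J) ^ 2 * (-(s + 1 - J) ^ 2 * (v 1 * v 2) +
      (s - 1 - J) ^ 2 * (v 0 * v 2) + 2 * J * s ^ 2 * (v 0 * v 1))
    field_simp
    linear_combination (v 0 * v 2) * m4 + v 0 * v 1 * k3

end Pool.Agent.Work.MP_0c03d4_ag
end

-- merged part: Pool.Agent.Work.MP_0c03d4_ag.Main
section
/-!
All curves of type `W` have equivariantly homeomorphic Milnor fibres.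
-/

namespace Pool.Agent.Work.MP_0c03d4_ag

open MvPolynomial Projectivization CategoryTheory

theorem rel_of_linear (g : VV ≃ₗ[ℂ] VV) {A B : Set VV} (h : ∀ v, v ∈ A ↔ g v ∈ B) : Rel A B :=
  ⟨g.toContinuousLinearEquiv.toHomeomorph.subtype h, fun ζ _ x y e => by
    change g y.1 = ζ • g x.1
    rw [e, map_smul]⟩

theorem isQuad_comp {g : MvPolynomial (Fin 3) ℂ} (hg : g.IsHomogeneous 2) (u0 u1 u2 : VV) :
    IsQuad fun v => eval (v 0 • u0 + v 1 • u1 + v 2 • u2) g := by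
  obtain ⟨a, b, c, e⟩ := hom_two hg
  refine ⟨eval u0 g, eval u1 g, eval u2 g, eval (u0 + u1) g - eval u0 g - eval u1 g,
    eval (u0 + u2) g - eval u0 g - eval u2 g, eval (u1 + u2) g - eval u1 g - eval u2 g,
    fun v => ?_⟩
  simp only [e, Pi.add_apply, Pi.smul_apply, smul_eq_mul]
  ring

theorem par_map (h : VV ≃ₗ[ℂ] VV) {v w : VV} (hv : v ≠ 0) (hw : w ≠ 0) :
    Par v w ↔ mk ℂ (h v) (by simpa using hv) = mk ℂ (h w) (by simpa using hw) := by
  rw [← mk_eq_iff_par hv hw, mk_eq_mk_iff', mk_eq_mk_iff']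
  refine exists_congr fun a => ?_
  rw [← map_smul, h.injective.eq_iff]

theorem classify {K : Fin 4 × Bool → MvPolynomial (Fin 3) ℂ} (hK : IsTypeW K) :
    ∃ (s J : ℂ) (g : VV ≃ₗ[ℂ] VV), Good s J ∧ ∀ v, eval (g v) (∏ c, K c) = ev s v (Fp J) := by
  obtain ⟨hh, -, T, Q, hQ, -, -, hT, hinc, -, -⟩ := hK
  choose a ha using fun i => hom_one (hh i).1
  have lin : ∀ i (x y z : ℂ) (u0 u1 u2 : VV), eval (x • u0 + y • u1 + z • u2) (K (i, false)) =
      x * eval u0 (K (i, false)) + y * eval u1 (K (i, false)) + z * eval u2 (K (i, false)) := by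
    intro i x y z u0 u1 u2
    simp only [ha, Pi.add_apply, Pi.smul_apply, smul_eq_mul]
    ring
  have hu : ∀ k : Fin 9, inc k 3 = true → ∃ u : VV, eval u (K (3, false)) = -1 ∧
      ∀ i, eval u (K (i, false)) = 0 ↔ false = inc k i := by
    intro k hk
    have h3 : eval (Q k).rep (K (3, false)) ≠ 0 := fun e => by
      simpa [hk] using (hinc k (3, false)).1 e
    refine ⟨(-(eval (Q k).rep (K (3, false)))⁻¹) • (Q k).rep, ?_, fun i => ?_⟩
    · rw [eval_smul_of_isHomogeneous (hh 3).1]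
      field_simp
    · rw [eval_smul_of_isHomogeneous (hh i).1, ← hinc k (i, false)]
      simp [h3, On]
  obtain ⟨u0, a0, b0⟩ := hu 5 rfl
  obtain ⟨u1, a1, b1⟩ := hu 7 rfl
  obtain ⟨u2, a2, b2⟩ := hu 4 rfl
  have hl : ∀ i, ∃ l : ℂ, l ≠ 0 ∧ ∀ v : VV, eval (v 0 • u0 + v 1 • u1 + v 2 • u2) (K (i, false)) =
      l * val 0 0 (v 0) (v 1) (v 2) i false := by
    intro i
    simp only [lin]
    fin_cases i
    · refine ⟨eval u0 (K (0, false)), fun e => by simpa [inc] using (b0 0).1 e, fun v => ?_⟩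
      change v 0 * eval u0 (K (0, false)) + v 1 * eval u1 (K (0, false)) +
        v 2 * eval u2 (K (0, false)) = _ * v 0
      rw [(b1 0).2 rfl, (b2 0).2 rfl]; ring
    · refine ⟨eval u1 (K (1, false)), fun e => by simpa [inc] using (b1 1).1 e, fun v => ?_⟩
      change v 0 * eval u0 (K (1, false)) + v 1 * eval u1 (K (1, false)) +
        v 2 * eval u2 (K (1, false)) = _ * v 1
      rw [(b0 1).2 rfl, (b2 1).2 rfl]; ring
    · refine ⟨eval u2 (K (2, false)), fun e => by simpa [inc] using (b2 2).1 e, fun v => ?_⟩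
      change v 0 * eval u0 (K (2, false)) + v 1 * eval u1 (K (2, false)) +
        v 2 * eval u2 (K (2, false)) = _ * v 2
      rw [(b0 2).2 rfl, (b1 2).2 rfl]; ring
    · refine ⟨1, one_ne_zero, fun v => ?_⟩
      change v 0 * eval u0 (K (3, false)) + v 1 * eval u1 (K (3, false)) +
        v 2 * eval u2 (K (3, false)) = 1 * -(v 0 + v 1 + v 2)
      rw [a0, a1, a2]; ring
  choose l hl0 hl using hl
  let h0 : VV →ₗ[ℂ] VV :=
    { toFun := fun v => v 0 • u0 + v 1 • u1 + v 2 • u2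
      map_add' := fun v w => by simp only [Pi.add_apply, add_smul]; abel
      map_smul' := fun c v => by simp only [Pi.smul_apply, smul_eq_mul, mul_smul, smul_add, RingHom.id_apply] }
  have hinj : Function.Injective h0 := by
    rw [injective_iff_map_eq_zero]
    intro v hv
    have e : ∀ i, val 0 0 (v 0) (v 1) (v 2) i false = 0 := fun i => by
      have := hl i v
      rw [show v 0 • u0 + v 1 • u1 + v 2 • u2 = 0 from hv, ha] at this
      exact (mul_eq_zero.1 (by simpa using this.symm)).resolve_left (hl0 i)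
    funext j
    fin_cases j
    · exact e 0
    · exact e 1
    · exact e 2
  let h : VV ≃ₗ[ℂ] VV := LinearEquiv.ofInjectiveEndo h0 hinj
  have hv : ∀ v : VV, v 0 • u0 + v 1 • u1 + v 2 • u2 = h v := fun v => rfl
  simp only [hv] at hl
  have hne : ∀ k, h.symm (Q k).rep ≠ 0 := fun k => by simpa using (Q k).rep_nonzero
  obtain ⟨s, J, hg, hκ⟩ := classify_norm (fun i v => eval (h v) (K (i, true)))
    (fun i => isQuad_comp (hh i).2 u0 u1 u2) (fun k => h.symm (Q k).rep) hne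
    (by
      rw [par_map h (hne 1) (hne 2)]
      simp only [LinearEquiv.apply_symm_apply, mk_rep]
      exact fun e => by simpa using hQ e)
    (fun k i => by
      rw [← hinc k (i, false), On, ← h.apply_symm_apply (Q k).rep, hl]
      simp [hl0])
    (fun k i => by simpa [On] using hinc k (i, true))
    (fun i v w hv hw e1 e2 e3 e4 => by
      rw [par_map h hv hw, hT i (mk ℂ (h v) _), hT i (mk ℂ (h w) _)]
      · rw [on_mk (hh i).1, hl, e3, mul_zero]
      · rwa [on_mk (hh i).2]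
      · rw [on_mk (hh i).1, hl, e1, mul_zero]
      · rwa [on_mk (hh i).2])
  choose κ hκ0 hκ using hκ
  obtain ⟨r, hr⟩ := IsAlgClosed.exists_pow_nat_eq (∏ i, κ i * l i)⁻¹ (n := 12) (by norm_num)
  have hp : ∏ i, κ i * l i ≠ 0 := Finset.prod_ne_zero_iff.2 fun i _ => mul_ne_zero (hκ0 i) (hl0 i)
  have hr0 : r ≠ 0 := by
    rintro rfl
    exact inv_ne_zero hp (by simpa using hr.symm)
  refine ⟨s, J, (LinearEquiv.smulOfNeZero ℂ VV r hr0).trans h, hg, fun v => ?_⟩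
  have e : ∀ v, eval (h v) (∏ c, K c) = (∏ i, κ i * l i) * ev s v (Fp J) := by
    intro v
    rw [map_prod, Fintype.prod_prod_type, ev_Fp, ← Finset.prod_mul_distrib]
    refine Finset.prod_congr rfl fun i _ => ?_
    rw [Fintype.prod_bool, hl, hκ, MM]
    have : val 0 0 (v 0) (v 1) (v 2) i false = val s J (v 0) (v 1) (v 2) i false := by
      fin_cases i <;> rfl
    rw [this]; ring
  change eval (h (r • v)) _ = _
  rw [e, hom_Fp J, hr, ← mul_assoc, mul_inv_cancel₀ hp, one_mul]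

/-- The involution exchanging the last two lines. -/
def swap : VV ≃ₗ[ℂ] VV :=
  LinearEquiv.ofInvolutive
    { toFun := fun v => ![v 0, v 1, -(v 0 + v 1 + v 2)]
      map_add' := fun v w => by funext j; fin_cases j <;> simp; ring
      map_smul' := fun c v => by funext j; fin_cases j <;> simp; ring }
    (fun v => by funext j; fin_cases j <;> simp; ring)

theorem ev_swap (s J : ℂ) (v : VV) : ev s (swap v) (Fp (-J)) = ev s v (Fp J) := by
  have h : ∀ i, MM s (-J) (v 0) (v 1) (-(v 0 + v 1 + v 2)) i =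
      MM s J (v 0) (v 1) (v 2) (Equiv.swap 2 3 i) := by
    intro i
    fin_cases i
    · rw [Equiv.swap_apply_of_ne_of_ne (by decide) (by decide)]; simp [MM, val]; left; ring
    · rw [Equiv.swap_apply_of_ne_of_ne (by decide) (by decide)]; simp [MM, val]; left; ring
    · simp [MM, val, -mul_eq_mul_left_iff]; ring
    · simp [MM, val, -mul_eq_mul_left_iff]; ring
  rw [ev_Fp, ev_Fp, ← Equiv.prod_comp (Equiv.swap 2 3) (MM s J (v 0) (v 1) (v 2))]
  exact Finset.prod_congr rfl fun i _ => h i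

theorem rel_all {s J s' J' : ℂ} (h : Good s J) (h' : Good s' J') :
    Rel {x | ev s x (Fp J) = 1} {x | ev s' x (Fp J') = 1} := by
  rcases sq_eq_sq_iff_eq_or_eq_neg.1 (h'.hJ.trans h.hJ.symm) with rfl | rfl
  · exact rel_family h.hJ h h'
  · refine (rel_of_linear swap fun v => ?_).trans (rel_family h'.hJ (s := s)
      ⟨h'.hJ, h.h0, by simpa [← sub_eq_add_neg] using h.hB, by simpa using h.hA,
        by simpa [← sub_eq_add_neg] using h.hD, by simpa using h.hC⟩ h')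
    simp only [Set.mem_ofPred_eq, ev_swap]

theorem rel_typeW {K K' : Fin 4 × Bool → MvPolynomial (Fin 3) ℂ} (hK : IsTypeW K)
    (hK' : IsTypeW K') : Rel {v | eval v (∏ c, K c) = 1} {v | eval v (∏ c, K' c) = 1} := by
  obtain ⟨s, J, g, h, e⟩ := classify hK
  obtain ⟨s', J', g', h', e'⟩ := classify hK'
  refine ((rel_of_linear g.symm fun v => ?_).trans (rel_all h h')).trans
    (rel_of_linear g' fun v => ?_)
  · simp only [Set.mem_ofPred_eq, ← e, LinearEquiv.apply_symm_apply]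
  · simp only [Set.mem_ofPred_eq, e']

theorem IsTypeW.hom {K : Fin 4 × Bool → MvPolynomial (Fin 3) ℂ} (hK : IsTypeW K) :
    (∏ c, K c).IsHomogeneous 12 := by
  have := IsHomogeneous.prod Finset.univ K (fun c => if c.2 then 2 else 1) fun c _ => by
    obtain ⟨i, b⟩ := c
    cases b
    · exact (hK.1 i).1
    · exact (hK.1 i).2
  exact this

theorem same_monodromy {K K' : Fin 4 × Bool → MvPolynomial (Fin 3) ℂ} (hK : IsTypeW K)
    (hK' : IsTypeW K') :
    ∃ φ : MilnorFibre (∏ c, K c) ≃ₜ MilnorFibre (∏ c, K' c),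
      ∀ p, φ (monodromy hK.hom p) = monodromy hK'.hom (φ p) := by
  obtain ⟨φ, hφ⟩ := rel_typeW hK hK'
  refine ⟨φ, fun p => Subtype.ext (hφ _ ?_ p _ rfl)⟩
  rw [← Complex.exp_nat_mul, mul_div_cancel₀ _ (by norm_num), Complex.exp_two_pi_mul_I]

theorem H1_conj {X Y : Type} [TopologicalSpace X] [TopologicalSpace Y] (φ : X ≃ₜ Y) (f : C(X, X))
    (g : C(Y, Y)) (h : ∀ p, φ (f p) = g (φ p)) :
    ∃ e : H1.obj (TopCat.of X) ≃ₗ[ℚ] H1.obj (TopCat.of Y),
      ∀ x, e ((H1.map (TopCat.ofHom f)).hom x) = (H1.map (TopCat.ofHom g)).hom (e x) := by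
  let i : TopCat.of X ≅ TopCat.of Y := TopCat.isoOfHomeo φ
  have hi : TopCat.ofHom f ≫ i.hom = i.hom ≫ TopCat.ofHom g := by
    ext p
    exact h p
  refine ⟨(H1.mapIso i).toLinearEquiv, fun x => ?_⟩
  have := congrArg (fun f => (H1.map f).hom x) hi
  simp only [Functor.map_comp, ModuleCat.hom_comp, LinearMap.comp_apply] at this
  exact this

theorem charpoly_eq {M N : Type} [AddCommGroup M] [AddCommGroup N] [Module ℚ M] [Module ℚ N]
    [Module.Finite ℚ M] [Module.Finite ℚ N] (e : M ≃ₗ[ℚ] N) (f : M →ₗ[ℚ] M) (g : N →ₗ[ℚ] N)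
    (h : ∀ x, e (f x) = g (e x)) : f.charpoly = g.charpoly := by
  rw [← LinearEquiv.charpoly_conj e]
  congr 1
  ext x
  rw [LinearEquiv.conj_apply_apply, h, LinearEquiv.apply_symm_apply]

end Pool.Agent.Work.MP_0c03d4_ag
end
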